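import Mathlib
import Pool.Agent.Helper74.Rsd.DualNorm

/-! Abstract gain seminorms with a common background. -/

set_option autoImplicit false
set_option linter.unusedSectionVars false

open scoped ZeroAtInfty Topology
open Filter Set
open Pool.Agent.Helper74.Rsd

namespace Pool.Agent.Helper74.Ord

variable {L : Type*} [TopologicalSpace L]

/-- a family of seminorms with a common background, the excess going to zero -/
structure IsGain (G : L → C₀(L, ℝ) → ℝ) (bg : C₀(L, ℝ) → ℝ) : Prop where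
  bg_nonneg : ∀ x, 0 ≤ bg x
  bg_le : ∀ γ x, bg x ≤ G γ x
  le : ∀ γ x, G γ x ≤ ‖x‖
  add : ∀ γ x y, G γ (x + y) ≤ G γ x + G γ y
  smul : ∀ γ (c : ℝ) x, G γ (c • x) = |c| * G γ x
  fin : ∀ x, ∀ ε > 0, {γ | ε ≤ G γ x - bg x}.Finite

variable {G : L → C₀(L, ℝ) → ℝ} {bg : C₀(L, ℝ) → ℝ}

theorem IsGain.nonneg (hG : IsGain G bg) (γ : L) (x : C₀(L, ℝ)) : 0 ≤ G γ x :=
  (hG.bg_nonneg x).trans (hG.bg_le γ x)

/-- the total gain -/
noncomputable def gsum (G : L → C₀(L, ℝ) → ℝ) (h : L → ℝ)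
    (x : C₀(L, ℝ)) : ℝ := ∑' γ, |h γ| * G γ x

theorem summable_gsum (hG : IsGain G bg) {h : L → ℝ} (hs : Summable h)
    (x : C₀(L, ℝ)) : Summable (fun γ => |h γ| * G γ x) := by
  refine Summable.of_norm_bounded (g := fun γ => |h γ| * ‖x‖) (hs.abs.mul_right _) ?_
  intro γ
  rw [Real.norm_eq_abs, abs_mul, abs_abs, abs_of_nonneg (hG.nonneg γ x)]
  exact mul_le_mul_of_nonneg_left (hG.le γ x) (abs_nonneg _)

theorem gsum_nonneg (hG : IsGain G bg) (h : L → ℝ) (x : C₀(L, ℝ)) :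
    0 ≤ gsum G h x := tsum_nonneg fun γ => mul_nonneg (abs_nonneg _) (hG.nonneg γ x)

theorem gsum_le (hG : IsGain G bg) {h : L → ℝ} (hs : Summable h)
    (x : C₀(L, ℝ)) : gsum G h x ≤ mass h univ * ‖x‖ := by
  unfold gsum
  rw [mass_univ, ← tsum_mul_right]
  exact (summable_gsum hG hs x).tsum_le_tsum
    (fun γ => mul_le_mul_of_nonneg_left (hG.le γ x) (abs_nonneg _))
    (hs.abs.mul_right _)

theorem gsum_add_le (hG : IsGain G bg) {h : L → ℝ} (hs : Summable h)
    (x y : C₀(L, ℝ)) : gsum G h (x + y) ≤ gsum G h x + gsum G h y := by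
  unfold gsum
  rw [← (summable_gsum hG hs x).tsum_add (summable_gsum hG hs y)]
  refine (summable_gsum hG hs _).tsum_le_tsum (fun γ => ?_)
    ((summable_gsum hG hs x).add (summable_gsum hG hs y))
  have := mul_le_mul_of_nonneg_left (hG.add γ x y) (abs_nonneg (h γ))
  linarith [mul_add |h γ| (G γ x) (G γ y)]

theorem gsum_smul_right (hG : IsGain G bg) (h : L → ℝ) (c : ℝ) (x : C₀(L, ℝ)) :
    gsum G h (c • x) = |c| * gsum G h x := by
  unfold gsum
  rw [← tsum_mul_left]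
  congr 1
  funext γ
  rw [hG.smul]
  ring

theorem gsum_smul_left (h : L → ℝ) (c : ℝ) (x : C₀(L, ℝ)) :
    gsum G (fun γ => c * h γ) x = |c| * gsum G h x := by
  unfold gsum
  rw [← tsum_mul_left]
  congr 1
  funext γ
  rw [abs_mul]
  ring

end Pool.Agent.Helper74.Ord
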