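import Mathlib
import Pool.Agent.Helper74.Ord.Gain
import Pool.Agent.Helper74.Rsd.Norming
import Pool.Agent.Helper74.Rsd.Riesz
import Pool.Agent.Helper74.Rsd.Smulyan

/-! The perturbed norm. -/

set_option autoImplicit false
set_option linter.unusedSectionVars false

open scoped ZeroAtInfty Topology
open Filter Set
open Pool.Agent.Helper74.Rsd

namespace Pool.Agent.Helper74.Ord

variable {L : Type*} [TopologicalSpace L]

/-- the energy -/
noncomputable def en (p : C₀(L, ℝ) → ℝ) (r : ℝ) (h : L → ℝ) : ℝ :=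
  (dn p h) ^ 2 + r * (mass h univ) ^ 2 + r ^ 3 * ∑' γ, (h γ) ^ 2

/-- a functional with its gain -/
noncomputable def hat (G : L → C₀(L, ℝ) → ℝ) (r : ℝ) (h : L → ℝ)
    (x : C₀(L, ℝ)) : ℝ := pr h x + r ^ 2 * gsum G h x

/-- the perturbed norm -/
noncomputable def Q (p : C₀(L, ℝ) → ℝ) (G : L → C₀(L, ℝ) → ℝ) (r : ℝ)
    (x : C₀(L, ℝ)) : ℝ := sSup {v | ∃ h, Summable h ∧ en p r h ≤ 1 ∧ v = hat G r h x}

variable {G : L → C₀(L, ℝ) → ℝ} {bg : C₀(L, ℝ) → ℝ} {p : C₀(L, ℝ) → ℝ} {a b r : ℝ}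

theorem en_nonneg (hr : 0 ≤ r) (h : L → ℝ) : 0 ≤ en p r h := by
  unfold en
  have := tsum_sq_nonneg h
  positivity

theorem dn_le_one (hp : IsEqNorm p a b) (hr : 0 ≤ r) {h : L → ℝ} (hs : Summable h)
    (he : en p r h ≤ 1) : dn p h ≤ 1 := by
  unfold en at he
  have h1 := tsum_sq_nonneg h
  have h2 : 0 ≤ r * (mass h univ) ^ 2 := by positivity
  have h3 : 0 ≤ r ^ 3 * ∑' γ, (h γ) ^ 2 := by positivity
  have h4 := dn_nonneg hp hs
  nlinarith

theorem en_smul_le (hp : IsEqNorm p a b) {h : L → ℝ} (hs : Summable h)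
    (c : ℝ) : en p r (fun γ => c * h γ) ≤ c ^ 2 * en p r h := by
  unfold en
  have h1 : (dn p (fun γ => c * h γ)) ^ 2 ≤ c ^ 2 * (dn p h) ^ 2 := by
    have h2 := dn_smul hp hs c
    have h3 := dn_nonneg hp (hs.mul_left c)
    calc (dn p (fun γ => c * h γ)) ^ 2 ≤ (|c| * dn p h) ^ 2 := by
          exact pow_le_pow_left₀ h3 h2 2
      _ = c ^ 2 * (dn p h) ^ 2 := by rw [mul_pow, sq_abs]
  have h2 : mass (fun γ => c * h γ) univ ^ 2 = c ^ 2 * (mass h univ) ^ 2 := by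
    rw [mass_smul, mul_pow, sq_abs]
  have h3 : ∑' γ, (c * h γ) ^ 2 = c ^ 2 * ∑' γ, (h γ) ^ 2 := by
    rw [← tsum_mul_left]
    congr 1
    funext γ
    ring
  rw [h2, h3]
  linarith

theorem hat_smul_left (h : L → ℝ) (c : ℝ) (hc : 0 ≤ c) (x : C₀(L, ℝ)) :
    hat G r (fun γ => c * h γ) x = c * hat G r h x := by
  unfold hat
  rw [pr_smul_left, gsum_smul_left, abs_of_nonneg hc]
  ring

theorem hat_add_right (hG : IsGain G bg) {h : L → ℝ} (hs : Summable h)
    (x y : C₀(L, ℝ)) : hat G r h (x + y) ≤ hat G r h x + hat G r h y := by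
  unfold hat
  rw [pr_add_right hs]
  have := mul_le_mul_of_nonneg_left (gsum_add_le hG hs x y) (sq_nonneg r)
  linarith [mul_add (r ^ 2) (gsum G h x) (gsum G h y)]

variable [T2Space L] [LocallyCompactSpace L]

theorem mass_le_b (hp : IsEqNorm p a b) {h : L → ℝ} (hs : Summable h) :
    mass h univ ≤ b * dn p h := by
  refine mass_le_dn hp hs fun ε hε => ?_
  obtain ⟨u, hu1, -, hu2⟩ := norming h hs univ isOpen_univ ε hε
  exact ⟨u, hu1, hu2⟩

theorem mass_le_of_en (hp : IsEqNorm p a b) (hr : 0 ≤ r) {h : L → ℝ} (hs : Summable h)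
    (he : en p r h ≤ 1) : mass h univ ≤ b := by
  have h1 := dn_le_one hp hr hs he
  have h2 := mass_le_b hp hs
  nlinarith [hp.b_pos]

theorem hat_le (hp : IsEqNorm p a b) (hG : IsGain G bg) (hr : 0 ≤ r)
    {h : L → ℝ} (hs : Summable h) (he : en p r h ≤ 1) (x : C₀(L, ℝ)) :
    hat G r h x ≤ p x + r ^ 2 * b * ‖x‖ := by
  unfold hat
  have h1 := dn_le_one hp hr hs he
  have h2 := mass_le_of_en hp hr hs he
  have h3 := pr_le_dn hp hs x
  have h4 := gsum_le hG hs x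
  have h5 : dn p h * p x ≤ p x := by nlinarith [hp.nonneg x]
  have h6 : gsum G h x ≤ b * ‖x‖ :=
    h4.trans (mul_le_mul_of_nonneg_right h2 (norm_nonneg _))
  have h7 := mul_le_mul_of_nonneg_left h6 (sq_nonneg r)
  linarith [mul_assoc (r ^ 2) b ‖x‖]

theorem bddAbove_Q (hp : IsEqNorm p a b) (hG : IsGain G bg) (hr : 0 ≤ r)
    (x : C₀(L, ℝ)) :
    BddAbove {v | ∃ h, Summable h ∧ en p r h ≤ 1 ∧ v = hat G r h x} := by
  refine ⟨p x + r ^ 2 * b * ‖x‖, ?_⟩
  rintro v ⟨h, hs, he, rfl⟩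
  exact hat_le hp hG hr hs he x

theorem le_Q (hp : IsEqNorm p a b) (hG : IsGain G bg) (hr : 0 ≤ r)
    {h : L → ℝ} (hs : Summable h) (he : en p r h ≤ 1) (x : C₀(L, ℝ)) :
    hat G r h x ≤ Q p G r x :=
  le_csSup (bddAbove_Q hp hG hr x) ⟨h, hs, he, rfl⟩

theorem en_zero (hp : IsEqNorm p a b) : en p r (fun _ => (0 : ℝ)) = 0 := by
  have h1 : dn p (fun _ : L => (0 : ℝ)) = 0 := by
    refine le_antisymm (dn_le hp fun x _ => (pr_zero_left x).le)
      (dn_nonneg hp summable_zero)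
  unfold en
  rw [h1]
  simp [mass]

theorem Q_le (hp : IsEqNorm p a b) {x : C₀(L, ℝ)} {c : ℝ}
    (hc : ∀ h, Summable h → en p r h ≤ 1 → hat G r h x ≤ c) : Q p G r x ≤ c := by
  refine csSup_le ⟨hat G r (fun _ => 0) x, _, summable_zero, ?_, rfl⟩ ?_
  · rw [en_zero hp]
    norm_num
  · rintro v ⟨h, hs, he, rfl⟩
    exact hc h hs he

theorem exists_near_Q (hp : IsEqNorm p a b) (x : C₀(L, ℝ)) {c : ℝ} (hc : c < Q p G r x) :
    ∃ h, Summable h ∧ en p r h ≤ 1 ∧ c < hat G r h x := by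
  by_contra hcon
  push Not at hcon
  have := Q_le hp hcon
  linarith

theorem Q_nonneg (hp : IsEqNorm p a b) (hG : IsGain G bg) (hr : 0 ≤ r)
    (x : C₀(L, ℝ)) : 0 ≤ Q p G r x := by
  have h1 := le_Q (G := G) (r := r) hp hG hr (h := fun _ => 0)
    summable_zero (by rw [en_zero hp]; norm_num) x
  have h2 : hat G r (fun _ => (0 : ℝ)) x = 0 := by
    simp [hat, pr, gsum]
  linarith

/-- the basic inequality -/
theorem hat_le_Q (hp : IsEqNorm p a b) (hG : IsGain G bg) (hr : 0 ≤ r)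
    {h : L → ℝ} (hs : Summable h) (x : C₀(L, ℝ)) :
    hat G r h x ≤ Q p G r x * (1 + en p r h) / 2 := by
  have he := en_nonneg (p := p) hr h
  set E := en p r h with hE
  have hc : 0 < 2 / (1 + E) := by positivity
  have h1 : en p r (fun γ => 2 / (1 + E) * h γ) ≤ 1 := by
    refine (en_smul_le hp hs _).trans ?_
    rw [← hE, div_pow, div_mul_eq_mul_div, div_le_one (by positivity)]
    nlinarith [sq_nonneg (1 - E)]
  have h2 := le_Q (G := G) hp hG hr (hs.mul_left (2 / (1 + E))) h1 x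
  rw [hat_smul_left _ _ hc.le] at h2
  rw [div_mul_eq_mul_div, div_le_iff₀ (by positivity)] at h2
  linarith

theorem Q_le_p (hp : IsEqNorm p a b) (hG : IsGain G bg) (hr : 0 ≤ r)
    (x : C₀(L, ℝ)) : Q p G r x ≤ p x + r ^ 2 * b * ‖x‖ :=
  Q_le hp fun h hs he => hat_le hp hG hr hs he x

/-- support functionals as elements of `ℓ¹` -/
theorem exists_dn_eq (hsc : ∀ F : Set L, IsClosed F → F.Nonempty → ∃ γ ∈ F, ∃ N ∈ 𝓝 γ, N ∩ F ⊆ {γ})
    (hp : IsEqNorm p a b) (x : C₀(L, ℝ)) :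
    ∃ h : L → ℝ, Summable h ∧ dn p h ≤ 1 ∧ pr h x = p x := by
  obtain ⟨f, hf1, hf2⟩ := exists_support p a b hp x
  obtain ⟨h, hs, hh⟩ := riesz hsc f
  refine ⟨h, hs, dn_le hp fun z hz => ?_, ?_⟩
  · rw [← hh]
    exact (hf1 z).trans hz
  · rw [← hh, hf2]

theorem p_le_Q (hsc : ∀ F : Set L, IsClosed F → F.Nonempty → ∃ γ ∈ F, ∃ N ∈ 𝓝 γ, N ∩ F ⊆ {γ})
    (hp : IsEqNorm p a b) (hG : IsGain G bg) (hr : 0 ≤ r) (hr1 : r ≤ 1)
    (x : C₀(L, ℝ)) : p x ≤ Q p G r x * (1 + r * b ^ 2) := by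
  obtain ⟨h, hs, hd, hx⟩ := exists_dn_eq hsc hp x
  have h1 := hat_le_Q (G := G) hp hG hr hs x
  have hm : mass h univ ≤ b := by
    have h2 := mass_le_b hp hs
    nlinarith [hp.b_pos]
  have hm0 := mass_nonneg h univ
  have h2 : en p r h ≤ 1 + 2 * (r * b ^ 2) := by
    unfold en
    have h3 := tsum_sq_le hs
    have h4 : (mass h univ) ^ 2 ≤ b ^ 2 := pow_le_pow_left₀ hm0 hm 2
    have h5 : (dn p h) ^ 2 ≤ 1 := by
      have := dn_nonneg hp hs
      nlinarith
    have h6 : r ^ 3 ≤ r := by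
      have : r ^ 2 ≤ 1 := by nlinarith
      nlinarith
    have h7 : r ^ 3 * ∑' γ, (h γ) ^ 2 ≤ r * b ^ 2 := by
      have := tsum_sq_nonneg h
      calc r ^ 3 * ∑' γ, (h γ) ^ 2 ≤ r * ∑' γ, (h γ) ^ 2 :=
            mul_le_mul_of_nonneg_right h6 this
        _ ≤ r * b ^ 2 := mul_le_mul_of_nonneg_left (h3.trans h4) hr
    have h8 : r * (mass h univ) ^ 2 ≤ r * b ^ 2 := mul_le_mul_of_nonneg_left h4 hr
    linarith
  have h3 : p x ≤ hat G r h x := by
    unfold hat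
    rw [hx]
    have := gsum_nonneg hG h x
    have := mul_nonneg (sq_nonneg r) this
    linarith
  have hQ := Q_nonneg hp hG hr x
  have h4 : Q p G r x * (1 + en p r h) / 2 ≤ Q p G r x * (1 + r * b ^ 2) := by
    nlinarith
  linarith

theorem Q_isEqNorm
    (hsc : ∀ F : Set L, IsClosed F → F.Nonempty → ∃ γ ∈ F, ∃ N ∈ 𝓝 γ, N ∩ F ⊆ {γ})
    (hp : IsEqNorm p a b) (hG : IsGain G bg) (hr : 0 ≤ r) (hr1 : r ≤ 1) :
    IsEqNorm (Q p G r) (a / (1 + b ^ 2)) (2 * b) := by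
  have key : ∀ (c : ℝ) (x : C₀(L, ℝ)), Q p G r (c • x) ≤ |c| * Q p G r x := by
    intro c x
    refine Q_le hp fun h hs he => ?_
    rcases le_total 0 c with hc | hc
    · rw [abs_of_nonneg hc]
      have h1 : hat G r h (c • x) = c * hat G r h x := by
        unfold hat
        rw [pr_smul_right, gsum_smul_right hG, abs_of_nonneg hc]
        ring
      rw [h1]
      exact mul_le_mul_of_nonneg_left (le_Q hp hG hr hs he x) hc
    · rw [abs_of_nonpos hc]
      have h1 : hat G r h (c • x) = (-c) * hat G r (fun γ => (-1) * h γ) x := by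
        unfold hat
        rw [pr_smul_right, gsum_smul_right hG, abs_of_nonpos hc, pr_smul_left, gsum_smul_left]
        simp
        ring
      rw [h1]
      refine mul_le_mul_of_nonneg_left (le_Q hp hG hr (hs.mul_left (-1)) ?_ x)
        (neg_nonneg.mpr hc)
      refine (en_smul_le hp hs _).trans ?_
      linarith
  refine ⟨fun x y => ?_, fun c x => ?_, ?_, ?_, fun x => ?_, fun x => ?_⟩
  · refine Q_le hp fun h hs he => ?_
    exact (hat_add_right hG hs x y).trans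
      (add_le_add (le_Q hp hG hr hs he x) (le_Q hp hG hr hs he y))
  · refine le_antisymm (key c x) ?_
    by_cases hc : c = 0
    · subst hc
      simp only [abs_zero, zero_mul]
      exact Q_nonneg hp hG hr _
    · have h1 := key c⁻¹ (c • x)
      rw [smul_smul, inv_mul_cancel₀ hc, one_smul, abs_inv] at h1
      have h2 : 0 < |c| := abs_pos.mpr hc
      rw [← div_eq_inv_mul, le_div_iff₀ h2] at h1
      linarith
  · have := hp.a_pos
    positivity
  · have := hp.b_pos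
    positivity
  · have h1 := p_le_Q (G := G) hsc hp hG hr hr1 x
    have h2 := hp.lower x
    have hQ := Q_nonneg (p := p) (G := G) (r := r) hp hG hr x
    rw [div_mul_eq_mul_div, div_le_iff₀ (by positivity)]
    have h3 : Q p G r x * (1 + r * b ^ 2) ≤ Q p G r x * (1 + b ^ 2) := by
      refine mul_le_mul_of_nonneg_left ?_ hQ
      nlinarith [sq_nonneg b]
    linarith
  · have h1 := Q_le_p (G := G) (r := r) hp hG hr x
    have h2 := hp.upper x
    have h3 : r ^ 2 * b * ‖x‖ ≤ b * ‖x‖ := by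
      have : r ^ 2 ≤ 1 := by nlinarith
      have h4 : r ^ 2 * b ≤ b := by nlinarith [hp.b_pos]
      exact mul_le_mul_of_nonneg_right h4 (norm_nonneg _)
    linarith

/-- distance of the perturbed norm to the original one -/
theorem abs_Q_sub_le
    (hsc : ∀ F : Set L, IsClosed F → F.Nonempty → ∃ γ ∈ F, ∃ N ∈ 𝓝 γ, N ∩ F ⊆ {γ})
    (hp : IsEqNorm p a b) (hG : IsGain G bg) (hr : 0 ≤ r) (hr1 : r ≤ 1)
    (x : C₀(L, ℝ)) : |Q p G r x - p x| ≤ r * (b + 2 * b ^ 3) * ‖x‖ := by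
  have h1 := p_le_Q (G := G) hsc hp hG hr hr1 x
  have h2 := Q_le_p (G := G) (r := r) hp hG hr x
  have h3 := (Q_isEqNorm (G := G) hsc hp hG hr hr1).upper x
  have hx := norm_nonneg x
  have hb := hp.b_pos
  rw [abs_le]
  constructor
  · have h4 : Q p G r x * (r * b ^ 2) ≤ 2 * b * ‖x‖ * (r * b ^ 2) :=
      mul_le_mul_of_nonneg_right h3 (by positivity)
    have h5 : 0 ≤ r * b * ‖x‖ := by positivity
    nlinarith
  · have h4 : r ^ 2 * b * ‖x‖ ≤ r * b * ‖x‖ := by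
      have : r ^ 2 ≤ r := by nlinarith
      exact mul_le_mul_of_nonneg_right (mul_le_mul_of_nonneg_right this hb.le) hx
    have h5 : 0 ≤ r * (2 * b ^ 3) * ‖x‖ := by positivity
    nlinarith

end Pool.Agent.Helper74.Ord
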