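import Mathlib
import Pool.Agent.Helper74.Ord.Pert

/-! The midpoint lemma and the approximation of almost norming functionals. -/

set_option autoImplicit false
set_option linter.unusedSectionVars false

open scoped ZeroAtInfty Topology
open Filter Set
open Pool.Agent.Helper74.Rsd

namespace Pool.Agent.Helper74.Ord

variable {L : Type*} [TopologicalSpace L]

/-- near-optimal elements of the energy ball at `x` -/
structure InK (p : C₀(L, ℝ) → ℝ) (G : L → C₀(L, ℝ) → ℝ) (r : ℝ)
    (x : C₀(L, ℝ)) (h : L → ℝ) : Prop where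
  summable : Summable h
  energy : en p r h ≤ 1
  near : Q p G r x - r ^ 4 ≤ hat G r h x

/-- standing assumptions on `r` relative to `x` -/
structure Small (p : C₀(L, ℝ) → ℝ) (G : L → C₀(L, ℝ) → ℝ) (r : ℝ)
    (x : C₀(L, ℝ)) : Prop where
  pos : 0 < r
  le_one : r ≤ 1
  xpos : 0 < ‖x‖
  half : 2 * r ^ 4 ≤ Q p G r x
  sq : 16 * r * ‖x‖ ^ 2 ≤ (Q p G r x) ^ 2

variable {G : L → C₀(L, ℝ) → ℝ} {bg : C₀(L, ℝ) → ℝ} {p : C₀(L, ℝ) → ℝ} {a b r : ℝ}

variable [T2Space L] [LocallyCompactSpace L]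

theorem Q_le_mass (hG : IsGain G bg) {x : C₀(L, ℝ)}
    (hsm : Small p G r x) {h : L → ℝ} (hk : InK p G r x h) :
    Q p G r x ≤ 4 * ‖x‖ * mass h univ := by
  have h1 := hk.near
  have h2 : hat G r h x ≤ 2 * (mass h univ * ‖x‖) := by
    unfold hat
    have h3 := (le_abs_self _).trans (abs_pr_le hk.summable x)
    have h4 := gsum_le hG hk.summable x
    have h5 := gsum_nonneg hG h x
    have h6 : r ^ 2 ≤ 1 := by
      have := hsm.pos
      have := hsm.le_one
      nlinarith
    nlinarith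
  have h3 := hsm.half
  linarith

theorem mass_pos_of_InK (hG : IsGain G bg) {x : C₀(L, ℝ)}
    (hsm : Small p G r x) {h : L → ℝ} (hk : InK p G r x h) : 0 < mass h univ := by
  have h1 := Q_le_mass hG hsm hk
  have h2 := hsm.half
  have h3 := hsm.pos
  have h4 : 0 < 4 * ‖x‖ * mass h univ := by
    have : 0 < 2 * r ^ 4 := by positivity
    linarith
  have h5 := hsm.xpos
  by_contra hcon
  push Not at hcon
  have : 4 * ‖x‖ * mass h univ ≤ 0 := mul_nonpos_of_nonneg_of_nonpos (by positivity) hcon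
  linarith

/-- the midpoint lemma -/
theorem mid (hp : IsEqNorm p a b) (hG : IsGain G bg) {x : C₀(L, ℝ)}
    (hsm : Small p G r x) {h k : L → ℝ} (hh : InK p G r x h) (hk : InK p G r x k) :
    Q p G r x * ∑' γ, (h γ - k γ) ^ 2 ≤ 8 * r := by
  have hr := hsm.pos
  have hr1 := hsm.le_one
  have hx := hsm.xpos
  set q := Q p G r x with hq
  have hq0 : 0 < q := by
    have := hsm.half
    have h1 : 0 < 2 * r ^ 4 := by positivity
    linarith
  set m : L → ℝ := fun γ => (1 / 2) * (h γ + k γ) with hm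
  have hss : Summable (fun γ => h γ + k γ) := hh.summable.add hk.summable
  have hms : Summable m := hss.mul_left _
  set D := ∑' γ, (h γ - k γ) ^ 2 with hD
  have hD0 : 0 ≤ D := tsum_nonneg fun _ => sq_nonneg _
  set Av := (1 / 2) * (mass h univ + mass k univ) with hAv
  set Ls := Av - mass m univ with hLs
  have hmm : mass m univ ≤ Av := by
    have h1 := mass_smul (fun γ => h γ + k γ) (1 / 2) univ
    have h2 := mass_add_le hh.summable hk.summable univ
    have h3 : |(1 / 2 : ℝ)| = 1 / 2 := abs_of_pos (by norm_num)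
    rw [h3] at h1
    rw [hm, h1, hAv]
    linarith
  have hL0 : 0 ≤ Ls := by rw [hLs]; linarith
  have hLA : Ls ≤ Av := by rw [hLs]; linarith [mass_nonneg m univ]
  -- the energy of the midpoint
  have hen : en p r m ≤ 1 - r * (Ls * Av) - (1 / 4) * (r ^ 3 * D) := by
    have e1 : (dn p m) ^ 2 ≤ (1 / 2) * ((dn p h) ^ 2 + (dn p k) ^ 2) := by
      have h1 := dn_smul (a := a) (b := b) hp hss (1 / 2)
      have h2 := dn_add_le hp hh.summable hk.summable
      have h3 : |(1 / 2 : ℝ)| = 1 / 2 := abs_of_pos (by norm_num)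
      rw [h3] at h1
      have h4 : dn p m ≤ (1 / 2) * (dn p h + dn p k) := by
        rw [hm]
        linarith
      have h5 := dn_nonneg hp hms
      have h6 : (dn p m) ^ 2 ≤ ((1 / 2) * (dn p h + dn p k)) ^ 2 := pow_le_pow_left₀ h5 h4 2
      nlinarith [sq_nonneg (dn p h - dn p k)]
    have e2 : (mass m univ) ^ 2 ≤ (1 / 2) * ((mass h univ) ^ 2 + (mass k univ) ^ 2) - Ls * Av := by
      have h1 : mass m univ = Av - Ls := by rw [hLs]; ring
      rw [h1]
      have h2 : Av ^ 2 ≤ (1 / 2) * ((mass h univ) ^ 2 + (mass k univ) ^ 2) := by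
        rw [hAv]
        nlinarith [sq_nonneg (mass h univ - mass k univ)]
      nlinarith
    have e3 : ∑' γ, (m γ) ^ 2 = (1 / 2) * (∑' γ, (h γ) ^ 2 + ∑' γ, (k γ) ^ 2) - (1 / 4) * D := by
      have hs1 := summable_sq hh.summable
      have hs2 := summable_sq hk.summable
      have hs3 := summable_sq (hh.summable.sub hk.summable)
      rw [hD, ← hs1.tsum_add hs2, ← tsum_mul_left, ← tsum_mul_left,
        ← ((hs1.add hs2).mul_left (1 / 2)).tsum_sub (hs3.mul_left (1 / 4))]
      congr 1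
      funext γ
      rw [hm]
      ring
    have h1 := hh.energy
    have h2 := hk.energy
    unfold en at h1 h2 ⊢
    rw [e3]
    have h3 := mul_le_mul_of_nonneg_left e2 hr.le
    nlinarith
  -- the value of the midpoint
  have hg : (1 / 2) * (gsum G h x + gsum G k x) - ‖x‖ * Ls ≤ gsum G m x := by
    have hs1 := summable_gsum hG hh.summable x
    have hs2 := summable_gsum hG hk.summable x
    have hs3 := summable_gsum hG hms x
    have hs4 : Summable (fun γ => ‖x‖ * ((1 / 2) * (|h γ| + |k γ|) - |m γ|)) :=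
      (((hh.summable.abs.add hk.summable.abs).mul_left (1 / 2)).sub hms.abs).mul_left _
    have h1 : ∑' γ, ((1 / 2) * (|h γ| * G γ x + |k γ| * G γ x)
        - |m γ| * G γ x) ≤ ∑' γ, ‖x‖ * ((1 / 2) * (|h γ| + |k γ|) - |m γ|) := by
      refine (((hs1.add hs2).mul_left (1 / 2)).sub hs3).tsum_le_tsum (fun γ => ?_) hs4
      have h2 : |m γ| ≤ (1 / 2) * (|h γ| + |k γ|) := by
        rw [hm]
        simp only [abs_mul]
        rw [abs_of_pos (by norm_num : (0 : ℝ) < 1 / 2)]
        have := abs_add_le (h γ) (k γ)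
        linarith
      have h3 := hG.le γ x
      have h4 := hG.nonneg γ x
      have h5 := mul_le_mul_of_nonneg_left h3 (sub_nonneg.mpr h2)
      linarith
    rw [((hs1.add hs2).mul_left (1 / 2)).tsum_sub hs3, tsum_mul_left, hs1.tsum_add hs2,
      tsum_mul_left, (((hh.summable.abs.add hk.summable.abs).mul_left (1 / 2))).tsum_sub hms.abs,
      tsum_mul_left, hh.summable.abs.tsum_add hk.summable.abs, ← mass_univ, ← mass_univ,
      ← mass_univ] at h1
    unfold gsum
    rw [hLs, hAv]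
    linarith
  have hhat : q - r ^ 4 - r ^ 2 * (‖x‖ * Ls) ≤ hat G r m x := by
    have h1 := hh.near
    have h2 := hk.near
    have h3 : pr m x = (1 / 2) * (pr h x + pr k x) := by
      rw [hm, pr_smul_left, pr_add_left hh.summable hk.summable]
    unfold hat at h1 h2 ⊢
    rw [h3]
    have h4 := mul_le_mul_of_nonneg_left hg (sq_nonneg r)
    linarith
  have hmain := hat_le_Q (G := G) hp hG hr.le hms x
  rw [← hq] at hmain
  have h1 : q * (1 + en p r m) / 2 ≤ q * (2 - r * (Ls * Av) - (1 / 4) * (r ^ 3 * D)) / 2 := by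
    have := mul_le_mul_of_nonneg_left hen hq0.le
    linarith
  have h2 : q ≤ 4 * ‖x‖ * Av := by
    have e1 := Q_le_mass hG hsm hh
    have e2 := Q_le_mass hG hsm hk
    rw [hAv]
    linarith
  have h3 : r ^ 2 * (‖x‖ * Ls) ≤ (1 / 2) * q * (r * (Ls * Av)) := by
    -- 4 ‖x‖ Av q ≥ q^2 ≥ 16 r ‖x‖^2
    have e1 : q ^ 2 ≤ 4 * ‖x‖ * Av * q := by
      rw [sq]
      exact mul_le_mul_of_nonneg_right h2 hq0.le
    have e2 := hsm.sq
    rw [← hq] at e2
    have e3 : 4 * r * ‖x‖ ≤ Av * q := by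
      have e4 : 16 * r * ‖x‖ ^ 2 ≤ 4 * ‖x‖ * (Av * q) := by linarith
      have e5 : (4 * ‖x‖) * (4 * r * ‖x‖) ≤ (4 * ‖x‖) * (Av * q) := by
        calc (4 * ‖x‖) * (4 * r * ‖x‖) = 16 * r * ‖x‖ ^ 2 := by ring
          _ ≤ 4 * ‖x‖ * (Av * q) := e4
      exact le_of_mul_le_mul_left e5 (by positivity)
    have e6 : 0 ≤ r * Ls := by positivity
    have e7 := mul_le_mul_of_nonneg_left e3 e6
    have e8 : 0 ≤ r ^ 2 * (‖x‖ * Ls) := by positivity
    nlinarith
  have h4 : q * (r ^ 3 * D) ≤ 8 * r ^ 4 := by nlinarith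
  have h5 : r ^ 3 * (q * D) ≤ r ^ 3 * (8 * r) := by
    calc r ^ 3 * (q * D) = q * (r ^ 3 * D) := by ring
      _ ≤ 8 * r ^ 4 := h4
      _ = r ^ 3 * (8 * r) := by ring
  exact le_of_mul_le_mul_left h5 (by positivity)

/-- almost norming functionals of a nearby norm are dominated by near-optimal elements -/
theorem approx
    (hsc : ∀ F : Set L, IsClosed F → F.Nonempty → ∃ γ ∈ F, ∃ N ∈ 𝓝 γ, N ∩ F ⊆ {γ})
    (hp : IsEqNorm p a b) (hG : IsGain G bg) {x : C₀(L, ℝ)}
    (hr : 0 < r) (hr1 : r ≤ 1) (hrb : r ^ 4 + 4 * b * r ≤ 1)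
    (q : C₀(L, ℝ) → ℝ) (hq : ∀ z, |q z - Q p G r z| ≤ r ^ 8 * ‖z‖)
    {f : L → ℝ} (hf : Summable f) (hf1 : ∀ z, pr f z ≤ q z) (hf2 : q x - r ^ 8 ≤ pr f x)
    (u : C₀(L, ℝ)) (hu : ‖u‖ ≤ 1) :
    ∃ h, InK p G r x h ∧ pr f u ≤ pr h u + (r ^ 2 * b + r ^ 3 * (2 * ‖x‖ + 3)) := by
  have hQ := Q_isEqNorm (G := G) hsc hp hG hr.le hr1
  set s : ℝ := r ^ 5 with hs
  have hs0 : 0 < s := by positivity
  have hs1 : s ≤ 1 := pow_le_one₀ hr.le hr1
  have he0 : 0 < r ^ 8 := by positivity
  obtain ⟨h, hhs, hhe, hhn⟩ := exists_near_Q (G := G) (r := r) hp (x + s • u)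
    (c := Q p G r (x + s • u) - r ^ 8) (by linarith)
  have hm := mass_le_of_en hp hr.le hhs hhe
  have hb := hp.b_pos
  have hpu : |pr h u| ≤ b := by
    have h1 := abs_pr_le hhs u
    have h2 : mass h univ * ‖u‖ ≤ b * 1 :=
      mul_le_mul hm hu (norm_nonneg _) hb.le
    linarith
  have hnorm : ‖x + s • u‖ ≤ ‖x‖ + 1 := by
    refine (norm_add_le _ _).trans ?_
    have : ‖s • u‖ ≤ 1 := by
      rw [norm_smul, Real.norm_eq_abs, abs_of_pos hs0]
      calc s * ‖u‖ ≤ 1 * 1 := mul_le_mul hs1 hu (norm_nonneg _) zero_le_one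
        _ = 1 := one_mul _
    linarith
  -- expansion of the hat
  have hexp : hat G r h (x + s • u) ≤ hat G r h x + s * pr h u + r ^ 2 * (s * b) := by
    unfold hat
    have h1 := gsum_add_le hG hhs x (s • u)
    rw [gsum_smul_right hG, abs_of_pos hs0] at h1
    have h2 : gsum G h u ≤ b := by
      refine (gsum_le hG hhs u).trans ?_
      have h2 : mass h univ * ‖u‖ ≤ b * 1 :=
        mul_le_mul hm hu (norm_nonneg _) hb.le
      linarith
    rw [pr_add_right hhs, pr_smul_right]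
    have h3 := mul_le_mul_of_nonneg_left h2 hs0.le
    have h4 : gsum G h (x + s • u) ≤ gsum G h x + s * b := by linarith
    have h5 := mul_le_mul_of_nonneg_left h4 (sq_nonneg r)
    linarith [mul_add (r ^ 2) (gsum G h x) (s * b)]
  refine ⟨h, ⟨hhs, hhe, ?_⟩, ?_⟩
  · have h1 : Q p G r x ≤ Q p G r (x + s • u) + s * (2 * b) := by
      have h2 := hQ.sub_le x (x + s • u)
      have h3 : x - (x + s • u) = (-s) • u := by
        ext γ
        simp
      rw [h3, hQ.smul, abs_neg, abs_of_pos hs0] at h2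
      have h4 : Q p G r u ≤ 2 * b := by
        refine (hQ.upper u).trans ?_
        nlinarith
      have h5 := mul_le_mul_of_nonneg_left h4 hs0.le
      linarith
    have h2 : s * pr h u ≤ s * b := mul_le_mul_of_nonneg_left ((le_abs_self _).trans hpu) hs0.le
    have h3 : r ^ 2 * (s * b) ≤ s * b := by
      have : r ^ 2 ≤ 1 := pow_le_one₀ hr.le hr1
      have h4 : 0 ≤ s * b := by positivity
      nlinarith
    have h4 : r ^ 8 + s * (4 * b) ≤ r ^ 4 := by
      have : r ^ 4 * (r ^ 4 + 4 * b * r) ≤ r ^ 4 * 1 :=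
        mul_le_mul_of_nonneg_left hrb (by positivity)
      rw [hs]
      nlinarith
    linarith
  · have h1 : pr f (x + s • u) = pr f x + s * pr f u := by
      rw [pr_add_right hf, pr_smul_right]
    have h2 := hf1 (x + s • u)
    have h3 := (abs_le.mp (hq (x + s • u))).2
    have h4 := (abs_le.mp (hq x)).1
    have h5 : r ^ 8 * ‖x + s • u‖ ≤ r ^ 8 * (‖x‖ + 1) :=
      mul_le_mul_of_nonneg_left hnorm he0.le
    have h6 := le_Q (G := G) hp hG hr.le hhs hhe x
    have h7 : s * pr f u ≤ s * pr h u + r ^ 2 * (s * b) + r ^ 8 * (2 * ‖x‖ + 3) := by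
      linarith
    have h8 : r ^ 8 = s * r ^ 3 := by rw [hs]; ring
    have h9 : s * pr f u ≤ s * (pr h u + (r ^ 2 * b + r ^ 3 * (2 * ‖x‖ + 3))) := by
      rw [h8] at h7
      linarith
    exact le_of_mul_le_mul_left h9 hs0

end Pool.Agent.Helper74.Ord
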