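import Mathlib
import Pool.Agent.Helper74.Rsd.Limit

/-! Push-forward of `ℓ¹` functions under partial maps. -/

set_option autoImplicit false
set_option linter.unusedSectionVars false

open scoped ZeroAtInfty Topology
open Filter Set
open Pool.Agent.Helper74.Rsd

namespace Pool.Agent.Helper74.Ord

variable {L : Type*} [TopologicalSpace L]

/-- the fibre of a partial map -/
def fib (ρ : L → Option L) (δ : L) : Set L := {γ | ρ γ = some δ}

/-- push-forward of an `ℓ¹` function under a partial map -/
noncomputable def push (ρ : L → Option L) (f : L → ℝ) (δ : L) : ℝ :=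
  ∑' γ, (fib ρ δ).indicator f γ

theorem hasSum_fib (ρ : L → Option L) {f : L → ℝ} (hf : Summable f)
    (h0 : ∀ γ, ρ γ = none → f γ = 0) :
    HasSum (fun δ => ∑' γ, (fib ρ δ).indicator f γ) (∑' γ, f γ) := by
  have h1 := hf.hasSum.tsum_fiberwise ρ
  have h2 : ∀ c : Option L, c ∉ range (some : L → Option L) → ∑' b : ρ ⁻¹' {c}, f b = 0 := by
    intro c hc
    have hc' : c = none := by
      cases c with
      | none => rfl
      | some d => exact absurd ⟨d, rfl⟩ hc
    subst hc'
    have : (fun b : ρ ⁻¹' {none} => f b) = fun _ => 0 := by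
      funext b
      exact h0 b.1 b.2
    rw [this, tsum_zero]
  have h3 := ((Option.some_injective L).hasSum_iff h2).mpr h1
  refine h3.congr_fun ?_ |> fun h => h
  intro δ
  rw [← tsum_subtype]
  rfl

theorem hasSum_mass_fib (ρ : L → Option L) {f : L → ℝ} (hf : Summable f) :
    HasSum (fun δ => mass f (fib ρ δ)) (mass f {γ | ρ γ ≠ none}) := by
  have h1 := hasSum_fib ρ (f := ({γ | ρ γ ≠ none}).indicator (fun γ => |f γ|))
    (hf.abs.indicator _) (fun γ hγ => by simp [hγ])
  have h2 : (fun δ => mass f (fib ρ δ)) =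
      fun δ => ∑' γ, (fib ρ δ).indicator (({γ | ρ γ ≠ none}).indicator (fun γ => |f γ|)) γ := by
    funext δ
    unfold mass
    congr 1
    funext γ
    by_cases hγ : γ ∈ fib ρ δ
    · have h3 : ρ γ ≠ none := by
        have : ρ γ = some δ := hγ
        rw [this]
        simp
      have h4 : γ ∈ {γ | ρ γ ≠ none} := h3
      simp [hγ, h4]
    · simp [hγ]
  rw [h2]
  exact h1

theorem abs_push_le (ρ : L → Option L) {f : L → ℝ} (hf : Summable f) (δ : L) :
    |push ρ f δ| ≤ mass f (fib ρ δ) := by
  unfold push mass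
  have h1 := norm_tsum_le_tsum_norm (hf.indicator (fib ρ δ)).norm
  rw [Real.norm_eq_abs] at h1
  refine h1.trans (le_of_eq ?_)
  congr 1
  funext γ
  by_cases hγ : γ ∈ fib ρ δ <;> simp [hγ]

theorem summable_push (ρ : L → Option L) {f : L → ℝ} (hf : Summable f) :
    Summable (push ρ f) := by
  refine Summable.of_norm_bounded (hasSum_mass_fib ρ hf).summable (fun δ => ?_)
  rw [Real.norm_eq_abs]
  exact abs_push_le ρ hf δ

theorem mass_push_le (ρ : L → Option L) {f : L → ℝ} (hf : Summable f) :
    mass (push ρ f) univ ≤ mass f {γ | ρ γ ≠ none} := by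
  rw [mass_univ, ← (hasSum_mass_fib ρ hf).tsum_eq]
  exact (summable_push ρ hf).abs.tsum_le_tsum (fun δ => abs_push_le ρ hf δ)
    (hasSum_mass_fib ρ hf).summable

/-- the pairing with invariant functions does not change -/
theorem pr_push (ρ : L → Option L) {f : L → ℝ} (hf : Summable f) (x : C₀(L, ℝ))
    (h1 : ∀ γ δ, ρ γ = some δ → x γ = x δ) (h2 : ∀ γ, ρ γ = none → x γ = 0) :
    pr (push ρ f) x = pr f x := by
  have h3 := hasSum_fib ρ (f := fun γ => f γ * x γ) (summable_pr hf x)
    (fun γ hγ => by simp [h2 γ hγ])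
  unfold pr
  rw [← h3.tsum_eq]
  congr 1
  funext δ
  unfold push
  rw [← tsum_mul_right]
  congr 1
  funext γ
  by_cases hγ : γ ∈ fib ρ δ
  · simp only [hγ, indicator_of_mem]
    rw [h1 γ δ hγ]
  · simp [hγ]

end Pool.Agent.Helper74.Ord
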