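import Mathlib
import Pool.Agent.Helper74.Ord.Mid
import Pool.Agent.Helper74.Ord.Push

/-! The limit lemma with push-forwards. -/

set_option autoImplicit false
set_option linter.unusedSectionVars false

open scoped ZeroAtInfty Topology
open Filter Set
open Pool.Agent.Helper74.Rsd

namespace Pool.Agent.Helper74.Ord

variable {ι L : Type*} [TopologicalSpace L] [T2Space L] [LocallyCompactSpace L]

/-- a partial retraction adapted to `x`, to the norm and to the gains -/
structure Retr (p : C₀(L, ℝ) → ℝ) (G : L → C₀(L, ℝ) → ℝ) (bg : C₀(L, ℝ) → ℝ)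
    (x : C₀(L, ℝ)) (ρ : L → Option L) : Prop where
  idem : ∀ γ δ, ρ γ = some δ → ρ δ = some δ
  xinv : ∀ γ δ, ρ γ = some δ → x γ = x δ
  xzero : ∀ γ, ρ γ = none → x γ = 0
  contr : ∀ k : L → ℝ, Summable k → dn p (push ρ k) ≤ dn p k
  pos : ∀ δ, ρ δ = some δ → bg x < G δ x
  zero : ∀ δ, ρ δ ≠ some δ → G δ x = bg x
  cpt : ∀ δ, IsCompact (fib ρ δ)
  opn : IsOpen {γ | ρ γ ≠ none}

variable {G : L → C₀(L, ℝ) → ℝ} {bg : C₀(L, ℝ) → ℝ} {p : C₀(L, ℝ) → ℝ} {a b r : ℝ}
variable {ρ : L → Option L} {x : C₀(L, ℝ)}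

/-- small neighbourhoods of sets -/
theorem small_nhd_set {h : L → ℝ} (hs : Summable h) (K : Set L) (ε : ℝ) (hε : 0 < ε) :
    ∃ J : Set L, IsOpen J ∧ K ⊆ J ∧ mass h (J \ K) ≤ ε := by
  obtain ⟨F, hF⟩ : ∃ F : Finset L, mass h ((F : Set L)ᶜ) ≤ ε := by
    have h2 : Tendsto (fun F : Finset L => ∑ γ ∈ F, |h γ|) atTop (𝓝 (∑' γ, |h γ|)) :=
      hs.abs.hasSum
    have h3 := h2.eventually (lt_mem_nhds (show ∑' γ, |h γ| - ε < ∑' γ, |h γ| by linarith))
    obtain ⟨F, hF⟩ := h3.exists
    refine ⟨F, ?_⟩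
    have h4 := mass_compl hs (F : Set L)
    have h5 : mass h (F : Set L) = ∑ γ ∈ F, |h γ| := by
      unfold mass
      rw [tsum_eq_sum (s := F)]
      · refine Finset.sum_congr rfl fun γ hγ => ?_
        simp [hγ]
      · intro γ hγ
        simp [hγ]
    rw [mass_univ] at h4
    linarith
  refine ⟨((F : Set L) \ K)ᶜ, ?_, ?_, ?_⟩
  · exact (F.finite_toSet.subset sdiff_subset).isClosed.isOpen_compl
  · intro γ hγ h
    exact h.2 hγ
  · refine (mass_mono hs ?_).trans hF
    rintro δ ⟨h1, h2⟩ h3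
    exact h1 ⟨h3, h2⟩

section lim
variable {U : Ultrafilter ι} {h : ι → L → ℝ} {M : ℝ} {g0 g ν : L → ℝ}

/-- escaping mass near a compact set is seen by `ν` -/
theorem lim_escape_le (D : LimData U h M g0 g ν) (hs : ∀ i, Summable (h i)) (K : Set L)
    (hK : IsCompact K) (δ : L) (hδ : δ ∈ K)
    (B : ℝ) (hB : ∀ J : Set L, IsOpen J → K ⊆ J → ∀ᶠ i in (U : Filter ι), B ≤ mass (h i) (J \ {δ})) :
    |g0 δ| + B ≤ mass ν K := by
  refine le_of_forall_pos_le_add fun ε hε => ?_
  obtain ⟨J, hJ, hKJ, hm⟩ := small_nhd_set D.νs K ε hε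
  obtain ⟨-, D1, hD1, hKD1, hD1J, -⟩ := bump K J hK hJ hKJ
  obtain ⟨u, D2, -, -, hD2, hu0, hu1, huC, huD⟩ := bump D1 J hD1 hJ hD1J
  have hδ1 : δ ∈ interior D1 := hKD1 hδ
  have e1 : pr ν u ≤ mass ν K + mass ν (J \ K) := by
    have f1 : pr ν u = pr (fun γ => |ν γ|) u := by
      unfold pr
      congr 1
      funext γ
      change ν γ * u γ = |ν γ| * u γ
      rw [abs_of_nonneg (D.ν_nonneg hs γ)]
    rw [f1]
    refine (pr_abs_le_mass D.νs hu0 hu1 huD).trans ?_
    refine (mass_mono D.νs ?_).trans (mass_union_le D.νs K (J \ K))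
    intro γ hγ
    by_cases h : γ ∈ K
    · exact Or.inl h
    · exact Or.inr ⟨hD2 hγ, h⟩
  have e2 : ∀ᶠ i in (U : Filter ι), |h i δ| + B ≤ pr (fun γ => |h i γ|) u := by
    filter_upwards [hB (interior D1) isOpen_interior hKD1] with i hi
    have e3 := mass_le_pr_abs (hs i) hu0 huC
    have e4 : |h i δ| + mass (h i) (interior D1 \ {δ}) ≤ mass (h i) D1 := by
      have e5 : mass (h i) (interior D1 \ {δ}) ≤ mass (h i) (D1 \ {δ}) :=
        mass_mono (hs i) (sdiff_subset_sdiff_left interior_subset)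
      have e6 : |h i δ| + mass (h i) (D1 \ {δ}) = mass (h i) D1 := by
        rw [← mass_singleton (h i) δ]
        unfold mass
        rw [← (summable_abs_ind (hs i) {δ}).tsum_add (summable_abs_ind (hs i) (D1 \ {δ}))]
        congr 1
        funext γ
        by_cases hγ : γ = δ
        · subst hγ
          simp [interior_subset hδ1]
        · by_cases hγ2 : γ ∈ D1 <;> simp [hγ, hγ2]
      linarith
    linarith
  have e3 : |g0 δ| + B ≤ pr ν u :=
    le_of_tendsto_of_tendsto ((D.hg0 δ).abs.add_const B) (D.hν u) e2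
  linarith

/-- the gain part of the limit -/
theorem lim_hat_le (D : LimData U h M g0 g ν) (hG : IsGain G bg)
    (hs : ∀ i, Summable (h i)) (hb : ∀ i, mass (h i) univ ≤ b)
    (x : C₀(L, ℝ)) (c : ℝ) (hc : ∀ i, c ≤ hat G r (h i) x) :
    c ≤ pr g x + r ^ 2 * (bg x * M + ∑' γ, |g0 γ| * (G γ x - bg x)) := by
  have hg0s : Summable g0 := by
    refine Summable.of_norm_bounded D.νs (fun γ => ?_)
    rw [Real.norm_eq_abs]
    exact D.abs_g0_le hs γ
  have hse : ∀ k : L → ℝ, Summable k → Summable (fun γ => |k γ| * (G γ x - bg x)) := by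
    intro k ks
    refine ((summable_gsum hG ks x).sub (ks.abs.mul_right (bg x))).congr fun γ => ?_
    ring
  have hb0 : 0 ≤ b ∨ IsEmpty ι := by
    by_cases hι : Nonempty ι
    · obtain ⟨i⟩ := hι
      exact Or.inl ((mass_nonneg _ _).trans (hb i))
    · exact Or.inr (not_nonempty_iff.mp hι)
  have hb0 : 0 ≤ b := by
    rcases hb0 with h | h
    · exact h
    · exfalso
      have := U.neBot
      exact (filter_eq_bot_of_isEmpty (U : Filter ι) ▸ this).ne rfl
  -- for every ε
  have key : ∀ ε > 0, c ≤ pr g x + r ^ 2 * (bg x * M + (∑' γ, |g0 γ| * (G γ x - bg x) + ε * b)) := by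
    intro ε hε
    set F := (hG.fin x ε hε).toFinset with hF
    have h1 : ∀ k : L → ℝ, Summable k → mass k univ ≤ b →
        gsum G k x ≤ bg x * mass k univ + (∑ γ ∈ F, |k γ| * (G γ x - bg x) + ε * b) := by
      intro k ks kb
      have e0 : gsum G k x = bg x * mass k univ + ∑' γ, |k γ| * (G γ x - bg x) := by
        unfold gsum
        rw [mass_univ, ← tsum_mul_left, ← (ks.abs.mul_left (bg x)).tsum_add (hse k ks)]
        congr 1
        funext γ
        ring
      have e1 : ∑' γ, |k γ| * (G γ x - bg x) ≤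
          ∑' γ, ((F : Set L).indicator (fun γ => |k γ| * (G γ x - bg x)) γ + ε * |k γ|) := by
        refine (hse k ks).tsum_le_tsum (fun γ => ?_)
          (((hse k ks).indicator _).add (ks.abs.mul_left ε))
        by_cases hγ : γ ∈ F
        · have : γ ∈ (F : Set L) := hγ
          simp only [this, indicator_of_mem]
          have := mul_nonneg hε.le (abs_nonneg (k γ))
          linarith
        · have h3 : γ ∉ (F : Set L) := hγ
          simp only [h3, not_false_eq_true, indicator_of_notMem, zero_add]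
          have h4 : G γ x - bg x < ε := by
            by_contra hcon
            push Not at hcon
            exact hγ ((hG.fin x ε hε).mem_toFinset.mpr hcon)
          rw [mul_comm ε]
          exact mul_le_mul_of_nonneg_left h4.le (abs_nonneg _)
      have hsum1 : Summable ((F : Set L).indicator (fun γ => |k γ| * (G γ x - bg x))) :=
        (hse k ks).indicator _
      rw [hsum1.tsum_add (ks.abs.mul_left ε), tsum_mul_left, ← mass_univ] at e1
      have e2 : ∑' γ, (F : Set L).indicator (fun γ => |k γ| * (G γ x - bg x)) γ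
          = ∑ γ ∈ F, |k γ| * (G γ x - bg x) := by
        rw [tsum_eq_sum (s := F)]
        · refine Finset.sum_congr rfl fun γ hγ => ?_
          simp [hγ]
        · intro γ hγ
          simp [hγ]
      rw [e2] at e1
      have e3 := mul_le_mul_of_nonneg_left kb hε.le
      rw [e0]
      linarith
    have h2 : ∑ γ ∈ F, |g0 γ| * (G γ x - bg x) ≤ ∑' γ, |g0 γ| * (G γ x - bg x) :=
      (hse g0 hg0s).sum_le_tsum F
        (fun γ _ => mul_nonneg (abs_nonneg _) (sub_nonneg.mpr (hG.bg_le γ x)))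
    have h3 : c ≤ pr g x + r ^ 2 * (bg x * M + (∑ γ ∈ F, |g0 γ| * (G γ x - bg x) + ε * b)) := by
      have t1 : Tendsto (fun i => pr (h i) x + r ^ 2 * (bg x * mass (h i) univ +
          (∑ γ ∈ F, |h i γ| * (G γ x - bg x) + ε * b)))
          U (𝓝 (pr g x + r ^ 2 * (bg x * M + (∑ γ ∈ F, |g0 γ| * (G γ x - bg x) + ε * b)))) := by
        refine (D.hg x).add (Tendsto.const_mul _ ((D.hM.const_mul (bg x)).add
          (Tendsto.add_const _ ?_)))
        refine tendsto_finsetSum _ fun γ _ => ?_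
        exact (D.hg0 γ).abs.mul_const _
      refine ge_of_tendsto t1 (Filter.Eventually.of_forall fun i => ?_)
      have h4 := hc i
      unfold hat at h4
      have h5 := mul_le_mul_of_nonneg_left (h1 (h i) (hs i) (hb i)) (sq_nonneg r)
      linarith
    have h6 := mul_le_mul_of_nonneg_left
      (add_le_add_right (add_le_add_left h2 (ε * b)) (bg x * M)) (sq_nonneg r)
    linarith
  refine le_of_forall_pos_le_add fun ε hε => ?_
  have h1 := key (ε / (r ^ 2 * b + 1)) (by positivity)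
  have h2 : r ^ 2 * (ε / (r ^ 2 * b + 1) * b) ≤ ε := by
    rw [div_mul_eq_mul_div, mul_div_assoc', div_le_iff₀ (by positivity)]
    nlinarith
  linarith [mul_add (r ^ 2) (bg x * M + ∑' γ, |g0 γ| * (G γ x - bg x))
    (ε / (r ^ 2 * b + 1) * b)]

/-- the energy part of the limit -/
theorem lim_en_le (D : LimData U h M g0 g ν) (hp : IsEqNorm p a b) (hr : 0 < r)
    (hk : ∀ i, Summable (h i)) (he : ∀ i, en p r (h i) ≤ 1)
    (hT : ∀ k : L → ℝ, Summable k → dn p (push ρ k) ≤ dn p k) :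
    en p r (push ρ g) ≤ 1 - r * M ^ 2 + r * (mass (push ρ g) univ) ^ 2
      + r ^ 3 * (mass (push ρ g) univ) ^ 2 := by
  have h1 : ∀ z, p z ≤ 1 → (pr g z) ^ 2 ≤ 1 - r * M ^ 2 := by
    intro z hz
    have t1 : Tendsto (fun i => (pr (h i) z) ^ 2) U (𝓝 ((pr g z) ^ 2)) := (D.hg z).pow 2
    have t2 : Tendsto (fun i => 1 - r * (mass (h i) univ) ^ 2) U (𝓝 (1 - r * M ^ 2)) :=
      ((D.hM.pow 2).const_mul r).const_sub 1
    refine le_of_tendsto_of_tendsto' t1 t2 fun i => ?_
    have e1 : |pr (h i) z| ≤ dn p (h i) := by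
      rw [abs_le]
      constructor
      · have e2 : pr (h i) (-z) ≤ dn p (h i) := le_dn hp (hk i) (by rw [hp.neg]; exact hz)
        rw [pr_neg_right] at e2
        linarith
      · exact le_dn hp (hk i) hz
    have e2 : (pr (h i) z) ^ 2 ≤ (dn p (h i)) ^ 2 := by
      rw [← sq_abs]
      exact pow_le_pow_left₀ (abs_nonneg _) e1 2
    have e3 := he i
    unfold en at e3
    have e4 := tsum_sq_nonneg (h i)
    have e5 : 0 ≤ r ^ 3 * ∑' γ, (h i γ) ^ 2 := by positivity
    linarith
  have h0 : 0 ≤ 1 - r * M ^ 2 := by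
    have := h1 0 (by rw [hp.zero]; norm_num)
    nlinarith [sq_nonneg (pr g 0)]
  have h2 : dn p g ≤ Real.sqrt (1 - r * M ^ 2) := by
    refine dn_le hp fun z hz => ?_
    exact Real.le_sqrt_of_sq_le (h1 z hz)
  have h3 : (dn p (push ρ g)) ^ 2 ≤ 1 - r * M ^ 2 := by
    have e1 := (hT g D.gs).trans h2
    have e2 := dn_nonneg hp (summable_push ρ D.gs)
    calc (dn p (push ρ g)) ^ 2 ≤ (Real.sqrt (1 - r * M ^ 2)) ^ 2 :=
          pow_le_pow_left₀ e2 e1 2
      _ = 1 - r * M ^ 2 := Real.sq_sqrt h0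
  have h4 := tsum_sq_le (summable_push ρ D.gs)
  unfold en
  have h5 : r ^ 3 * ∑' γ, (push ρ g γ) ^ 2 ≤ r ^ 3 * (mass (push ρ g) univ) ^ 2 :=
    mul_le_mul_of_nonneg_left h4 (by positivity)
  linarith

/-- the mass of the pushed limit is at most the total limit mass -/
theorem lim_mass_push_le (D : LimData U h M g0 g ν) (hs : ∀ i, Summable (h i)) :
    mass (push ρ g) univ ≤ M := by
  have h0 := mass_push_le ρ D.gs
  have h1 : mass g {γ | ρ γ ≠ none} ≤ mass g univ := mass_le_univ D.gs _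
  have h2 : mass g univ ≤ mass ν univ := by
    rw [mass_univ, mass_univ]
    refine D.gs.abs.tsum_le_tsum (fun γ => ?_) D.νs.abs
    exact (D.abs_g_le hs γ).trans (le_abs_self _)
  linarith [D.mass_ν_le hs]

theorem abs_push_g_le (D : LimData U h M g0 g ν) (hs : ∀ i, Summable (h i)) (δ : L) :
    |push ρ g δ| ≤ mass ν (fib ρ δ) := by
  refine (abs_push_le ρ D.gs δ).trans ?_
  unfold mass
  refine (summable_abs_ind D.gs _).tsum_le_tsum (fun γ => ?_) (summable_abs_ind D.νs _)
  by_cases hγ : γ ∈ fib ρ δ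
  · simp only [hγ, indicator_of_mem]
    exact (D.abs_g_le hs γ).trans (le_abs_self _)
  · simp [hγ]

/-- the terms of the main inequality -/
theorem lim_term_nonneg (D : LimData U h M g0 g ν) (hs : ∀ i, Summable (h i))
    (hG : IsGain G bg) (hR : Retr p G bg x ρ) (δ : L) :
    0 ≤ (mass ν (fib ρ δ) - |g0 δ|) * (G δ x - bg x) := by
  by_cases hδ : ρ δ = some δ
  · refine mul_nonneg (sub_nonneg.mpr ?_) (sub_nonneg.mpr (hG.bg_le δ x))
    have h1 : δ ∈ fib ρ δ := hδ
    have h2 := abs_le_mass D.νs δ h1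
    have h3 := D.abs_g0_le hs δ
    exact (h3.trans (le_abs_self _)).trans h2
  · rw [hR.zero δ hδ]
    simp

theorem lim_term_summable (D : LimData U h M g0 g ν) (hs : ∀ i, Summable (h i))
    (hG : IsGain G bg) (x : C₀(L, ℝ)) :
    Summable (fun δ => (mass ν (fib ρ δ) - |g0 δ|) * (G δ x - bg x)) := by
  have hg0s : Summable g0 := by
    refine Summable.of_norm_bounded D.νs (fun γ => ?_)
    rw [Real.norm_eq_abs]
    exact D.abs_g0_le hs γ
  have s1 : Summable (fun δ => mass ν (fib ρ δ)) := (hasSum_mass_fib ρ D.νs).summable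
  refine Summable.of_norm_bounded (g := fun δ => (mass ν (fib ρ δ) + |g0 δ|) * ‖x‖)
    ((s1.add hg0s.abs).mul_right _) ?_
  intro δ
  rw [Real.norm_eq_abs, abs_mul]
  have h1 := hG.le δ x
  have h2 := hG.bg_le δ x
  have h3 := hG.bg_nonneg x
  have h4 := mass_nonneg ν (fib ρ δ)
  have h5 := abs_nonneg (g0 δ)
  refine mul_le_mul ?_ ?_ (abs_nonneg _) (by linarith)
  · rw [abs_le]
    constructor <;> linarith
  · rw [abs_of_nonneg (by linarith)]
    linarith

/-- the main inequality for limits of near-optimal elements -/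
theorem lim_main (D : LimData U h M g0 g ν) (hp : IsEqNorm p a b) (hG : IsGain G bg)
    (hsm : Small p G r x) (hk : ∀ i, InK p G r x (h i)) (hR : Retr p G bg x ρ) :
    r ^ 2 * ∑' δ, (mass ν (fib ρ δ) - |g0 δ|) * (G δ x - bg x)
        + (1 / 4) * (r * M * Q p G r x) * (M - mass (push ρ g) univ)
      ≤ r ^ 4 + (1 / 2) * (r ^ 3 * b ^ 2 * Q p G r x) := by
  have hs : ∀ i, Summable (h i) := fun i => (hk i).summable
  have hr := hsm.pos
  set q := Q p G r x with hq
  have hq0 : 0 < q := by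
    have := hsm.half
    have h1 : 0 < 2 * r ^ 4 := by positivity
    linarith
  have hb0 := hp.b_pos
  have hx := hsm.xpos
  have hMb : M ≤ b :=
    le_of_tendsto D.hM (Filter.Eventually.of_forall fun i =>
      mass_le_of_en hp hr.le (hs i) (hk i).energy)
  have hM0 : 0 ≤ M := (mass_nonneg _ _).trans (D.mass_ν_le hs)
  have hMq : q ≤ 4 * ‖x‖ * M := by
    refine ge_of_tendsto (D.hM.const_mul (4 * ‖x‖)) (Filter.Eventually.of_forall fun i => ?_)
    exact Q_le_mass hG hsm (hk i)
  set m := mass (push ρ g) univ with hm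
  have hmM : m ≤ M := lim_mass_push_le D hs
  have hm0 : 0 ≤ m := mass_nonneg _ _
  have h1 := lim_hat_le (r := r) D hG hs (fun i => mass_le_of_en hp hr.le (hs i) (hk i).energy)
    x (q - r ^ 4) (fun i => (hk i).near)
  have h2 := lim_en_le D hp hr hs (fun i => (hk i).energy) hR.contr
  rw [← hm] at h2
  have hps := summable_push ρ D.gs
  have h3 := hat_le_Q (G := G) hp hG hr.le hps x
  rw [← hq] at h3
  have hg0s : Summable g0 := by
    refine Summable.of_norm_bounded D.νs (fun γ => ?_)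
    rw [Real.norm_eq_abs]
    exact D.abs_g0_le hs γ
  have hse : ∀ k : L → ℝ, Summable k → Summable (fun γ => |k γ| * (G γ x - bg x)) := by
    intro k ks
    refine ((summable_gsum hG ks x).sub (ks.abs.mul_right (bg x))).congr fun γ => ?_
    ring
  -- comparison of the gains
  set Sm := ∑' δ, (mass ν (fib ρ δ) - |g0 δ|) * (G δ x - bg x) with hSm
  have h4 : bg x * M + ∑' γ, |g0 γ| * (G γ x - bg x) + Sm - ‖x‖ * (M - m)
      ≤ gsum G (push ρ g) x := by
    have e0 : gsum G (push ρ g) x = bg x * m + ∑' γ, |push ρ g γ| * (G γ x - bg x) := by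
      unfold gsum
      rw [hm, mass_univ, ← tsum_mul_left, ← (hps.abs.mul_left (bg x)).tsum_add (hse _ hps)]
      congr 1
      funext γ
      ring
    have s1 : Summable (fun δ => mass ν (fib ρ δ)) := (hasSum_mass_fib ρ D.νs).summable
    have s2 : Summable (fun δ => mass ν (fib ρ δ) * (G δ x - bg x)) := by
      refine ((lim_term_summable (ρ := ρ) D hs hG x).add (hse g0 hg0s)).congr fun δ => ?_
      ring
    have e1 : ∑' γ, |g0 γ| * (G γ x - bg x) + Sm = ∑' δ, mass ν (fib ρ δ) * (G δ x - bg x) := by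
      rw [hSm, ← (hse g0 hg0s).tsum_add (lim_term_summable (ρ := ρ) D hs hG x)]
      congr 1
      funext γ
      ring
    have e2 : ∑' δ, mass ν (fib ρ δ) * (G δ x - bg x) - ∑' γ, |push ρ g γ| * (G γ x - bg x)
        ≤ (‖x‖ - bg x) * (mass ν {γ | ρ γ ≠ none} - m) := by
      rw [← (hasSum_mass_fib ρ D.νs).tsum_eq, hm, mass_univ, ← s1.tsum_sub hps.abs,
        ← tsum_mul_left, ← s2.tsum_sub (hse _ hps)]
      refine (s2.sub (hse _ hps)).tsum_le_tsum (fun γ => ?_)
        ((s1.sub hps.abs).mul_left _)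
      have f1 : |push ρ g γ| ≤ mass ν (fib ρ γ) := abs_push_g_le D hs γ
      have f2 := hG.le γ x
      have f3 := mul_le_mul_of_nonneg_left (sub_le_sub_right f2 (bg x)) (sub_nonneg.mpr f1)
      linarith
    have e3 : mass ν {γ | ρ γ ≠ none} ≤ M := (mass_le_univ D.νs _).trans (D.mass_ν_le hs)
    have e5 : bg x ≤ ‖x‖ ∨ ¬ (bg x ≤ ‖x‖) := em _
    rcases e5 with e5 | e5
    · have e4 := mul_le_mul_of_nonneg_left (sub_le_sub_right e3 m) (sub_nonneg.mpr e5)
      rw [e0]
      linarith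
    · exfalso
      rcases isEmpty_or_nonempty L with hL | ⟨⟨γ⟩⟩
      · have : x = 0 := by
          ext γ
          exact hL.elim γ
        rw [this, norm_zero] at hx
        exact lt_irrefl _ hx
      · exact e5 ((hG.bg_le γ x).trans (hG.le γ x))
  have h5 : pr (push ρ g) x = pr g x := pr_push ρ D.gs x hR.xinv hR.xzero
  have h6 : q - r ^ 4 + r ^ 2 * Sm - r ^ 2 * (‖x‖ * (M - m))
      ≤ hat G r (push ρ g) x := by
    unfold hat
    rw [h5]
    have := mul_le_mul_of_nonneg_left h4 (sq_nonneg r)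
    linarith
  set c := M - m with hc
  have hc0 : 0 ≤ c := by rw [hc]; linarith
  have hcM : c ≤ M := by rw [hc]; linarith
  have h7 : en p r (push ρ g) ≤ 1 - r * (c * M) + r ^ 3 * b ^ 2 := by
    have e1 : m = M - c := by rw [hc]; ring
    rw [e1] at h2
    have e2 : (M - c) ^ 2 ≤ M ^ 2 - c * M := by nlinarith
    have e3 : (M - c) ^ 2 ≤ b ^ 2 := pow_le_pow_left₀ (by linarith) (by linarith) 2
    have e4 := mul_le_mul_of_nonneg_left e2 hr.le
    have e5 := mul_le_mul_of_nonneg_left e3 (show 0 ≤ r ^ 3 by positivity)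
    linarith
  have h8 : q * (1 + en p r (push ρ g)) / 2
      ≤ q * (2 - r * (c * M) + r ^ 3 * b ^ 2) / 2 := by
    have := mul_le_mul_of_nonneg_left h7 hq0.le
    linarith
  -- r ^ 2 ‖x‖ c ≤ (1/4) r M q c
  have h9 : r ^ 2 * (‖x‖ * c) ≤ (1 / 4) * (r * M * q) * c := by
    have e1 : q ^ 2 ≤ 4 * ‖x‖ * M * q := by
      rw [sq]
      exact mul_le_mul_of_nonneg_right hMq hq0.le
    have e2 := hsm.sq
    rw [← hq] at e2
    have e5 : (4 * ‖x‖) * (4 * r * ‖x‖) ≤ (4 * ‖x‖) * (M * q) := by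
      calc (4 * ‖x‖) * (4 * r * ‖x‖) = 16 * r * ‖x‖ ^ 2 := by ring
        _ ≤ 4 * ‖x‖ * M * q := by linarith
        _ = (4 * ‖x‖) * (M * q) := by ring
    have e3 : 4 * r * ‖x‖ ≤ M * q := le_of_mul_le_mul_left e5 (by positivity)
    have e6 : 0 ≤ r * c := by positivity
    have e7 := mul_le_mul_of_nonneg_left e3 e6
    nlinarith
  nlinarith

end lim

end Pool.Agent.Helper74.Ord
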