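import Mathlib
import Pool.Agent.Helper74.Ord.Limit
import Pool.Agent.Helper74.Rsd.Stage

/-! Uniform tightness of the near-norming functionals at one stage. -/

set_option autoImplicit false
set_option linter.unusedSectionVars false

open scoped ZeroAtInfty Topology
open Filter Set
open Pool.Agent.Helper74.Rsd (IsEqNorm pr mass dn SL SL.mono bump norming abs_apply_le norm_le_of
  mass_nonneg mass_mono mass_le_univ mass_compl mass_univ abs_le_mass exists_limData pr_bump_close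
  abs_pr_le_mass summable_abs_ind summable_sq pr_neg_right)

namespace Pool.Agent.Helper74.Ord

variable {L : Type*} [TopologicalSpace L] [T2Space L] [LocallyCompactSpace L]
variable {G : L → C₀(L, ℝ) → ℝ} {bg : C₀(L, ℝ) → ℝ} {p : C₀(L, ℝ) → ℝ} {a b r : ℝ}

/-- no escape of mass to a fibre with an excess -/
theorem InK_point
    (hsc : ∀ F : Set L, IsClosed F → F.Nonempty → ∃ γ ∈ F, ∃ N ∈ 𝓝 γ, N ∩ F ⊆ {γ})
    (hp : IsEqNorm p a b) (hG : IsGain G bg) {x : C₀(L, ℝ)}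
    (hsm : Small p G r x) {ρ : L → Option L} (hR : Retr p G bg x ρ)
    (δ : L) (hδ : ρ δ = some δ)
    (B : ℝ) (hB : r ^ 2 + (1 / 2) * (r * b ^ 2 * Q p G r x) < B * (G δ x - bg x)) :
    ∃ J : Set L, IsOpen J ∧ fib ρ δ ⊆ J ∧ ∀ h, InK p G r x h → mass h (J \ {δ}) ≤ B := by
  by_contra hcon
  push Not at hcon
  let ι := {J : Set L // IsOpen J ∧ fib ρ δ ⊆ J}
  have hcon' : ∀ J : ι, ∃ h, InK p G r x h ∧
      B < mass h ((J : Set L) \ {δ}) := fun J => hcon J J.2.1 J.2.2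
  choose h hk hB' using hcon'
  have : Nonempty ι := ⟨⟨univ, isOpen_univ, subset_univ _⟩⟩
  have : IsCodirectedOrder ι := ⟨fun C D => ⟨⟨(C : Set L) ∩ D, C.2.1.inter D.2.1,
    subset_inter C.2.2 D.2.2⟩, inter_subset_left, inter_subset_right⟩⟩
  have hne : NeBot (atBot : Filter ι) := inferInstance
  let U : Ultrafilter ι := Ultrafilter.of atBot
  have hs : ∀ i, Summable (h i) := fun i => (hk i).summable
  have hr := hsm.pos
  obtain ⟨M, g0, g, ν, D⟩ := exists_limData hsc U h hs b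
    (fun i => mass_le_of_en hp hr.le (hs i) (hk i).energy)
  have h1 := lim_escape_le D hs (fib ρ δ) (hR.cpt δ) δ hδ B (fun J hJ hl => by
    have h2 : ∀ᶠ i in (atBot : Filter ι), i ≤ (⟨J, hJ, hl⟩ : ι) := eventually_le_atBot _
    have h3 : ∀ᶠ i in (U : Filter ι), i ≤ (⟨J, hJ, hl⟩ : ι) := Ultrafilter.of_le atBot h2
    filter_upwards [h3] with i hi
    refine (hB' i).le.trans (mass_mono (hs i) ?_)
    exact sdiff_subset_sdiff_left hi)
  have h2 := lim_main D hp hG hsm hk hR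
  have hM0 : 0 ≤ M := (mass_nonneg _ _).trans (D.mass_ν_le hs)
  have hmM : mass (push ρ g) univ ≤ M := lim_mass_push_le D hs
  have hQ := Q_nonneg hp hG hr.le x
  have h3 : (mass ν (fib ρ δ) - |g0 δ|) * (G δ x - bg x)
      ≤ ∑' γ, (mass ν (fib ρ γ) - |g0 γ|) * (G γ x - bg x) :=
    (lim_term_summable D hs hG x).le_tsum δ fun γ _ => lim_term_nonneg D hs hG hR γ
  have h4 : B * (G δ x - bg x) ≤ (mass ν (fib ρ δ) - |g0 δ|) * (G δ x - bg x) :=
    mul_le_mul_of_nonneg_right (by linarith) (sub_nonneg.mpr (hG.bg_le δ x))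
  have h5 : 0 ≤ (1 / 4) * (r * M * Q p G r x) * (M - mass (push ρ g) univ) := by
    have : 0 ≤ M - mass (push ρ g) univ := by linarith
    positivity
  have h6 := mul_lt_mul_of_pos_left hB (show 0 < r ^ 2 by positivity)
  have h7 := mul_le_mul_of_nonneg_left (h4.trans h3) (show 0 ≤ r ^ 2 by positivity)
  have h8 : r ^ 2 * (r ^ 2 + (1 / 2) * (r * b ^ 2 * Q p G r x))
      = r ^ 4 + (1 / 2) * (r ^ 3 * b ^ 2 * Q p G r x) := by ring
  linarith

/-- no escape of mass out of the domain -/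
theorem InK_compl
    (hsc : ∀ F : Set L, IsClosed F → F.Nonempty → ∃ γ ∈ F, ∃ N ∈ 𝓝 γ, N ∩ F ⊆ {γ})
    (hp : IsEqNorm p a b) (hG : IsGain G bg) {x : C₀(L, ℝ)}
    (hsm : Small p G r x) {ρ : L → Option L} (hR : Retr p G bg x ρ) (B : ℝ)
    (hB : 16 * ‖x‖ * (r ^ 3 + (1 / 2) * (r ^ 2 * b ^ 2 * Q p G r x))
      < B * (Q p G r x) ^ 2) :
    ∃ C : Set L, IsCompact C ∧ C ⊆ {γ | ρ γ ≠ none} ∧ ∀ h, InK p G r x h → mass h Cᶜ ≤ B := by
  by_contra hcon
  push Not at hcon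
  set T : Set L := {γ | ρ γ ≠ none} with hTdef
  let ι := {C : Set L // IsCompact C ∧ C ⊆ T}
  have hcon' : ∀ C : ι, ∃ h, InK p G r x h ∧ B < mass h (C : Set L)ᶜ :=
    fun C => hcon C C.2.1 C.2.2
  choose h hk hB' using hcon'
  have : Nonempty ι := ⟨⟨∅, isCompact_empty, empty_subset _⟩⟩
  have : IsDirectedOrder ι := ⟨fun C D => ⟨⟨(C : Set L) ∪ D, C.2.1.union D.2.1,
    union_subset C.2.2 D.2.2⟩, subset_union_left, subset_union_right⟩⟩
  have hne : NeBot (atTop : Filter ι) := inferInstance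
  let U : Ultrafilter ι := Ultrafilter.of atTop
  have hs : ∀ i, Summable (h i) := fun i => (hk i).summable
  have hr := hsm.pos
  obtain ⟨M, g0, g, ν, D⟩ := exists_limData hsc U h hs b
    (fun i => mass_le_of_en hp hr.le (hs i) (hk i).energy)
  have h1 := D.escape_compl hs T hR.opn B (fun C hC hCT => by
    have h2 : ∀ᶠ i in (atTop : Filter ι), (⟨C, hC, hCT⟩ : ι) ≤ i := eventually_ge_atTop _
    have h3 : ∀ᶠ i in (U : Filter ι), (⟨C, hC, hCT⟩ : ι) ≤ i := Ultrafilter.of_le atTop h2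
    filter_upwards [h3] with i hi
    refine (hB' i).le.trans (mass_mono (hs i) ?_)
    exact compl_subset_compl.mpr hi)
  have h1' : mass (push ρ g) univ ≤ M - B := (mass_push_le ρ D.gs).trans h1
  have h2 := lim_main D hp hG hsm hk hR
  set q := Q p G r x with hq
  have hq0 : 0 < q := by
    have := hsm.half
    have h1 : 0 < 2 * r ^ 4 := by positivity
    linarith
  have hx := hsm.xpos
  have hM0 : 0 ≤ M := (mass_nonneg _ _).trans (D.mass_ν_le hs)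
  have hMq : q ≤ 4 * ‖x‖ * M := by
    refine ge_of_tendsto (D.hM.const_mul (4 * ‖x‖)) (Filter.Eventually.of_forall fun i => ?_)
    exact Q_le_mass hG hsm (hk i)
  have h3 : 0 ≤ ∑' γ, (mass ν (fib ρ γ) - |g0 γ|) * (G γ x - bg x) :=
    tsum_nonneg fun γ => lim_term_nonneg D hs hG hR γ
  have hgT : mass (push ρ g) univ ≤ M := lim_mass_push_le D hs
  set c := M - mass (push ρ g) univ with hc
  have hc0 : 0 ≤ c := by rw [hc]; linarith
  have hcB : B ≤ c := by rw [hc]; linarith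
  have h4 : (1 / 4) * (r * M * q) * c ≤ r ^ 4 + (1 / 2) * (r ^ 3 * b ^ 2 * q) := by
    have : 0 ≤ r ^ 2 * ∑' γ, (mass ν (fib ρ γ) - |g0 γ|) * (G γ x - bg x) := by positivity
    linarith
  have h5 : r * (M * q * c) ≤ r * (4 * (r ^ 3 + (1 / 2) * (r ^ 2 * b ^ 2 * q))) := by
    calc r * (M * q * c) = 4 * ((1 / 4) * (r * M * q) * c) := by ring
      _ ≤ 4 * (r ^ 4 + (1 / 2) * (r ^ 3 * b ^ 2 * q)) := by linarith
      _ = r * (4 * (r ^ 3 + (1 / 2) * (r ^ 2 * b ^ 2 * q))) := by ring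
  have h6 : M * q * c ≤ 4 * (r ^ 3 + (1 / 2) * (r ^ 2 * b ^ 2 * q)) :=
    le_of_mul_le_mul_left h5 hr
  have h7 : q ^ 2 * c ≤ 4 * ‖x‖ * (M * q * c) := by
    have e1 : q * (q * c) ≤ 4 * ‖x‖ * M * (q * c) :=
      mul_le_mul_of_nonneg_right hMq (by positivity)
    calc q ^ 2 * c = q * (q * c) := by ring
      _ ≤ 4 * ‖x‖ * M * (q * c) := e1
      _ = 4 * ‖x‖ * (M * q * c) := by ring
  have h8 := mul_le_mul_of_nonneg_left h6 (show 0 ≤ 4 * ‖x‖ by positivity)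
  have h9 : B * q ^ 2 ≤ c * q ^ 2 := mul_le_mul_of_nonneg_right hcB (sq_nonneg q)
  linarith

/-- transfer of a mass bound on an open set -/
theorem SL_mass
    (hsc : ∀ F : Set L, IsClosed F → F.Nonempty → ∃ γ ∈ F, ∃ N ∈ 𝓝 γ, N ∩ F ⊆ {γ})
    (hp : IsEqNorm p a b) (hG : IsGain G bg) {x : C₀(L, ℝ)}
    (hr : 0 < r) (hr1 : r ≤ 1) (hrb : r ^ 4 + 4 * b * r ≤ 1)
    (q : C₀(L, ℝ) → ℝ) (hq : ∀ z, |q z - Q p G r z| ≤ r ^ 8 * ‖z‖)
    {f : L → ℝ} (hf : SL q x (r ^ 8) f) (J : Set L) (hJ : IsOpen J) (B : ℝ)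
    (hB : ∀ h, InK p G r x h → mass h J ≤ B) :
    mass f J ≤ B + (r ^ 2 * b + r ^ 3 * (2 * ‖x‖ + 3)) := by
  refine le_of_forall_pos_le_add fun ε hε => ?_
  obtain ⟨u, hu, huJ, hu2⟩ := norming f hf.summable J hJ ε hε
  obtain ⟨h, hk, hh⟩ := approx hsc hp hG hr hr1 hrb q hq hf.summable hf.le hf.near u hu
  have h1 := hB h hk
  have h2 := abs_pr_le_mass hk.summable u huJ (C := 1)
    (fun γ => (abs_apply_le u γ).trans hu)
  have h3 := le_abs_self (pr h u)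
  linarith

/-- transfer of the coordinate estimate -/
theorem SL_coord
    (hsc : ∀ F : Set L, IsClosed F → F.Nonempty → ∃ γ ∈ F, ∃ N ∈ 𝓝 γ, N ∩ F ⊆ {γ})
    (hp : IsEqNorm p a b) (hG : IsGain G bg) {x : C₀(L, ℝ)}
    (hsm : Small p G r x) (hrb : r ^ 4 + 4 * b * r ≤ 1)
    (q : C₀(L, ℝ) → ℝ) (hq : ∀ z, |q z - Q p G r z| ≤ r ^ 8 * ‖z‖)
    {f k : L → ℝ} (hf : SL q x (r ^ 8) f) (hk : SL q x (r ^ 8) k)
    (l : L) (J : Set L) (hJ : IsOpen J) (hl : l ∈ J) (B c : ℝ) (hc : 0 ≤ c)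
    (hcc : 8 * r ≤ Q p G r x * c ^ 2)
    (hB : ∀ h, InK p G r x h → mass h (J \ {l}) ≤ B)
    (hfB : mass f (J \ {l}) ≤ B + (r ^ 2 * b + r ^ 3 * (2 * ‖x‖ + 3)))
    (hkB : mass k (J \ {l}) ≤ B + (r ^ 2 * b + r ^ 3 * (2 * ‖x‖ + 3))) :
    f l - k l ≤ c + 4 * B + 4 * (r ^ 2 * b + r ^ 3 * (2 * ‖x‖ + 3)) := by
  obtain ⟨u, D, -, -, hD, hu0, hu1, huC, huD⟩ := bump {l} J isCompact_singleton hJ
    (by simpa using hl)
  have e0 : u l = 1 := huC l rfl
  have hu : ‖u‖ ≤ 1 := norm_le_of u 1 zero_le_one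
    (fun γ => by rw [abs_of_nonneg (hu0 γ)]; exact hu1 γ)
  have huJ : ∀ δ, δ ∉ J → u δ = 0 := fun δ hδ => huD δ fun h => hδ (hD h)
  obtain ⟨h, hh, hh2⟩ := approx hsc hp hG hsm.pos hsm.le_one hrb q hq
    hf.summable hf.le hf.near u hu
  obtain ⟨h', hh', hh2'⟩ := approx hsc hp hG hsm.pos hsm.le_one hrb q hq
    hk.summable hk.le hk.near (-u) (by rw [norm_neg]; exact hu)
  rw [pr_neg_right, pr_neg_right] at hh2'
  have b1 := pr_bump_close hf.summable hu0 hu1 e0 huJ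
  have b2 := pr_bump_close hk.summable hu0 hu1 e0 huJ
  have b3 := pr_bump_close hh.summable hu0 hu1 e0 huJ
  have b4 := pr_bump_close hh'.summable hu0 hu1 e0 huJ
  have c1 := hB h hh
  have c2 := hB h' hh'
  have c3 : h l - h' l ≤ c := by
    have hm := mid hp hG hsm hh hh'
    have h1 : (h l - h' l) ^ 2 ≤ ∑' γ, (h γ - h' γ) ^ 2 :=
      (summable_sq (hh.summable.sub hh'.summable)).le_tsum l fun γ _ => sq_nonneg _
    have hq0 : 0 < Q p G r x := by
      have := hsm.half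
      have h1 : 0 < 2 * r ^ 4 := by
        have := hsm.pos
        positivity
      linarith
    have h2 : Q p G r x * (h l - h' l) ^ 2 ≤ Q p G r x * c ^ 2 :=
      (mul_le_mul_of_nonneg_left h1 hq0.le).trans (hm.trans hcc)
    have h3 : (h l - h' l) ^ 2 ≤ c ^ 2 := le_of_mul_le_mul_left h2 hq0
    exact (le_abs_self _).trans (abs_le_of_sq_le_sq h3 hc)
  have d1 := abs_le.mp b1
  have d2 := abs_le.mp b2
  have d3 := abs_le.mp b3
  have d4 := abs_le.mp b4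
  linarith [d1.1, d1.2, d2.1, d2.2, d3.1, d3.2, d4.1, d4.2]

end Pool.Agent.Helper74.Ord
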