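import Mathlib
import Pool.Agent.Helper74.Ord.Stage
import Pool.Agent.Helper74.Rsd.Play

/-! From one stage to a play: Fréchet differentiability of the limit norm. -/

set_option autoImplicit false
set_option linter.unusedSectionVars false

open scoped ZeroAtInfty Topology
open Filter Set
open Pool.Agent.Helper74.Rsd (IsEqNorm pr mass dn SL SL.mono bump norming abs_apply_le norm_le_of
  mass_nonneg mass_mono mass_le_univ mass_compl mass_univ abs_le_mass exists_limData pr_bump_close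
  abs_pr_le_mass summable_abs_ind summable_sq pr_neg_right ev_small mass_sub_le mass_union_le
  mass_singleton smulyan riesz pr_sub_left abs_pr_le)

namespace Pool.Agent.Helper74.Ord

variable {L : Type*} [TopologicalSpace L] [T2Space L] [LocallyCompactSpace L]

/-- the stage theorem: for all small `r`, uniform tightness and closeness of coordinates -/
theorem stage
    (hsc : ∀ F : Set L, IsClosed F → F.Nonempty → ∃ γ ∈ F, ∃ N ∈ 𝓝 γ, N ∩ F ⊆ {γ})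
    (a b : ℝ) (ha : 0 < a) (hb : 0 < b)
    (x : C₀(L, ℝ)) (hx : x ≠ 0) (ε : ℝ) (hε : 0 < ε) (g : ℝ) (hg : 0 < g) :
    ∀ᶠ r in 𝓝[>] (0 : ℝ), ∀ (p : C₀(L, ℝ) → ℝ) (G : L → C₀(L, ℝ) → ℝ) (bg : C₀(L, ℝ) → ℝ)
      (ρ : L → Option L)
      (q : C₀(L, ℝ) → ℝ), IsEqNorm p a b → IsGain G bg → Retr p G bg x ρ →
      (∀ z, |q z - Q p G r z| ≤ r ^ 8 * ‖z‖) →
      (∃ C : Set L, IsCompact C ∧ C ⊆ {γ | ρ γ ≠ none} ∧
        ∀ f, SL q x (r ^ 8) f → mass f Cᶜ ≤ ε) ∧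
      (∀ l, g ≤ G l x - bg x → ∃ J : Set L, IsOpen J ∧ fib ρ l ⊆ J ∧ ρ l = some l ∧
        (∀ f, SL q x (r ^ 8) f → mass f (J \ {l}) ≤ ε) ∧
        (∀ f k, SL q x (r ^ 8) f → SL q x (r ^ 8) k → |f l - k l| ≤ ε)) := by
  have hxn : 0 < ‖x‖ := norm_pos_iff.mpr hx
  set α : ℝ := a / (1 + b ^ 2) * ‖x‖ with hα
  have hα0 : 0 < α := by positivity
  set β : ℝ := 2 * b * ‖x‖ with hβ
  have hβ0 : 0 < β := by positivity
  have hpos : ∀ᶠ r in 𝓝[>] (0 : ℝ), 0 < r := self_mem_nhdsWithin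
  filter_upwards [hpos, ev_small 1 1 one_pos, ev_small 2 α hα0,
    ev_small (16 * ‖x‖ ^ 2) (α ^ 2) (by positivity), ev_small (1 + 4 * b) 1 one_pos,
    ev_small (b + (2 * ‖x‖ + 3)) (ε / 16) (by positivity),
    ev_small (16 * ‖x‖ * (1 + (1 / 2) * (b ^ 2 * β))) (ε / 2 * α ^ 2) (by positivity),
    ev_small (1 + (1 / 2) * (b ^ 2 * β)) (ε / 16 * g) (by positivity),
    ev_small 8 (α * (ε / 4) ^ 2) (by positivity)]
    with r hr hr1 hr2 hr3 hr4 hr5 hr6 hr7 hr8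
  intro p G bg ρ q hp hG hR hq
  have hr1' : r ≤ 1 := by linarith
  have hrr : r ^ 2 ≤ r := by nlinarith
  have hr3' : r ^ 3 ≤ r := by nlinarith
  have hr32 : r ^ 3 ≤ r ^ 2 := by nlinarith
  have hr4' : r ^ 4 ≤ r := by nlinarith
  have hQ := Q_isEqNorm (G := G) hsc hp hG hr.le hr1'
  have hQl : α ≤ Q p G r x := hQ.lower x
  have hQu : Q p G r x ≤ β := hQ.upper x
  have hsm : Small p G r x := by
    refine ⟨hr, hr1', hxn, by linarith, ?_⟩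
    have : α ^ 2 ≤ (Q p G r x) ^ 2 := pow_le_pow_left₀ hα0.le hQl 2
    linarith
  have hrb : r ^ 4 + 4 * b * r ≤ 1 := by linarith
  have herr : r ^ 2 * b + r ^ 3 * (2 * ‖x‖ + 3) ≤ ε / 16 := by
    have h1 : r ^ 2 * b ≤ r * b := mul_le_mul_of_nonneg_right hrr hb.le
    have h2 : r ^ 3 * (2 * ‖x‖ + 3) ≤ r * (2 * ‖x‖ + 3) :=
      mul_le_mul_of_nonneg_right hr3' (by positivity)
    linarith
  have hbQ : b ^ 2 * Q p G r x ≤ b ^ 2 * β := mul_le_mul_of_nonneg_left hQu (by positivity)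
  have hbQ0 : 0 ≤ b ^ 2 * Q p G r x := by
    have := hα0.le.trans hQl
    positivity
  constructor
  · have h1 : 16 * ‖x‖ * (r ^ 3 + (1 / 2) * (r ^ 2 * b ^ 2 * Q p G r x))
        < ε / 2 * (Q p G r x) ^ 2 := by
      have h2 : r ^ 3 + (1 / 2) * (r ^ 2 * b ^ 2 * Q p G r x)
          ≤ r * (1 + (1 / 2) * (b ^ 2 * β)) := by
        have h3 : r ^ 2 * (b ^ 2 * Q p G r x) ≤ r * (b ^ 2 * β) :=
          mul_le_mul hrr hbQ hbQ0 hr.le
        linarith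
      have h3 := mul_le_mul_of_nonneg_left h2 (show 0 ≤ 16 * ‖x‖ by positivity)
      have h4 : α ^ 2 ≤ (Q p G r x) ^ 2 := pow_le_pow_left₀ hα0.le hQl 2
      have h5 := mul_le_mul_of_nonneg_left h4 (show 0 ≤ ε / 2 by positivity)
      linarith
    obtain ⟨C, hC, hCT, hCm⟩ := InK_compl hsc hp hG hsm hR (ε / 2) h1
    refine ⟨C, hC, hCT, fun f hf => ?_⟩
    have h2 := SL_mass hsc hp hG hr hr1' hrb q hq hf Cᶜ hC.isClosed.isOpen_compl (ε / 2) hCm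
    linarith
  · intro l hl
    have hρl : ρ l = some l := by
      by_contra hcon
      have := hR.zero l hcon
      linarith
    have h1 : r ^ 2 + (1 / 2) * (r * b ^ 2 * Q p G r x) < ε / 16 * (G l x - bg x) := by
      have h2 : r * (b ^ 2 * Q p G r x) ≤ r * (b ^ 2 * β) := mul_le_mul_of_nonneg_left hbQ hr.le
      have h3 := mul_le_mul_of_nonneg_left hl (show 0 ≤ ε / 16 by positivity)
      linarith
    obtain ⟨J, hJ, hlJ, hJm⟩ := InK_point hsc hp hG hsm hR l hρl (ε / 16) h1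
    have hJo : IsOpen (J \ {l}) := hJ.sdiff isClosed_singleton
    have hfm : ∀ f, SL q x (r ^ 8) f →
        mass f (J \ {l}) ≤ ε / 16 + (r ^ 2 * b + r ^ 3 * (2 * ‖x‖ + 3)) :=
      fun f hf => SL_mass hsc hp hG hr hr1' hrb q hq hf (J \ {l}) hJo (ε / 16) hJm
    have hcc : 8 * r ≤ Q p G r x * (ε / 4) ^ 2 := by
      have := mul_le_mul_of_nonneg_right hQl (show 0 ≤ (ε / 4) ^ 2 by positivity)
      linarith
    refine ⟨J, hJ, hlJ, hρl, fun f hf => ?_, fun f k hf hk => ?_⟩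
    · have := hfm f hf
      linarith
    · have e1 := SL_coord hsc hp hG hsm hrb q hq hf hk l J hJ (hlJ hρl) (ε / 16) (ε / 4)
        (by positivity) hcc hJm (hfm f hf) (hfm k hk)
      have e2 := SL_coord hsc hp hG hsm hrb q hq hk hf l J hJ (hlJ hρl) (ε / 16) (ε / 4)
        (by positivity) hcc hJm (hfm k hk) (hfm f hf)
      rw [abs_le]
      constructor <;> linarith

/-- the data of a play at the norm level -/
structure IsPlay (a b : ℝ) (q : C₀(L, ℝ) → ℝ) (bg : C₀(L, ℝ) → ℝ)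
    (r : ℕ → ℝ) (p : ℕ → C₀(L, ℝ) → ℝ) (G : ℕ → L → C₀(L, ℝ) → ℝ) : Prop where
  hr : Tendsto r atTop (𝓝[>] 0)
  hp : ∀ n, IsEqNorm (p n) a b
  hG : ∀ n, IsGain (G n) bg
  mono : ∀ m n, m ≤ n → ∀ γ x, G m γ x ≤ G n γ x
  near : ∀ n z, |q z - Q (p n) (G n) (r n) z| ≤ (r n) ^ 8 * ‖z‖
  cover : ∀ x : C₀(L, ℝ), x ≠ 0 → ∃ ρ : ℕ → L → Option L,
    (∀ n, Retr (p n) (G n) bg x (ρ n)) ∧ {δ | ∃ n, ρ n δ = some δ}.Countable ∧
    ∀ n γ, ρ n γ ≠ none → ∃ δ, (∃ m, ρ m δ = some δ) ∧ ∀ m, ρ m δ = some δ → ρ m γ = some δ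

/-- near-norming functionals of the limit norm of a play have small diameter -/
theorem play_slices
    (hsc : ∀ F : Set L, IsClosed F → F.Nonempty → ∃ γ ∈ F, ∃ N ∈ 𝓝 γ, N ∩ F ⊆ {γ})
    (a b : ℝ) (ha : 0 < a) (hb : 0 < b)
    (q : C₀(L, ℝ) → ℝ) (bg : C₀(L, ℝ) → ℝ) (r : ℕ → ℝ) (p : ℕ → C₀(L, ℝ) → ℝ)
    (G : ℕ → L → C₀(L, ℝ) → ℝ)
    (hplay : IsPlay a b q bg r p G) (x : C₀(L, ℝ)) (hx : x ≠ 0) (ε : ℝ) (hε : 0 < ε) :
    ∃ ρ > 0, ∀ f k, SL q x ρ f → SL q x ρ k → mass (fun γ => f γ - k γ) univ ≤ 5 * ε := by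
  obtain ⟨R, hR, hRc, hRe⟩ := hplay.cover x hx
  -- eventual stages
  have hev : ∀ ε' > 0, ∀ g > 0, ∀ n0, ∃ n, n0 ≤ n ∧ 0 < r n ∧
      (∃ C : Set L, IsCompact C ∧ C ⊆ {γ | R n γ ≠ none} ∧
        ∀ f, SL q x ((r n) ^ 8) f → mass f Cᶜ ≤ ε') ∧
      (∀ l, g ≤ G n l x - bg x → ∃ J : Set L, IsOpen J ∧ fib (R n) l ⊆ J ∧ R n l = some l ∧
        (∀ f, SL q x ((r n) ^ 8) f → mass f (J \ {l}) ≤ ε') ∧
        (∀ f k, SL q x ((r n) ^ 8) f → SL q x ((r n) ^ 8) k → |f l - k l| ≤ ε')) := by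
    intro ε' hε' g hg n0
    have h1 := hplay.hr.eventually (stage hsc a b ha hb x hx ε' hε' g hg)
    have h2 := hplay.hr.eventually (show ∀ᶠ r in 𝓝[>] (0 : ℝ), 0 < r from self_mem_nhdsWithin)
    obtain ⟨n, ⟨hn1, hn2⟩, hn3⟩ := ((h1.and h2).and (eventually_ge_atTop n0)).exists
    exact ⟨n, hn3, hn2, hn1 (p n) (G n) bg (R n) q (hplay.hp n) (hplay.hG n) (hR n)
      (hplay.near n)⟩
  obtain ⟨n, -, hrn, ⟨C, hC, hCT, hCm⟩, -⟩ := hev ε hε 1 one_pos 0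
  -- enumeration of the set of all fixed points
  set Mi : Set L := {δ | ∃ n, R n δ = some δ} with hMi
  have hMc : Countable Mi := hRc.to_subtype
  obtain ⟨e, he⟩ := hMc.exists_injective_nat
  -- neighbourhoods
  have hJ : ∀ δ : Mi, ∃ (m : ℕ) (J : Set L), 0 < r m ∧ IsOpen J ∧ fib (R m) (δ : L) ⊆ J ∧
      R m δ = some (δ : L) ∧
      (∀ f, SL q x ((r m) ^ 8) f → mass f (J \ {(δ : L)}) ≤ ε / 2 / 2 ^ (e δ)) ∧
      (∀ f k, SL q x ((r m) ^ 8) f → SL q x ((r m) ^ 8) k →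
        |f δ - k δ| ≤ ε / 2 / 2 ^ (e δ)) := by
    intro δ
    obtain ⟨m0, hm0⟩ := δ.2
    have hg := (hR m0).pos δ hm0
    obtain ⟨m, hm1, hm2, -, hm3⟩ := hev (ε / 2 / 2 ^ (e δ)) (by positivity)
      (G m0 δ x - bg x) (sub_pos.mpr hg) m0
    obtain ⟨J, hJ1, hJ2, hJ3, hJ4, hJ5⟩ := hm3 δ
      (sub_le_sub_right (hplay.mono m0 m hm1 δ x) _)
    exact ⟨m, J, hm2, hJ1, hJ2, hJ3, hJ4, hJ5⟩
  choose m J hm hJo hJmem hJfix hJ1 hJ2 using hJ
  obtain ⟨I, hI⟩ := hC.elim_finite_subcover J hJo (fun γ hγ => by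
    obtain ⟨δ, hδ1, hδ2⟩ := hRe n γ (hCT hγ)
    exact mem_iUnion.mpr ⟨⟨δ, hδ1⟩, hJmem ⟨δ, hδ1⟩ (hδ2 _ (hJfix ⟨δ, hδ1⟩))⟩)
  -- the parameter
  obtain ⟨ρ, hρ0, hρn, hρI⟩ : ∃ ρ > 0, ρ ≤ (r n) ^ 8 ∧ ∀ γ ∈ I, ρ ≤ (r (m γ)) ^ 8 := by
    classical
    clear hI
    refine Finset.induction_on I ⟨(r n) ^ 8, by positivity, le_rfl, by simp⟩ ?_
    intro δ I' _ ih'
    obtain ⟨ρ, h1, h2, h3⟩ := ih'
    have hδ := hm δ
    refine ⟨min ρ ((r (m δ)) ^ 8), lt_min h1 (by positivity), (min_le_left _ _).trans h2, ?_⟩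
    intro γ' hγ'
    rcases Finset.mem_insert.mp hγ' with h | h
    · rw [h]
      exact min_le_right _ _
    · exact (min_le_left _ _).trans (h3 γ' h)
  refine ⟨ρ, hρ0, fun f k hf hk => ?_⟩
  have hds : Summable (fun γ => f γ - k γ) := hf.summable.sub hk.summable
  have h1 : mass (fun γ => f γ - k γ) Cᶜ ≤ 2 * ε := by
    have e1 := mass_sub_le hf.summable hk.summable Cᶜ
    have e2 := hCm f (hf.mono hρn)
    have e3 := hCm k (hk.mono hρn)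
    linarith
  have h2 : ∀ γ ∈ I, mass (fun γ => f γ - k γ) (J γ) ≤ 3 * (ε / 2 / 2 ^ (e γ)) := by
    intro γ hγ
    have e1 := mass_sub_le hf.summable hk.summable (J γ \ {(γ : L)})
    have e2 := hJ1 γ f (hf.mono (hρI γ hγ))
    have e3 := hJ1 γ k (hk.mono (hρI γ hγ))
    have e4 := hJ2 γ f k (hf.mono (hρI γ hγ)) (hk.mono (hρI γ hγ))
    have e5 : mass (fun γ => f γ - k γ) (J γ) ≤
        mass (fun γ => f γ - k γ) (J γ \ {(γ : L)}) + mass (fun γ => f γ - k γ) {(γ : L)} := by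
      refine (mass_mono hds ?_).trans (mass_union_le hds _ _)
      intro δ hδ
      by_cases h : δ = (γ : L)
      · exact Or.inr h
      · exact Or.inl ⟨hδ, h⟩
    rw [mass_singleton] at e5
    linarith
  have h3 : mass (fun γ => f γ - k γ) C ≤ ∑ γ ∈ I, mass (fun γ => f γ - k γ) (J γ) := by
    refine (mass_mono hds hI).trans ?_
    clear hI hρI h2
    classical
    refine Finset.induction_on I ?_ ?_
    · simp [mass]
    · intro δ I' hδ ih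
      rw [Finset.sum_insert hδ, Finset.set_biUnion_insert]
      exact (mass_union_le hds _ _).trans (add_le_add_right ih _)
  have h4 : ∑ γ ∈ I, (3 * (ε / 2 / 2 ^ (e γ))) ≤ 3 * ε := by
    rw [← Finset.mul_sum]
    refine mul_le_mul_of_nonneg_left ?_ (by norm_num)
    have e1 : Summable (fun n : ℕ => ε / 2 / 2 ^ n) := summable_geometric_two' ε
    have e2 : Summable (fun γ : Mi => ε / 2 / 2 ^ (e γ)) := e1.comp_injective he
    have e3 : ∑ γ ∈ I, (ε / 2 / 2 ^ (e γ)) ≤ ∑' γ : Mi, ε / 2 / 2 ^ (e γ) :=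
      e2.sum_le_tsum I (fun γ _ => by positivity)
    have e4 : ∑' γ : Mi, ε / 2 / 2 ^ (e γ) ≤ ∑' n : ℕ, ε / 2 / 2 ^ n := by
      exact tsum_comp_le_tsum_of_inj e1 (fun n => by positivity) he
    rw [tsum_geometric_two' ε] at e4
    linarith
  have h5 := mass_compl hds C
  have h6 := Finset.sum_le_sum h2
  linarith

/-- the limit norm of a play is Fréchet differentiable off the origin -/
theorem play_differentiable
    (hsc : ∀ F : Set L, IsClosed F → F.Nonempty → ∃ γ ∈ F, ∃ N ∈ 𝓝 γ, N ∩ F ⊆ {γ})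
    (a b : ℝ) (ha : 0 < a) (hb : 0 < b)
    (q : C₀(L, ℝ) → ℝ) (a' b' : ℝ) (hq : IsEqNorm q a' b') (bg : C₀(L, ℝ) → ℝ)
    (r : ℕ → ℝ) (p : ℕ → C₀(L, ℝ) → ℝ) (G : ℕ → L → C₀(L, ℝ) → ℝ)
    (hplay : IsPlay a b q bg r p G) (x : C₀(L, ℝ)) (hx : x ≠ 0) : DifferentiableAt ℝ q x := by
  refine smulyan q a' b' hq x fun ε hε => ?_
  obtain ⟨ρ, hρ, h⟩ := play_slices hsc a b ha hb q bg r p G hplay x hx (ε / 5)
    (by positivity)
  refine ⟨ρ, hρ, fun f g hf hg hfx hgx z => ?_⟩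
  obtain ⟨f', hfs, hf'⟩ := riesz hsc f
  obtain ⟨g', hgs, hg'⟩ := riesz hsc g
  have h1 := h f' g' ⟨hfs, fun z => by rw [← hf']; exact hf z, by rw [← hf']; exact hfx⟩
    ⟨hgs, fun z => by rw [← hg']; exact hg z, by rw [← hg']; exact hgx⟩
  rw [hf', hg', ← pr_sub_left hfs hgs]
  refine (abs_pr_le (hfs.sub hgs) z).trans ?_
  exact mul_le_mul_of_nonneg_right (by linarith) (norm_nonneg _)

end Pool.Agent.Helper74.Ord
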