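import Mathlib

/-! Day-type seminorms with weights attached to finite sets of indices. -/

set_option autoImplicit false
set_option linter.unusedSectionVars false

open Set

namespace Pool.Agent.Helper74.Ord

variable {Γ : Type*} [DecidableEq Γ]

/-- the value of a list of indices -/
noncomputable def val (w : Finset Γ → ℝ) (u : Γ → ℝ) : Finset Γ → List Γ → ℝ
  | _, [] => 0
  | F, θ :: l => (1 / 2) * ((1 + w (insert θ F)) * |u θ| + val w u (insert θ F) l)

/-- the unweighted value of a list of indices -/
noncomputable def val0 (u : Γ → ℝ) : List Γ → ℝ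
  | [] => 0
  | θ :: l => (1 / 2) * (|u θ| + val0 u l)

/-- admissible lists -/
def Adm (F : Finset Γ) (l : List Γ) : Prop := l.Nodup ∧ ∀ θ ∈ l, θ ∉ F

theorem adm_nil (F : Finset Γ) : Adm F [] := ⟨List.nodup_nil, by simp⟩

theorem adm_cons {F : Finset Γ} {θ : Γ} {l : List Γ} :
    Adm F (θ :: l) ↔ θ ∉ F ∧ Adm (insert θ F) l := by
  unfold Adm
  rw [List.nodup_cons]
  constructor
  · rintro ⟨⟨h1, h2⟩, h3⟩
    refine ⟨h3 θ (by simp), h2, fun δ hδ => ?_⟩
    rw [Finset.mem_insert, not_or]
    refine ⟨?_, h3 δ (by simp [hδ])⟩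
    rintro rfl
    exact h1 hδ
  · rintro ⟨h1, h2, h3⟩
    refine ⟨⟨fun h => h3 θ h (Finset.mem_insert_self _ _), h2⟩, fun δ hδ => ?_⟩
    rcases List.mem_cons.mp hδ with h | h
    · rw [h]
      exact h1
    · exact fun h4 => h3 δ h (Finset.mem_insert_of_mem h4)

variable {w w' : Finset Γ → ℝ} {u v : Γ → ℝ}

theorem val0_nonneg (l : List Γ) : 0 ≤ val0 u l := by
  induction l with
  | nil => exact le_rfl
  | cons θ l ih =>
    unfold val0
    have := abs_nonneg (u θ)
    linarith

theorem val0_le_val (hw : ∀ F, 0 ≤ w F) (F : Finset Γ) (l : List Γ) :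
    val0 u l ≤ val w u F l := by
  induction l generalizing F with
  | nil => exact le_rfl
  | cons θ l ih =>
    unfold val0 val
    have h1 := ih (insert θ F)
    have h2 := mul_nonneg (hw (insert θ F)) (abs_nonneg (u θ))
    linarith

theorem val_nonneg (hw : ∀ F, 0 ≤ w F) (F : Finset Γ) (l : List Γ) : 0 ≤ val w u F l :=
  (val0_nonneg l).trans (val0_le_val hw F l)

theorem val0_le {C : ℝ} (hC : 0 ≤ C) (hu : ∀ θ, |u θ| ≤ C) (l : List Γ) : val0 u l ≤ C := by
  induction l with
  | nil => exact hC
  | cons θ l ih =>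
    unfold val0
    have := hu θ
    linarith

theorem val_le_val0 (hw : ∀ F, w F ≤ 1 / 2) (F : Finset Γ) (l : List Γ) :
    val w u F l ≤ (3 / 2) * val0 u l := by
  induction l generalizing F with
  | nil => simp [val, val0]
  | cons θ l ih =>
    unfold val0 val
    have h1 := ih (insert θ F)
    have h2 := mul_le_mul_of_nonneg_right (hw (insert θ F)) (abs_nonneg (u θ))
    linarith

theorem val_mono (h : ∀ F, w F ≤ w' F) (F : Finset Γ) (l : List Γ) :
    val w u F l ≤ val w' u F l := by
  induction l generalizing F with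
  | nil => exact le_rfl
  | cons θ l ih =>
    unfold val
    have h1 := ih (insert θ F)
    have h2 := mul_le_mul_of_nonneg_right (h (insert θ F)) (abs_nonneg (u θ))
    linarith

theorem val_add (hw : ∀ F, 0 ≤ w F) (F : Finset Γ) (l : List Γ) :
    val w (fun θ => u θ + v θ) F l ≤ val w u F l + val w v F l := by
  induction l generalizing F with
  | nil => simp [val]
  | cons θ l ih =>
    unfold val
    have h1 := ih (insert θ F)
    have h2 := mul_le_mul_of_nonneg_left (abs_add_le (u θ) (v θ))
      (show 0 ≤ 1 + w (insert θ F) by linarith [hw (insert θ F)])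
    linarith

theorem val_smul (c : ℝ) (F : Finset Γ) (l : List Γ) :
    val w (fun θ => c * u θ) F l = |c| * val w u F l := by
  induction l generalizing F with
  | nil => simp [val]
  | cons θ l ih =>
    unfold val
    rw [ih (insert θ F), abs_mul]
    ring

theorem val0_eq_val (F : Finset Γ) (l : List Γ) : val0 u l = val (fun _ => 0) u F l := by
  induction l generalizing F with
  | nil => rfl
  | cons θ l ih =>
    unfold val0 val
    rw [ih (insert θ F)]
    ring

/-- the greedy step -/
theorem greedy (F : Finset Γ) (l : List Γ) (hl : Adm F l) (θ : Γ) (hθ : θ ∉ F)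
    (hmax : ∀ θ', θ' ∉ F → |u θ'| ≤ |u θ|) :
    ∃ l', Adm (insert θ F) l' ∧ val0 u l ≤ (1 / 2) * (|u θ| + val0 u l') := by
  induction l generalizing F with
  | nil =>
    refine ⟨[], adm_nil _, ?_⟩
    unfold val0
    have := abs_nonneg (u θ)
    linarith
  | cons δ l ih =>
    rw [adm_cons] at hl
    by_cases h : δ = θ
    · subst h
      exact ⟨l, hl.2, le_rfl⟩
    · obtain ⟨l', h1, h2⟩ := ih (insert δ F) hl.2
        (by rw [Finset.mem_insert, not_or]; exact ⟨fun h' => h h'.symm, hθ⟩)
        (fun θ' hθ' => hmax θ' fun h' => hθ' (Finset.mem_insert_of_mem h'))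
      refine ⟨δ :: l', ?_, ?_⟩
      · rw [adm_cons]
        refine ⟨?_, ?_⟩
        · rw [Finset.mem_insert, not_or]
          exact ⟨h, hl.1⟩
        · rw [Finset.insert_comm]
          exact h1
      · unfold val0
        have := hmax δ hl.1
        linarith

/-- the excess from a superlevel set -/
theorem excess (hw : ∀ F, 0 ≤ w F) (c : ℝ) (n : ℕ) :
    ∀ (D F : Finset Γ), D.card = n → D.Nonempty → Disjoint D F → (∀ θ ∈ D, c ≤ |u θ|) →
      (∀ θ ∈ D, ∀ θ', θ' ∉ F → θ' ∉ D → |u θ'| ≤ |u θ|) → ∀ l, Adm F l →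
      ∃ l', Adm F l' ∧ val0 u l + (1 / 2) ^ n * (w (F ∪ D) * c) ≤ val w u F l' := by
  induction n with
  | zero =>
    intro D F hD hne
    rw [Finset.card_eq_zero] at hD
    subst hD
    exact absurd hne (by simp)
  | succ n ih =>
    intro D F hD hne hdis hlow hup l hl
    obtain ⟨θ, hθD, hθ⟩ := Finset.exists_max_image D (fun θ => |u θ|) hne
    have hθF : θ ∉ F := Finset.disjoint_left.mp hdis hθD
    have hmax : ∀ θ', θ' ∉ F → |u θ'| ≤ |u θ| := by
      intro θ' h1
      by_cases h2 : θ' ∈ D
      · exact hθ θ' h2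
      · exact hup θ hθD θ' h1 h2
    obtain ⟨l1, h1, h2⟩ := greedy F l hl θ hθF hmax
    have hcard : (D.erase θ).card = n := by
      rw [Finset.card_erase_of_mem hθD, hD]
      rfl
    have hun : insert θ F ∪ D.erase θ = F ∪ D := by
      ext δ
      simp only [Finset.mem_union, Finset.mem_insert, Finset.mem_erase]
      constructor
      · rintro ((h | h) | h)
        · rw [h]
          exact Or.inr hθD
        · exact Or.inl h
        · exact Or.inr h.2
      · rintro (h | h)
        · exact Or.inl (Or.inr h)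
        · by_cases hδ : δ = θ
          · exact Or.inl (Or.inl hδ)
          · exact Or.inr ⟨hδ, h⟩
    by_cases hn : (D.erase θ).Nonempty
    · obtain ⟨l2, h3, h4⟩ := ih (D.erase θ) (insert θ F) hcard hn (by
          rw [Finset.disjoint_left]
          intro δ hδ h
          rw [Finset.mem_erase] at hδ
          rcases Finset.mem_insert.mp h with h | h
          · exact hδ.1 h
          · exact Finset.disjoint_left.mp hdis hδ.2 h)
        (fun δ hδ => hlow δ (Finset.mem_of_mem_erase hδ))
        (fun δ hδ θ' h5 h6 => by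
          refine hup δ (Finset.mem_of_mem_erase hδ) θ'
            (fun h => h5 (Finset.mem_insert_of_mem h)) fun h => ?_
          refine h6 (Finset.mem_erase.mpr ⟨fun h' => h5 ?_, h⟩)
          rw [h']
          exact Finset.mem_insert_self _ _) l1 h1
      refine ⟨θ :: l2, ?_, ?_⟩
      · rw [adm_cons]
        exact ⟨hθF, h3⟩
      · rw [hun] at h4
        unfold val
        have h5 := mul_nonneg (hw (insert θ F)) (abs_nonneg (u θ))
        rw [pow_succ]
        linarith
    · rw [Finset.not_nonempty_iff_eq_empty] at hn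
      rw [hn, Finset.card_empty] at hcard
      subst hcard
      rw [hn, Finset.union_empty] at hun
      refine ⟨θ :: l1, ?_, ?_⟩
      · rw [adm_cons]
        exact ⟨hθF, h1⟩
      · unfold val
        rw [hun]
        have h3 := mul_le_mul_of_nonneg_left (hlow θ hθD) (hw (F ∪ D))
        have h4 := val0_le_val (u := u) hw (F ∪ D) l1
        rw [zero_add, pow_one]
        linarith

/-- comparison with the background -/
theorem compare (hw' : ∀ F, w F ≤ 1 / 2) {C : ℝ} (hC : 0 ≤ C)
    (hu : ∀ θ, |u θ| ≤ C) (D : Set Γ) (δ m : ℝ) (hδ : 0 ≤ δ) (hm : 0 ≤ m)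
    (hD : ∀ θ, θ ∉ D → |u θ| ≤ δ)
    (hmD : ∀ F : Finset Γ, (F : Set Γ) ⊆ D → w F ≤ m) (F : Finset Γ) (hF : (F : Set Γ) ⊆ D)
    (l : List Γ) : ∃ l' : List Γ, l'.Sublist l ∧ val w u F l ≤ val0 u l' + m * C + (3 / 2) * δ := by
  induction l generalizing F with
  | nil =>
    refine ⟨[], List.Sublist.refl _, ?_⟩
    unfold val val0
    have := mul_nonneg hm hC
    linarith
  | cons θ l ih =>
    by_cases hθ : θ ∈ D
    · have hFD : ((insert θ F : Finset Γ) : Set Γ) ⊆ D := by
        rw [Finset.coe_insert]
        exact insert_subset hθ hF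
      obtain ⟨l', h1, h2⟩ := ih (insert θ F) hFD
      refine ⟨θ :: l', h1.cons_cons θ, ?_⟩
      unfold val val0
      have h3 : w (insert θ F) * |u θ| ≤ m * C :=
        mul_le_mul (hmD _ hFD) (hu θ) (abs_nonneg _) hm
      linarith
    · refine ⟨l, List.sublist_cons_self θ l, ?_⟩
      unfold val
      have h1 := val_le_val0 (u := u) hw' (insert θ F) l
      have h2 := val0_nonneg (u := u) l
      have h3 := hD θ hθ
      have h4 : w (insert θ F) * |u θ| ≤ 1 / 2 * δ :=
        mul_le_mul (hw' _) h3 (abs_nonneg _) (by norm_num)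
      have h5 := mul_nonneg hm hC
      linarith

end Pool.Agent.Helper74.Ord
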