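import Mathlib
import Pool.Agent.Helper74.Ord.Day
import Pool.Agent.Helper74.Ord.Gain
import Pool.Agent.Helper74.Rsd.Gain

/-! The gain seminorms of Day type. -/

set_option autoImplicit false
set_option linter.unusedSectionVars false

open scoped ZeroAtInfty Topology
open Filter Set
open Pool.Agent.Helper74.Rsd (IsC0Op)

namespace Pool.Agent.Helper74.Ord

section
variable {Γ : Type*} [DecidableEq Γ]

/-- the Day-type seminorm -/
noncomputable def dayN (w : Finset Γ → ℝ) (u : Γ → ℝ) : ℝ :=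
  ⨆ l : {l : List Γ // Adm ∅ l}, val w u ∅ l.1

variable {w w' : Finset Γ → ℝ} {u v : Γ → ℝ} {C : ℝ}

theorem val_le (hw' : ∀ F, w F ≤ 1 / 2) (hC : 0 ≤ C) (hu : ∀ θ, |u θ| ≤ C) (F : Finset Γ)
    (l : List Γ) : val w u F l ≤ 2 * C := by
  have h1 := val_le_val0 (u := u) hw' F l
  have h2 := val0_le hC hu l
  linarith

theorem bddAbove_day (hw' : ∀ F, w F ≤ 1 / 2) (hC : 0 ≤ C) (hu : ∀ θ, |u θ| ≤ C) :
    BddAbove (range fun l : {l : List Γ // Adm ∅ l} => val w u ∅ l.1) := by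
  refine ⟨2 * C, ?_⟩
  rintro _ ⟨l, rfl⟩
  exact val_le hw' hC hu _ _

theorem le_day (hw' : ∀ F, w F ≤ 1 / 2) (hC : 0 ≤ C) (hu : ∀ θ, |u θ| ≤ C) {l : List Γ}
    (hl : Adm ∅ l) : val w u ∅ l ≤ dayN w u :=
  le_ciSup (bddAbove_day hw' hC hu) ⟨l, hl⟩

theorem day_le {c : ℝ} (h : ∀ l, Adm ∅ l → val w u ∅ l ≤ c) : dayN w u ≤ c := by
  have : Nonempty {l : List Γ // Adm ∅ l} := ⟨⟨[], adm_nil _⟩⟩
  exact ciSup_le fun l => h l.1 l.2

theorem day_nonneg (hw : ∀ F, 0 ≤ w F) : 0 ≤ dayN w u :=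
  Real.iSup_nonneg fun l => val_nonneg hw _ _

theorem day_le_two (hw' : ∀ F, w F ≤ 1 / 2) (hC : 0 ≤ C) (hu : ∀ θ, |u θ| ≤ C) :
    dayN w u ≤ 2 * C := day_le fun l _ => val_le hw' hC hu _ _

theorem day_add (hw : ∀ F, 0 ≤ w F) (hw' : ∀ F, w F ≤ 1 / 2) (hC : 0 ≤ C)
    (hu : ∀ θ, |u θ| ≤ C) (hv : ∀ θ, |v θ| ≤ C) :
    dayN w (fun θ => u θ + v θ) ≤ dayN w u + dayN w v := by
  refine day_le fun l hl => ?_
  exact (val_add hw ∅ l).trans (add_le_add (le_day hw' hC hu hl) (le_day hw' hC hv hl))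

theorem day_smul (c : ℝ) : dayN w (fun θ => c * u θ) = |c| * dayN w u := by
  unfold dayN
  rw [Real.mul_iSup_of_nonneg (abs_nonneg c)]
  congr 1
  funext l
  rw [val_smul]

theorem day_mono (h : ∀ F, w F ≤ w' F) (hw' : ∀ F, w' F ≤ 1 / 2) (hC : 0 ≤ C)
    (hu : ∀ θ, |u θ| ≤ C) : dayN w u ≤ dayN w' u :=
  day_le fun l hl => (val_mono h ∅ l).trans (le_day hw' hC hu hl)

/-- comparison with the background -/
theorem day_compare (hw' : ∀ F, w F ≤ 1 / 2) (hC : 0 ≤ C)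
    (hu : ∀ θ, |u θ| ≤ C) (D : Set Γ) (δ m : ℝ) (hδ : 0 ≤ δ) (hm : 0 ≤ m)
    (hD : ∀ θ, θ ∉ D → |u θ| ≤ δ)
    (hmD : ∀ F : Finset Γ, (F : Set Γ) ⊆ D → w F ≤ m) :
    dayN w u ≤ dayN (fun _ => 0) u + m * C + (3 / 2) * δ := by
  refine day_le fun l hl => ?_
  obtain ⟨l', h1, h2⟩ := compare hw' hC hu D δ m hδ hm hD hmD ∅ (by simp) l
  have h3 : Adm ∅ l' := ⟨hl.1.sublist h1, by simp⟩
  have h4 := le_day (w := fun _ => 0) (by intro _; norm_num) hC hu h3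
  rw [← val0_eq_val] at h4
  linarith

/-- the excess -/
theorem day_excess (hw : ∀ F, 0 ≤ w F) (hw' : ∀ F, w F ≤ 1 / 2) (hC : 0 ≤ C)
    (hu : ∀ θ, |u θ| ≤ C) (c : ℝ) (D : Finset Γ) (hD : D.Nonempty)
    (hlow : ∀ θ ∈ D, c ≤ |u θ|) (hup : ∀ θ ∈ D, ∀ θ', θ' ∉ D → |u θ'| ≤ |u θ|) :
    dayN (fun _ => 0) u + (1 / 2) ^ D.card * (w D * c) ≤ dayN w u := by
  rw [← le_sub_iff_add_le]
  refine day_le fun l hl => ?_
  obtain ⟨l', h1, h2⟩ := excess hw c D.card D ∅ rfl hD (by simp) hlow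
    (fun θ hθ θ' _ h => hup θ hθ θ' h) l hl
  rw [Finset.empty_union] at h2
  rw [← val0_eq_val, le_sub_iff_add_le]
  exact h2.trans (le_day hw' hC hu h1)

end

variable {L Γ : Type*} [TopologicalSpace L] [DecidableEq Γ]

/-- weights attached to finite sets of indices -/
structure IsFW (A : L → Finset Γ → ℝ) : Prop where
  nonneg : ∀ γ F, 0 ≤ A γ F
  le_half : ∀ γ F, A γ F ≤ 1 / 2
  fin : ∀ F, ∀ ε > 0, {γ | ε ≤ A γ F}.Finite
  mono : ∀ γ F F', F ⊆ F' → 0 < A γ F → 0 < A γ F'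

/-- the gain -/
noncomputable def wG (A : L → Finset Γ → ℝ) (S : C₀(L, ℝ) →ₗ[ℝ] (Γ → ℝ)) (γ : L)
    (x : C₀(L, ℝ)) : ℝ := (1 / 2) * dayN (A γ) (S x)

/-- the background -/
noncomputable def wbg (S : C₀(L, ℝ) →ₗ[ℝ] (Γ → ℝ))
    (x : C₀(L, ℝ)) : ℝ := (1 / 2) * dayN (fun _ => 0) (S x)

variable {A A' : L → Finset Γ → ℝ} {S : C₀(L, ℝ) →ₗ[ℝ] (Γ → ℝ)}

theorem isGain_wG (hA : IsFW A) (hS : IsC0Op S) : IsGain (wG A S) (wbg S) where
  bg_nonneg x := by
    unfold wbg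
    have := day_nonneg (w := fun _ => 0) (u := S x) (fun _ => le_rfl)
    linarith
  bg_le γ x := by
    unfold wbg wG
    have := day_mono (w := fun _ => 0) (w' := A γ) (u := S x) (hA.nonneg γ) (hA.le_half γ)
      (norm_nonneg x) (hS.le x)
    linarith
  le γ x := by
    unfold wG
    have := day_le_two (hA.le_half γ) (norm_nonneg x) (hS.le x)
    linarith
  add γ x y := by
    unfold wG
    have h1 : S (x + y) = fun θ => S x θ + S y θ := by
      rw [map_add]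
      rfl
    rw [h1]
    have h2 := day_add (hA.nonneg γ) (hA.le_half γ) (C := max ‖x‖ ‖y‖) (u := S x) (v := S y)
      (le_max_of_le_left (norm_nonneg x)) (fun θ => (hS.le x θ).trans (le_max_left _ _))
      (fun θ => (hS.le y θ).trans (le_max_right _ _))
    linarith
  smul γ c x := by
    unfold wG
    have h1 : S (c • x) = fun θ => c * S x θ := by
      rw [map_smul]
      rfl
    rw [h1, day_smul]
    ring
  fin x ε hε := by
    have hx := norm_nonneg x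
    set D : Set Γ := {θ | ε / 2 ≤ |S x θ|} with hD
    have hDf : D.Finite := hS.fin x (ε / 2) (half_pos hε)
    set m : ℝ := ε / (‖x‖ + 1) with hm
    have hm0 : 0 < m := by positivity
    have hU : (⋃ F ∈ {F : Finset Γ | (F : Set Γ) ⊆ D}, {γ | m ≤ A γ F}).Finite := by
      refine Finite.biUnion ?_ fun F _ => hA.fin F m hm0
      refine (hDf.toFinset.powerset.finite_toSet).subset fun F hF => ?_
      have hF' : (F : Set Γ) ⊆ D := hF
      rw [Finset.mem_coe, Finset.mem_powerset]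
      intro θ hθ
      exact hDf.mem_toFinset.mpr (hF' (Finset.mem_coe.mpr hθ))
    refine hU.subset fun γ hγ => ?_
    have hγ' : ε ≤ wG A S γ x - wbg S x := hγ
    by_contra hcon
    have h1 : ∀ F : Finset Γ, (F : Set Γ) ⊆ D → A γ F ≤ m := by
      intro F hF
      by_contra h
      push Not at h
      exact hcon (mem_iUnion₂.mpr ⟨F, hF, h.le⟩)
    have h2 := day_compare (hA.le_half γ) hx (hS.le x) D (ε / 2) m (half_pos hε).le hm0.le
      (fun θ hθ => by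
        by_contra h
        push Not at h
        exact hθ h.le) h1
    unfold wG wbg at hγ'
    have h3 : m * ‖x‖ ≤ ε := by
      rw [hm, div_mul_eq_mul_div, div_le_iff₀ (by positivity)]
      nlinarith
    linarith

theorem wG_mono (hA' : IsFW A') (hS : IsC0Op S) (h : ∀ γ F, A γ F ≤ A' γ F) (γ : L)
    (x : C₀(L, ℝ)) : wG A S γ x ≤ wG A' S γ x := by
  unfold wG
  have := day_mono (u := S x) (h γ) (hA'.le_half γ) (norm_nonneg x) (hS.le x)
  linarith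

theorem wG_eq (hA : IsFW A) (hS : IsC0Op S) (γ : L) (x : C₀(L, ℝ))
    (h : ∀ F : Finset Γ, (F : Set Γ) ⊆ {θ | S x θ ≠ 0} → ¬ 0 < A γ F) :
    wG A S γ x = wbg S x := by
  refine le_antisymm ?_ ((isGain_wG hA hS).bg_le γ x)
  unfold wG wbg
  have h2 := day_compare (hA.le_half γ) (norm_nonneg x) (hS.le x) {θ | S x θ ≠ 0} 0 0 le_rfl le_rfl
    (fun θ hθ => by
      have : S x θ = 0 := by
        by_contra h
        exact hθ h
      rw [this, abs_zero]) (fun F hF => not_lt.mp (h F hF))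
  linarith

theorem wG_gt (hA : IsFW A) (hS : IsC0Op S) (γ : L) (x : C₀(L, ℝ)) (θ0 : Γ) (hθ0 : S x θ0 ≠ 0)
    (F : Finset Γ) (hF : (F : Set Γ) ⊆ {θ | S x θ ≠ 0}) (hpos : 0 < A γ F) :
    wbg S x < wG A S γ x := by
  obtain ⟨θ1, hθ1, hmin⟩ := Finset.exists_min_image (insert θ0 F) (fun θ => |S x θ|)
    ⟨θ0, Finset.mem_insert_self _ _⟩
  have hθ1' : S x θ1 ≠ 0 := by
    rcases Finset.mem_insert.mp hθ1 with h | h
    · rw [h]
      exact hθ0
    · exact hF (Finset.mem_coe.mpr h)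
  have hc : 0 < |S x θ1| := abs_pos.mpr hθ1'
  have hfin := hS.fin x _ hc
  set D : Finset Γ := hfin.toFinset with hD
  have hmem : ∀ θ, θ ∈ D ↔ |S x θ1| ≤ |S x θ| := fun θ => hfin.mem_toFinset
  have hFD : F ⊆ D := by
    intro θ hθ
    rw [hmem]
    exact hmin θ (Finset.mem_insert_of_mem hθ)
  have h1 := day_excess (hA.nonneg γ) (hA.le_half γ) (norm_nonneg x) (hS.le x) |S x θ1| D
    ⟨θ1, (hmem θ1).mpr le_rfl⟩ (fun θ hθ => (hmem θ).mp hθ) (fun θ hθ θ' hθ' => by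
      rw [hmem] at hθ hθ'
      push Not at hθ'
      exact hθ'.le.trans hθ)
  have h2 : 0 < A γ D := hA.mono γ F D hFD hpos
  unfold wG wbg
  have h3 : 0 < (1 / 2 : ℝ) ^ D.card * (A γ D * |S x θ1|) := by positivity
  linarith

end Pool.Agent.Helper74.Ord
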