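import Mathlib
import Pool.Agent.Helper74.Ord.Limit
import Pool.Agent.Helper74.Ord.DayGain
import Pool.Agent.Helper74.Rsd.Omega
import Pool.Agent.Helper74.Rsd.Rank

/-! Retractions of a well-ordered set onto its subsets. -/

set_option autoImplicit false
set_option linter.unusedSectionVars false

open scoped ZeroAtInfty Topology
open Filter Set
open Pool.Agent.Helper74.Rsd (IsEqNorm pr mass dn IsC0Op
  isOpen_Iic_W isCompact_Iic_W le_dn dn_le dn_nonneg mass_nonneg mass_univ exists_finset_mass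
  abs_apply_le pr_sub_right summable_abs_ind summable_pr mass_le_univ)

namespace Pool.Agent.Helper74.Ord

variable {W : Type*} [LinearOrder W] [WellFoundedLT W] [TopologicalSpace W] [OrderTopology W]

open Classical in
/-- the least element of `M` above `γ` -/
noncomputable def ret (M : Set W) (γ : W) : Option W :=
  if h : (M ∩ Ici γ).Nonempty then some ((wellFounded_lt (α := W)).min (M ∩ Ici γ) h) else none

theorem ret_eq_some {M : Set W} {γ δ : W} :
    ret M γ = some δ ↔ δ ∈ M ∧ γ ≤ δ ∧ ∀ ε ∈ M, γ ≤ ε → δ ≤ ε := by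
  unfold ret
  constructor
  · intro h
    by_cases hne : (M ∩ Ici γ).Nonempty
    · rw [dif_pos hne, Option.some_inj] at h
      have h1 := (wellFounded_lt (α := W)).min_mem (M ∩ Ici γ) hne
      rw [h] at h1
      refine ⟨h1.1, h1.2, fun ε h2 h3 => ?_⟩
      have h4 := (wellFounded_lt (α := W)).not_lt_min (M ∩ Ici γ) (x := ε) ⟨h2, h3⟩
      rw [h] at h4
      exact not_lt.mp h4
    · rw [dif_neg hne] at h
      exact absurd h (by simp)
  · rintro ⟨h1, h2, h3⟩
    have hne : (M ∩ Ici γ).Nonempty := ⟨δ, h1, h2⟩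
    rw [dif_pos hne, Option.some_inj]
    have h4 := (wellFounded_lt (α := W)).min_mem (M ∩ Ici γ) hne
    refine le_antisymm ?_ (h3 _ h4.1 h4.2)
    exact not_lt.mp ((wellFounded_lt (α := W)).not_lt_min (M ∩ Ici γ) (x := δ) ⟨h1, h2⟩)

theorem ret_ne_none {M : Set W} {γ : W} : ret M γ ≠ none ↔ ∃ ε ∈ M, γ ≤ ε := by
  unfold ret
  constructor
  · intro h
    by_cases hne : (M ∩ Ici γ).Nonempty
    · obtain ⟨ε, h1, h2⟩ := hne
      exact ⟨ε, h1, h2⟩
    · rw [dif_neg hne] at h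
      exact absurd rfl h
  · rintro ⟨ε, h1, h2⟩
    have hne : (M ∩ Ici γ).Nonempty := ⟨ε, h1, h2⟩
    rw [dif_pos hne]
    simp

theorem ret_self {M : Set W} {δ : W} (h : δ ∈ M) : ret M δ = some δ :=
  ret_eq_some.mpr ⟨h, le_rfl, fun _ _ h => h⟩

theorem isClosed_Ioi_W (ε : W) : IsClosed (Ioi ε) := by
  rw [← compl_Iic]
  exact (isOpen_Iic_W ε).isClosed_compl

theorem fib_compact (M : Set W) (δ : W) : IsCompact (fib (ret M) δ) := by
  by_cases hδ : δ ∈ M
  · have h1 : fib (ret M) δ = Iic δ ∩ ⋂ ε ∈ M ∩ Iio δ, Ioi ε := by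
      ext γ
      simp only [fib, mem_ofPred_eq, ret_eq_some, mem_inter_iff, mem_Iic, mem_iInter, mem_Iio,
        mem_Ioi]
      constructor
      · rintro ⟨-, h2, h3⟩
        refine ⟨h2, fun ε hε => ?_⟩
        by_contra hcon
        exact absurd (h3 ε hε.1 (not_lt.mp hcon)) (not_le.mpr hε.2)
      · rintro ⟨h2, h3⟩
        refine ⟨hδ, h2, fun ε hε hγ => ?_⟩
        by_contra hcon
        exact absurd (h3 ε ⟨hε, not_le.mp hcon⟩) (not_lt.mpr hγ)
    rw [h1]
    exact (isCompact_Iic_W δ).inter_right (isClosed_biInter fun ε _ => isClosed_Ioi_W ε)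
  · have h1 : fib (ret M) δ = ∅ := by
      ext γ
      simp only [fib, mem_ofPred_eq, ret_eq_some, mem_empty_iff_false, iff_false]
      exact fun h => hδ h.1
    rw [h1]
    exact isCompact_empty

theorem ret_open (M : Set W) : IsOpen {γ | ret M γ ≠ none} := by
  have h1 : {γ | ret M γ ≠ none} = ⋃ ε ∈ M, Iic ε := by
    ext γ
    simp only [mem_ofPred_eq, ret_ne_none, mem_iUnion, mem_Iic, exists_prop]
  rw [h1]
  exact isOpen_biUnion fun ε _ => isOpen_Iic_W ε

/-- functions without jumps on an interval are constant there -/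
theorem const_interval (x : C₀(W, ℝ)) (γ : W) :
    ∀ m, γ ≤ m → (∀ θ σ, IsLeast (Ioi θ) σ → γ ≤ θ → θ < m → x σ = x θ) → x m = x γ := by
  intro m
  induction m using WellFoundedLT.induction with
  | ind m ih =>
    intro hm hstep
    rcases eq_or_lt_of_le hm with h | h
    · rw [h]
    by_contra hc
    have hpos : 0 < |x m - x γ| := abs_pos.2 (sub_ne_zero.2 hc)
    have hn : {θ | |x θ - x m| < |x m - x γ|} ∈ 𝓝 m := by
      have hcn : Continuous fun θ => |x θ - x m| :=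
        ((map_continuous x).sub continuous_const).abs
      have := (isOpen_Iio (a := |x m - x γ|)).preimage hcn
      exact this.mem_nhds (by simpa using sub_ne_zero.2 hc)
    obtain ⟨α, hα, hsub⟩ := exists_Ioc_subset_of_mem_nhds hn ⟨γ, h⟩
    have hθ : max α γ < m := max_lt hα h
    obtain ⟨σ, hσ⟩ : ∃ σ, IsLeast (Ioi (max α γ)) σ :=
      ⟨_, (wellFounded_lt (α := W)).min_mem (Ioi (max α γ)) ⟨m, hθ⟩, fun β hβ =>
        (wellFounded_lt (α := W)).min_le hβ⟩
    have hle : σ ≤ m := hσ.2 hθ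
    have hgt : max α γ < σ := hσ.1
    have hih : ∀ m', m' < m → γ ≤ m' → x m' = x γ := fun m' h1 h2 =>
      ih m' h1 h2 fun θ σ' h0 h3 h4 => hstep θ σ' h0 h3 (h4.trans h1)
    rcases eq_or_lt_of_le hle with h1 | h1
    · apply hc
      have h2 := hstep (max α γ) σ hσ (le_max_right _ _) hθ
      rw [h1] at h2
      rw [h2]
      exact hih _ hθ (le_max_right _ _)
    · have h2 := hsub ⟨(le_max_left α γ).trans_lt hgt, hle⟩
      have h3 := hih _ h1 ((le_max_right α γ).trans hgt.le)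
      simp only [mem_ofPred_eq, h3] at h2
      rw [abs_sub_comm] at h2
      exact lt_irrefl _ h2

/-- the operator of jumps -/
structure IsJump (S : C₀(W, ℝ) →ₗ[ℝ] (W → ℝ)) : Prop where
  c0 : IsC0Op S
  jump : ∀ x θ σ, IsLeast (Ioi θ) σ → S x θ = 0 → x σ = x θ
  cover : ∀ x γ, x γ ≠ 0 → ∃ θ, γ ≤ θ ∧ S x θ ≠ 0

variable {S : C₀(W, ℝ) →ₗ[ℝ] (W → ℝ)}

theorem ret_inv (hS : IsJump S) {M : Set W} {x : C₀(W, ℝ)} (hM : {θ | S x θ ≠ 0} ⊆ M)
    {γ δ : W} (h : ret M γ = some δ) : x γ = x δ := by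
  rw [ret_eq_some] at h
  obtain ⟨h1, h2, h3⟩ := h
  refine (const_interval x γ δ h2 fun θ σ h0 h4 h5 => hS.jump x θ σ h0 ?_).symm
  by_contra hcon
  exact absurd (h3 θ (hM hcon) h4) (not_le.mpr h5)

theorem ret_zero (hS : IsJump S) {M : Set W} {x : C₀(W, ℝ)} (hM : {θ | S x θ ≠ 0} ⊆ M)
    {γ : W} (h : ret M γ = none) : x γ = 0 := by
  by_contra hcon
  obtain ⟨θ, h1, h2⟩ := hS.cover x γ hcon
  exact ret_ne_none.mpr ⟨θ, hM h2, h1⟩ h

/-- closed-off sets -/
def PC (p : C₀(W, ℝ) → ℝ) (S : C₀(W, ℝ) →ₗ[ℝ] (W → ℝ)) (M : Set W) : Prop :=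
  ∀ F : Set W, F.Finite → F ⊆ M → ∀ z, p z ≤ 1 → ∀ ε > 0,
    ∃ y, p y ≤ 1 ∧ (∀ γ ∈ F, |y γ - z γ| ≤ ε) ∧ {θ | S y θ ≠ 0} ⊆ M

theorem push_support (ρ : W → Option W) (k : W → ℝ) (δ : W) (h : ∀ γ, ρ γ ≠ some δ) :
    push ρ k δ = 0 := by
  unfold push
  have : (fun γ => (fib ρ δ).indicator k γ) = fun _ => 0 := by
    funext γ
    have : γ ∉ fib ρ δ := h γ
    simp [this]
  rw [this, tsum_zero]

/-- the push-forward onto a closed-off set is contractive -/
theorem contr_of_PC (hS : IsJump S) {p : C₀(W, ℝ) → ℝ} {a b : ℝ} (hp : IsEqNorm p a b)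
    {M : Set W} (hM : PC p S M) (k : W → ℝ) (hk : Summable k) :
    dn p (push (ret M) k) ≤ dn p k := by
  have hlc : LocallyCompactSpace W := Pool.Agent.Helper74.Rsd.locallyCompact_W
  have hs := summable_push (ret M) hk
  set h := push (ret M) k with hh
  refine dn_le hp fun z hz => ?_
  refine le_of_forall_pos_le_add fun ε hε => ?_
  have ha := hp.a_pos
  have hm := mass_nonneg h univ
  have hzn := norm_nonneg z
  set B : ℝ := mass h univ + (‖z‖ + 1 / a) with hB
  have hB0 : 0 < B := by positivity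
  set η : ℝ := ε / B with hη
  have hη0 : 0 < η := by positivity
  obtain ⟨F, hF⟩ := exists_finset_mass hs η hη0
  obtain ⟨y, hy1, hy2, hy3⟩ := hM ((F : Set W) ∩ M) (F.finite_toSet.inter_of_left M)
    inter_subset_right z hz η hη0
  have hynorm : ‖y‖ ≤ 1 / a := by
    rw [le_div_iff₀ ha]
    have h1 := hp.lower y
    linarith [mul_comm a ‖y‖]
  have h1 : pr h y ≤ dn p k := by
    rw [hh, pr_push (ret M) hk y (fun γ δ hγ => ret_inv hS hy3 hγ)
      (fun γ hγ => ret_zero hS hy3 hγ)]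
    exact le_dn hp hk hy1
  have h2 : pr h z - pr h y ≤ ε := by
    rw [← pr_sub_right hs]
    have h3 : ∀ γ, h γ * (z - y) γ ≤ η * |h γ| + ((F : Set W)ᶜ).indicator (fun γ => |h γ|) γ
        * (‖z‖ + 1 / a) := by
      intro γ
      have h4 : h γ * (z - y) γ ≤ |h γ| * |z γ - y γ| := by
        rw [← abs_mul]
        exact le_abs_self _
      have h5 : |z γ - y γ| ≤ ‖z‖ + 1 / a := by
        have := abs_sub (z γ) (y γ)
        have := abs_apply_le z γ
        have := abs_apply_le y γ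
        linarith
      have h6 : 0 ≤ η * |h γ| := by positivity
      by_cases hγ : γ ∈ F
      · have h7 : γ ∉ ((F : Set W)ᶜ) := fun h => h hγ
        rw [indicator_of_notMem h7, zero_mul, add_zero]
        by_cases hγM : γ ∈ M
        · have h8 := hy2 γ ⟨hγ, hγM⟩
          rw [abs_sub_comm] at h8
          have := mul_le_mul_of_nonneg_left h8 (abs_nonneg (h γ))
          linarith
        · have h8 : h γ = 0 := push_support _ _ _ fun γ' h9 => hγM (ret_eq_some.mp h9).1
          rw [h8]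
          simp
      · have h7 : γ ∈ ((F : Set W)ᶜ) := hγ
        rw [indicator_of_mem h7]
        have := mul_le_mul_of_nonneg_left h5 (abs_nonneg (h γ))
        linarith
    have s1 : Summable (fun γ => η * |h γ|) := hs.abs.mul_left η
    have s2 : Summable (fun γ => ((F : Set W)ᶜ).indicator (fun γ => |h γ|) γ * (‖z‖ + 1 / a)) :=
      (summable_abs_ind hs _).mul_right _
    have h4 := (summable_pr hs (z - y)).tsum_le_tsum h3 (s1.add s2)
    rw [s1.tsum_add s2, tsum_mul_left, tsum_mul_right] at h4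
    have h5 : pr h (z - y) ≤ η * mass h univ + mass h ((F : Set W)ᶜ) * (‖z‖ + 1 / a) := by
      rw [mass_univ]
      exact h4
    have h6 : mass h ((F : Set W)ᶜ) * (‖z‖ + 1 / a) ≤ η * (‖z‖ + 1 / a) :=
      mul_le_mul_of_nonneg_right hF (by positivity)
    have h7 : ε = η * B := by
      rw [hη]
      field_simp
    have h8 : η * B = η * mass h univ + η * (‖z‖ + 1 / a) := by
      rw [hB]
      ring
    linarith
  linarith

/-- one step of the closing off -/
def stepC (S : C₀(W, ℝ) →ₗ[ℝ] (W → ℝ)) (A : Set W → Set C₀(W, ℝ)) (N : Set W) : Set W :=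
  N ∪ ⋃ F ∈ {F : Set W | F.Finite ∧ F ⊆ N}, ⋃ y ∈ A F, {θ | S y θ ≠ 0}

theorem countable_supp (hS : IsC0Op S) (y : C₀(W, ℝ)) : {θ | S y θ ≠ 0}.Countable := by
  have h1 : ∀ n : ℕ, {θ | (1 : ℝ) / (n + 1) ≤ |S y θ|}.Countable := fun n =>
    (hS.fin y _ (by positivity)).countable
  refine (countable_iUnion h1).mono ?_
  intro θ hθ
  have : 0 < |S y θ| := abs_pos.2 hθ
  obtain ⟨n, hn⟩ := exists_nat_one_div_lt this
  exact mem_iUnion.2 ⟨n, le_of_lt hn⟩

/-- existence of a monotone closing-off operator -/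
theorem exists_cl (hS : IsC0Op S) (p : C₀(W, ℝ) → ℝ) :
    ∃ cl : Set W → Set W, (∀ N, N.Countable → (cl N).Countable) ∧ (∀ N, N ⊆ cl N) ∧
      (∀ N N', N ⊆ N' → cl N ⊆ cl N') ∧ ∀ N, PC p S (cl N) := by
  classical
  have hA : ∀ F : Set W, ∃ A : Set C₀(W, ℝ), F.Finite → (A.Countable ∧ (∀ y ∈ A, p y ≤ 1) ∧
      ∀ x, p x ≤ 1 → ∀ ε > 0, ∃ y ∈ A, ∀ γ ∈ F, |y γ - x γ| ≤ ε) := by
    intro F
    by_cases hF : F.Finite
    · obtain ⟨A, hA⟩ := Pool.Agent.Helper74.Rsd.Closing.exists_dense p F hF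
      exact ⟨A, fun _ => hA⟩
    · exact ⟨∅, fun h => absurd h hF⟩
  choose A hA using hA
  have hsub : ∀ N, N ⊆ stepC S A N := fun N => subset_union_left
  have hmon : ∀ N N', N ⊆ N' → stepC S A N ⊆ stepC S A N' := by
    intro N N' h
    refine union_subset_union h ?_
    refine biUnion_mono ?_ fun _ _ => Subset.rfl
    rintro F ⟨h1, h2⟩
    exact ⟨h1, h2.trans h⟩
  have hcount : ∀ N, N.Countable → (stepC S A N).Countable := by
    intro N hN
    refine hN.union ?_
    refine (Set.countable_ofPred_finite_subset hN).biUnion ?_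
    rintro F ⟨hF, _⟩
    exact (hA F hF).1.biUnion (fun y _ => countable_supp hS y)
  let T : Set W → ℕ → Set W := fun N n => (stepC S A)^[n] N
  have hT1 : ∀ N n, T N (n + 1) = stepC S A (T N n) := fun N n => Function.iterate_succ_apply' _ _ _
  have hTmono : ∀ N, Monotone (T N) := fun N => by
    refine monotone_nat_of_le_succ (fun n => ?_)
    rw [hT1]
    exact hsub _
  have hTc : ∀ N, N.Countable → ∀ n, (T N n).Countable := by
    intro N hN n
    induction n with
    | zero => exact hN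
    | succ n ih =>
      rw [hT1]
      exact hcount _ ih
  have hTm : ∀ N N', N ⊆ N' → ∀ n, T N n ⊆ T N' n := by
    intro N N' h n
    induction n with
    | zero => exact h
    | succ n ih =>
      rw [hT1, hT1]
      exact hmon _ _ ih
  refine ⟨fun N => ⋃ n, T N n, fun N hN => countable_iUnion (hTc N hN),
    fun N => subset_iUnion (T N) 0, fun N N' h => iUnion_mono (hTm N N' h), ?_⟩
  intro N F hF hFN z hz ε hε
  have hFn : ∃ n, F ⊆ T N n := by
    have hFU : ∀ γ ∈ F, ∃ n, γ ∈ T N n := fun γ hγ => mem_iUnion.1 (hFN hγ)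
    choose! m hm using hFU
    obtain ⟨K, hK⟩ := (hF.image m).bddAbove
    exact ⟨K, fun γ hγ => hTmono N (hK ⟨γ, hγ, rfl⟩) (hm γ hγ)⟩
  obtain ⟨n, hn⟩ := hFn
  obtain ⟨-, h1, h2⟩ := hA F hF
  obtain ⟨y, hyA, hy⟩ := h2 z hz ε hε
  refine ⟨y, h1 y hyA, hy, fun θ hθ => mem_iUnion.mpr ⟨n + 1, ?_⟩⟩
  rw [hT1]
  refine Or.inr ?_
  exact mem_biUnion (show F ∈ {F : Set W | F.Finite ∧ F ⊆ T N n} from ⟨hF, hn⟩)
    (mem_biUnion hyA hθ)

end Pool.Agent.Helper74.Ord
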