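import Mathlib
import Pool.Agent.Helper74.Ord.Ret

/-! The covering property of one stage. -/

set_option autoImplicit false
set_option linter.unusedSectionVars false

open scoped ZeroAtInfty Topology
open Filter Set
open Pool.Agent.Helper74.Rsd (IsEqNorm pr mass dn IsC0Op)

namespace Pool.Agent.Helper74.Ord

section
variable {L Γ : Type*} [DecidableEq Γ]

theorem countable_pos {f : L → ℝ} (h : ∀ ε > 0, {γ | ε ≤ f γ}.Finite) :
    {γ | 0 < f γ}.Countable := by
  have h1 : ∀ n : ℕ, {γ | (1 : ℝ) / (n + 1) ≤ f γ}.Countable := fun n =>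
    (h _ (by positivity)).countable
  refine (countable_iUnion h1).mono ?_
  intro γ hγ
  obtain ⟨n, hn⟩ := exists_nat_one_div_lt (show 0 < f γ from hγ)
  exact mem_iUnion.2 ⟨n, le_of_lt hn⟩

/-- enlarging the weights -/
theorem exists_fw (A : L → Finset Γ → ℝ) (hA : IsFW A) (M : Finset Γ → Set L)
    (hMc : ∀ F, (M F).Countable) (hMm : ∀ F F', F ⊆ F' → M F ⊆ M F')
    (hAM : ∀ F, {γ | 0 < A γ F} ⊆ M F) :
    ∃ A' : L → Finset Γ → ℝ, IsFW A' ∧ (∀ γ F, A γ F ≤ A' γ F) ∧ ∀ γ F, 0 < A' γ F ↔ γ ∈ M F := by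
  classical
  have h1 : ∀ F, ∃ e : L → ℕ, InjOn e (M F) := fun F => Set.countable_iff_exists_injOn.mp (hMc F)
  choose e he using h1
  let w : L → Finset Γ → ℝ := fun γ F => if γ ∈ M F then (1 / 2) / ((e F γ : ℝ) + 1) else 0
  have hw0 : ∀ γ F, 0 ≤ w γ F := by
    intro γ F
    by_cases h : γ ∈ M F
    · simp only [w, h, if_true]
      positivity
    · simp [w, h]
  have hw1 : ∀ γ F, w γ F ≤ 1 / 2 := by
    intro γ F
    by_cases h : γ ∈ M F
    · simp only [w, h, if_true]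
      rw [div_le_iff₀ (by positivity)]
      have : (0 : ℝ) ≤ e F γ := Nat.cast_nonneg _
      linarith
    · simp [w, h]
  have hiff : ∀ γ F, 0 < max (A γ F) (w γ F) ↔ γ ∈ M F := by
    intro γ F
    constructor
    · intro h
      rcases lt_max_iff.mp h with h | h
      · exact hAM F h
      · by_contra hcon
        simp only [w, hcon, if_false] at h
        exact lt_irrefl _ h
    · intro h
      refine lt_of_lt_of_le ?_ (le_max_right _ _)
      simp only [w, h, if_true]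
      positivity
  refine ⟨fun γ F => max (A γ F) (w γ F), ⟨?_, ?_, ?_, ?_⟩, fun γ F => le_max_left _ _, hiff⟩
  · intro γ F
    exact (hA.nonneg γ F).trans (le_max_left _ _)
  · intro γ F
    exact max_le (hA.le_half γ F) (hw1 γ F)
  · intro F ε hε
    have h2 : {γ | ε ≤ w γ F}.Finite := by
      have h3 : {γ | ε ≤ w γ F} ⊆ M F ∩ e F ⁻¹' (Iic ⌈1 / ε⌉₊) := by
        intro γ hγ
        have hγ' : ε ≤ w γ F := hγ
        have hm : γ ∈ M F := by
          by_contra hcon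
          simp only [w, hcon, if_false] at hγ'
          linarith
        refine ⟨hm, ?_⟩
        simp only [w, hm, if_true] at hγ'
        rw [le_div_iff₀ (by positivity)] at hγ'
        have h4 : (e F γ : ℝ) ≤ 1 / ε := by
          rw [le_div_iff₀ hε]
          nlinarith
        have h5 : (e F γ : ℝ) ≤ (⌈1 / ε⌉₊ : ℝ) := h4.trans (Nat.le_ceil _)
        exact_mod_cast h5
      refine Finite.subset ?_ h3
      have h4 : (e F '' (M F ∩ e F ⁻¹' (Iic ⌈1 / ε⌉₊))).Finite := by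
        refine (finite_Iic ⌈1 / ε⌉₊).subset ?_
        rintro _ ⟨γ, ⟨-, h⟩, rfl⟩
        exact h
      exact Finite.of_finite_image h4 ((he F).mono inter_subset_left)
    refine ((hA.fin F ε hε).union h2).subset fun γ hγ => ?_
    rcases le_max_iff.mp (show ε ≤ max (A γ F) (w γ F) from hγ) with h | h
    · exact Or.inl h
    · exact Or.inr h
  · intro γ F F' hFF' h
    have h1 : γ ∈ M F := (hiff γ F).mp h
    exact (hiff γ F').mpr (hMm F F' hFF' h1)

end

variable {W : Type*} [LinearOrder W] [WellFoundedLT W] [TopologicalSpace W] [OrderTopology W]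

/-- the set attached to `x` -/
def Mx (S : C₀(W, ℝ) →ₗ[ℝ] (W → ℝ)) (A : W → Finset W → ℝ) (x : C₀(W, ℝ)) : Set W :=
  {γ | ∃ F : Finset W, (F : Set W) ⊆ {θ | S x θ ≠ 0} ∧ 0 < A γ F}

/-- the covering property of one stage -/
def Cov (S : C₀(W, ℝ) →ₗ[ℝ] (W → ℝ)) (p : C₀(W, ℝ) → ℝ) (A : W → Finset W → ℝ) : Prop :=
  ∀ x : C₀(W, ℝ), x ≠ 0 → Retr p (wG A S) (wbg S) x (ret (Mx S A x))

variable {S : C₀(W, ℝ) →ₗ[ℝ] (W → ℝ)}

theorem exists_jump (hS : IsJump S) (x : C₀(W, ℝ)) (hx : x ≠ 0) : ∃ θ, S x θ ≠ 0 := by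
  obtain ⟨γ0, hγ0⟩ : ∃ γ, x γ ≠ 0 := by
    by_contra hcon
    push Not at hcon
    exact hx (by ext γ; exact hcon γ)
  obtain ⟨θ, -, h2⟩ := hS.cover x γ0 hγ0
  exact ⟨θ, h2⟩

theorem exists_cov (hS : IsJump S) (p : C₀(W, ℝ) → ℝ) (a b : ℝ) (hp : IsEqNorm p a b)
    (A : W → Finset W → ℝ) (hA : IsFW A) :
    ∃ A' : W → Finset W → ℝ, IsFW A' ∧ (∀ γ F, A γ F ≤ A' γ F) ∧ Cov S p A' := by
  obtain ⟨cl, hcl1, hcl2, hcl3, hcl4⟩ := exists_cl hS.c0 p
  let M : Finset W → Set W := fun F => cl ((F : Set W) ∪ {γ | 0 < A γ F})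
  have hMm : ∀ F F', F ⊆ F' → M F ⊆ M F' := by
    intro F F' h
    refine hcl3 _ _ (union_subset_union (Finset.coe_subset.mpr h) ?_)
    intro γ hγ
    exact hA.mono γ F F' h hγ
  have hMF : ∀ F : Finset W, (F : Set W) ⊆ M F := fun F => subset_union_left.trans (hcl2 _)
  obtain ⟨A', hA', hAA', hpos⟩ := exists_fw A hA M
    (fun F => hcl1 _ (F.countable_toSet.union (countable_pos (hA.fin F)))) hMm
    (fun F => subset_union_right.trans (hcl2 _))
  refine ⟨A', hA', hAA', fun x hx => ?_⟩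
  obtain ⟨θ0, hθ0⟩ := exists_jump hS x hx
  have hsub : {θ | S x θ ≠ 0} ⊆ Mx S A' x := by
    intro θ hθ
    refine ⟨{θ}, by simpa using hθ, (hpos θ {θ}).mpr (hMF {θ} (by simp))⟩
  have hPC : PC p S (Mx S A' x) := by
    intro F1 hF1 hF1M z hz ε hε
    have h1 : ∃ F : Finset W, (F : Set W) ⊆ {θ | S x θ ≠ 0} ∧ F1 ⊆ M F := by
      induction F1, hF1 using Set.Finite.induction_on with
      | empty => exact ⟨∅, by simp, empty_subset _⟩
      | @insert γ F2 hγ _ ih =>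
        obtain ⟨F3, h2, h3⟩ := ih ((subset_insert _ _).trans hF1M)
        obtain ⟨F4, h4, h5⟩ := hF1M (mem_insert _ _)
        rw [hpos] at h5
        refine ⟨F3 ∪ F4, ?_, insert_subset ?_ (h3.trans (hMm _ _ Finset.subset_union_left))⟩
        · rw [Finset.coe_union]
          exact union_subset h2 h4
        · exact hMm _ _ Finset.subset_union_right h5
    obtain ⟨F, h2, h3⟩ := h1
    obtain ⟨y, hy1, hy2, hy3⟩ := hcl4 ((F : Set W) ∪ {γ | 0 < A γ F}) F1 hF1 h3 z hz ε hε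
    refine ⟨y, hy1, hy2, fun θ hθ => ⟨F, h2, (hpos θ F).mpr (hy3 hθ)⟩⟩
  refine ⟨?_, ?_, ?_, ?_, ?_, ?_, ?_, ?_⟩
  · intro γ δ h
    exact ret_self (ret_eq_some.mp h).1
  · intro γ δ h
    exact ret_inv hS hsub h
  · intro γ h
    exact ret_zero hS hsub h
  · intro k hk
    exact contr_of_PC hS hp hPC k hk
  · intro δ h
    obtain ⟨F, h1, h2⟩ := (ret_eq_some.mp h).1
    exact wG_gt hA' hS.c0 δ x θ0 hθ0 F h1 h2
  · intro δ h
    refine wG_eq hA' hS.c0 δ x fun F hF hcon => h (ret_self ⟨F, hF, hcon⟩)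
  · exact fun δ => fib_compact _ δ
  · exact ret_open _

/-- the family of retractions attached to `x` in a play -/
theorem cover_play (hS : IsJump S) (A : ℕ → W → Finset W → ℝ) (hA : ∀ n, IsFW (A n))
    (x : C₀(W, ℝ)) :
    {δ | ∃ n, ret (Mx S (A n) x) δ = some δ}.Countable ∧
    ∀ n γ, ret (Mx S (A n) x) γ ≠ none → ∃ δ, (∃ m, ret (Mx S (A m) x) δ = some δ) ∧
      ∀ m, ret (Mx S (A m) x) δ = some δ → ret (Mx S (A m) x) γ = some δ := by
  constructor
  · have h1 : ∀ n, (Mx S (A n) x).Countable := by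
      intro n
      have h2 : Mx S (A n) x ⊆ ⋃ F ∈ {F : Finset W | (F : Set W) ⊆ {θ | S x θ ≠ 0}},
          {γ | 0 < A n γ F} := by
        rintro γ ⟨F, h3, h4⟩
        exact mem_iUnion₂.mpr ⟨F, h3, h4⟩
      refine Countable.mono h2 (Countable.biUnion ?_ fun F _ => countable_pos ((hA n).fin F))
      have h3 : {F : Finset W | (F : Set W) ⊆ {θ | S x θ ≠ 0}}.Countable := by
        have h4 := Set.countable_ofPred_finite_subset (countable_supp hS.c0 x)
        have h5 := h4.preimage_of_injOn (f := fun F : Finset W => (F : Set W))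
          (Finset.coe_injective.injOn)
        refine h5.mono fun F hF => ?_
        exact ⟨F.finite_toSet, hF⟩
      exact h3
    refine (countable_iUnion h1).mono ?_
    rintro δ ⟨n, hn⟩
    exact mem_iUnion.mpr ⟨n, (ret_eq_some.mp hn).1⟩
  · intro n γ h
    obtain ⟨ε, h1, h2⟩ := ret_ne_none.mp h
    have h3 : ret (⋃ m, Mx S (A m) x) γ ≠ none :=
      ret_ne_none.mpr ⟨ε, mem_iUnion.mpr ⟨n, h1⟩, h2⟩
    obtain ⟨δ, hδ⟩ := Option.ne_none_iff_exists'.mp h3
    rw [ret_eq_some] at hδ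
    obtain ⟨h4, h5, h6⟩ := hδ
    obtain ⟨m, hm⟩ := mem_iUnion.mp h4
    refine ⟨δ, ⟨m, ret_self hm⟩, fun k hk => ?_⟩
    rw [ret_eq_some]
    exact ⟨(ret_eq_some.mp hk).1, h5, fun ε' h7 h8 => h6 ε' (mem_iUnion.mpr ⟨k, h7⟩) h8⟩

end Pool.Agent.Helper74.Ord
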