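import Mathlib
import Pool.Agent.Helper74.Ord.Cov
import Pool.Agent.Helper74.Rsd.Response

/-! The strategy. -/

set_option autoImplicit false
set_option linter.unusedSectionVars false

open scoped ZeroAtInfty Topology
open Filter Set

open Pool.Agent.Helper74.Rsd (IsEqNorm pr mass dn IsC0Op extend exists_extension)

namespace Pool.Agent.Helper74.Ord

variable {W Y : Type*} [LinearOrder W] [WellFoundedLT W] [TopologicalSpace W] [OrderTopology W]
variable [NormedAddCommGroup Y] [NormedSpace ℝ Y]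
variable {S : C₀(W, ℝ) →ₗ[ℝ] (W → ℝ)}

/-- the states of the game -/
structure St (W : Type*) [TopologicalSpace W] where
  p : C₀(W, ℝ) → ℝ
  A : W → Finset W → ℝ
  r : ℝ
  e : ℝ
  e' : ℝ

/-- valid states -/
structure Val (S : C₀(W, ℝ) →ₗ[ℝ] (W → ℝ)) (ι : Y →L[ℝ] C₀(W, ℝ)) (s : St W) : Prop where
  hp : ∃ a b, IsEqNorm s.p a b
  hA : IsFW s.A
  hr : 0 < s.r
  hr1 : s.r ≤ 1
  cov : Cov S s.p s.A
  he : 0 < s.e
  her : s.e ≤ s.r ^ 8
  heQ : ∀ z, 4 * s.e * ‖z‖ ≤ Q s.p (wG s.A S) s.r z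
  he' : 0 < s.e'
  hee : s.e' ≤ s.e
  ext : ∀ q : Y → ℝ, (∃ a b, IsEqNorm q a b) →
    (∀ y, |q y - Q s.p (wG s.A S) s.r (ι y)| ≤ s.e' * ‖y‖) →
    ∃ p' : C₀(W, ℝ) → ℝ, (∃ a b, IsEqNorm p' a b) ∧ (∀ y, p' (ι y) = q y) ∧
      ∀ z, |p' z - Q s.p (wG s.A S) s.r z| ≤ s.e / 2 * ‖z‖

/-- the open set of a state, as a set of norms on `Y` -/
def Op (S : C₀(W, ℝ) →ₗ[ℝ] (W → ℝ)) (ι : Y →L[ℝ] C₀(W, ℝ)) (s : St W) (q : Y → ℝ) : Prop :=
  ∃ c < s.e', ∀ y, |q y - Q s.p (wG s.A S) s.r (ι y)| ≤ c * ‖y‖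

/-- the response of the second player -/
theorem response (hS : IsJump S)
    (hsc : ∀ F : Set W, IsClosed F → F.Nonempty → ∃ γ ∈ F, ∃ N ∈ 𝓝 γ, N ∩ F ⊆ {γ})
    (ι : Y →L[ℝ] C₀(W, ℝ)) (c : ℝ) (hc : 0 < c) (hι : ∀ y, c * ‖y‖ ≤ ‖ι y‖)
    (p' : C₀(W, ℝ) → ℝ) (a b : ℝ) (hp : IsEqNorm p' a b) (A : W → Finset W → ℝ) (hA : IsFW A)
    (δ : ℝ) (hδ : 0 < δ) (ε1 : ℝ) (hε1 : 0 < ε1) :
    ∃ s : St W, Val S ι s ∧ s.p = p' ∧ (∀ γ F, A γ F ≤ s.A γ F) ∧ s.r ≤ δ ∧ s.e ≤ δ ∧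
      (∀ z, |Q s.p (wG s.A S) s.r z - p' z| ≤ δ * ‖z‖) ∧
      (∃ q : Y → ℝ, (∃ a b, IsEqNorm q a b) ∧ Op S ι s q) ∧
      ∀ q : Y → ℝ, Op S ι s q → ∀ y, |p' (ι y) - q y| ≤ ε1 * ‖y‖ := by
  have hlc : LocallyCompactSpace W := Pool.Agent.Helper74.Rsd.locallyCompact_W
  obtain ⟨A', hA', hAA', hC⟩ := exists_cov hS p' a b hp A hA
  have hG := isGain_wG hA' hS.c0
  have hb := hp.b_pos
  have ha := hp.a_pos
  set K : ℝ := b + 2 * b ^ 3 with hK
  have hK0 : 0 < K := by positivity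
  -- the parameter r
  set r : ℝ := min (min δ 1) (min (δ / K) (ε1 / (2 * (K * (‖ι‖ + 1))))) with hr
  have hr0 : 0 < r := by
    refine lt_min (lt_min hδ one_pos) (lt_min (by positivity) (by positivity))
  have hrδ : r ≤ δ := (min_le_left _ _).trans (min_le_left _ _)
  have hr1 : r ≤ 1 := (min_le_left _ _).trans (min_le_right _ _)
  have hrK : r ≤ δ / K := (min_le_right _ _).trans (min_le_left _ _)
  have hrε : r ≤ ε1 / (2 * (K * (‖ι‖ + 1))) := (min_le_right _ _).trans (min_le_right _ _)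
  have hQ := Q_isEqNorm (G := wG A' S) hsc hp hG hr0.le hr1
  set a2 : ℝ := a / (1 + b ^ 2) with ha2
  set b2 : ℝ := 2 * b with hb2
  have ha20 : 0 < a2 := hQ.a_pos
  have hb20 : 0 < b2 := hQ.b_pos
  have hdist := abs_Q_sub_le (G := wG A' S) hsc hp hG hr0.le hr1
  -- the radius e
  set e : ℝ := min (r ^ 8) (min (a2 / 4) δ) with he
  have he0 : 0 < e := lt_min (by positivity) (lt_min (by positivity) hδ)
  have he1 : e ≤ r ^ 8 := min_le_left _ _
  have he2 : e ≤ a2 / 4 := (min_le_right _ _).trans (min_le_left _ _)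
  have he3 : e ≤ δ := (min_le_right _ _).trans (min_le_right _ _)
  -- the radius e'
  set e' : ℝ := min (min e (ε1 / 2)) (min (a2 * c / 2) (e / 2 * (a2 * c) / b2)) with he'
  have he'0 : 0 < e' := lt_min (lt_min he0 (by positivity)) (lt_min (by positivity) (by positivity))
  have he'1 : e' ≤ e := (min_le_left _ _).trans (min_le_left _ _)
  have he'2 : e' ≤ ε1 / 2 := (min_le_left _ _).trans (min_le_right _ _)
  have he'3 : e' ≤ a2 * c / 2 := (min_le_right _ _).trans (min_le_left _ _)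
  have he'4 : e' ≤ e / 2 * (a2 * c) / b2 := (min_le_right _ _).trans (min_le_right _ _)
  have hιQ : ∀ y, a2 * c * ‖y‖ ≤ Q p' (wG A' S) r (ι y) := by
    intro y
    have h1 := hQ.lower (ι y)
    have h2 := mul_le_mul_of_nonneg_left (hι y) ha20.le
    linarith [mul_assoc a2 c ‖y‖]
  refine ⟨⟨p', A', r, e, e'⟩, ⟨⟨a, b, hp⟩, hA', hr0, hr1, hC, he0, he1, fun z => ?_, he'0, he'1,
    ?_⟩, rfl, hAA', hrδ, he3, fun z => ?_, ?_, ?_⟩
  · have h1 := hQ.lower z
    have h2 := mul_le_mul_of_nonneg_right he2 (norm_nonneg z)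
    change 4 * e * ‖z‖ ≤ Q p' (wG A' S) r z
    linarith
  · intro q ⟨a1, b1, hq⟩ hqQ
    have hε : (0 : ℝ) < e' / (a2 * c) := by positivity
    have hε' : e' / (a2 * c) < 1 := by
      rw [div_lt_one (by positivity)]
      have : 0 < a2 * c := by positivity
      linarith
    obtain ⟨p1, h1, h2, h3⟩ := extend ι (Q p' (wG A' S) r) a2 b2 hQ q a1 b1 hq (e' / (a2 * c)) hε hε'
      (fun y => by
        refine (hqQ y).trans ?_
        change e' * ‖y‖ ≤ e' / (a2 * c) * Q p' (wG A' S) r (ι y)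
        have h4 := mul_le_mul_of_nonneg_left (hιQ y) hε.le
        have h5 : e' / (a2 * c) * (a2 * c * ‖y‖) = e' * ‖y‖ := by
          field_simp
        linarith)
    refine ⟨p1, ⟨_, _, h1⟩, h2, fun z => (h3 z).trans ?_⟩
    change e' / (a2 * c) * Q p' (wG A' S) r z ≤ e / 2 * ‖z‖
    have h4 := mul_le_mul_of_nonneg_left (hQ.upper z) hε.le
    have h5 : e' / (a2 * c) * b2 ≤ e / 2 := by
      rw [div_mul_eq_mul_div, div_le_iff₀ (by positivity)]
      rw [le_div_iff₀ hb20] at he'4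
      exact he'4
    have h6 := mul_le_mul_of_nonneg_right h5 (norm_nonneg z)
    linarith [mul_assoc (e' / (a2 * c)) b2 ‖z‖]
  · refine (hdist z).trans (mul_le_mul_of_nonneg_right ?_ (norm_nonneg z))
    rw [le_div_iff₀ hK0] at hrK
    exact hrK
  · refine ⟨fun y => Q p' (wG A' S) r (ι y), ⟨a2 * c, b2 * (‖ι‖ + 1), ?_⟩, e' / 2, by
      change e' / 2 < e'
      linarith, fun y => ?_⟩
    · refine ⟨fun y z => ?_, fun d y => ?_, by positivity, by positivity, hιQ, fun y => ?_⟩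
      · rw [map_add]
        exact hQ.add _ _
      · rw [map_smul]
        exact hQ.smul _ _
      · have h1 := hQ.upper (ι y)
        have h2 : ‖ι y‖ ≤ (‖ι‖ + 1) * ‖y‖ := by
          have := ι.le_opNorm y
          have := norm_nonneg y
          linarith
        have h3 := mul_le_mul_of_nonneg_left h2 hb20.le
        linarith [mul_assoc b2 (‖ι‖ + 1) ‖y‖]
    · change |Q p' (wG A' S) r (ι y) - Q p' (wG A' S) r (ι y)| ≤ _
      rw [sub_self, abs_zero]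
      positivity
  · rintro q ⟨d, hd, hq⟩ y
    have h1 := hq y
    change |q y - Q p' (wG A' S) r (ι y)| ≤ d * ‖y‖ at h1
    have hd' : d < e' := hd
    have h2 := hdist (ι y)
    have h3 : r * K * ‖ι y‖ ≤ ε1 / 2 * ‖y‖ := by
      have h4 : ‖ι y‖ ≤ (‖ι‖ + 1) * ‖y‖ := by
        have := ι.le_opNorm y
        have := norm_nonneg y
        linarith
      have h5 : r * (2 * (K * (‖ι‖ + 1))) ≤ ε1 := by
        rw [le_div_iff₀ (by positivity)] at hrε
        exact hrε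
      calc r * K * ‖ι y‖ ≤ r * K * ((‖ι‖ + 1) * ‖y‖) :=
            mul_le_mul_of_nonneg_left h4 (by positivity)
        _ = (r * (2 * (K * (‖ι‖ + 1)))) / 2 * ‖y‖ := by ring
        _ ≤ ε1 / 2 * ‖y‖ := by
            refine mul_le_mul_of_nonneg_right (by linarith) (norm_nonneg _)
    have h4 : d * ‖y‖ ≤ ε1 / 2 * ‖y‖ :=
      mul_le_mul_of_nonneg_right (by linarith) (norm_nonneg _)
    have h5 := abs_le.mp h1
    have h6 := abs_le.mp (h2.trans h3)
    rw [abs_le]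
    constructor
    · linarith [h5.1, h5.2, h6.1, h6.2]
    · linarith [h5.1, h5.2, h6.1, h6.2]

end Pool.Agent.Helper74.Ord
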