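import Mathlib
import Pool.Agent.Helper74.Ord.Response
import Pool.Agent.Helper74.Ord.Play
import Pool.Agent.Helper74.Rsd.OmegaOne

/-! The residuality theorem. -/

set_option autoImplicit false
set_option linter.unusedSectionVars false

open scoped ZeroAtInfty Topology
open Filter Set

open Pool.Agent.Helper74.Rsd (IsEqNorm pr mass dn IsC0Op extend exists_extension Nm topNm game
  elementary locallyCompact_W isOpen_Iic_W abs_apply_le omega_c0)

namespace Pool.Agent.Helper74.Ord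

variable {W Y : Type*} [LinearOrder W] [WellFoundedLT W] [TopologicalSpace W] [OrderTopology W]
variable [NormedAddCommGroup Y] [NormedSpace ℝ Y]
variable {S : C₀(W, ℝ) →ₗ[ℝ] (W → ℝ)}

/-- the relation between consecutive states -/
structure Rel (S : C₀(W, ℝ) →ₗ[ℝ] (W → ℝ)) (s s' : St W) : Prop where
  r_le : s'.r ≤ s.r / 2
  A_le : ∀ γ F, s.A γ F ≤ s'.A γ F
  p_near : ∀ z, |s'.p z - Q s.p (wG s.A S) s.r z| ≤ s.e * ‖z‖
  Q_near : ∀ z, |Q s'.p (wG s'.A S) s'.r z - Q s.p (wG s.A S) s.r z| ≤ (s.e - s'.e) * ‖z‖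
  e_le : s'.e ≤ s.e / 2

/-- the limit of a sequence of consecutive states is a play -/
theorem limit_norm
    (hsc : ∀ F : Set W, IsClosed F → F.Nonempty → ∃ γ ∈ F, ∃ N ∈ 𝓝 γ, N ∩ F ⊆ {γ})
    (hS : IsJump S) (ι : Y →L[ℝ] C₀(W, ℝ))
    (hιinj : ∀ y, y ≠ 0 → ι y ≠ 0)
    (q : Y → ℝ) (s : ℕ → St W) (hval : ∀ n, Val S ι (s n)) (hrel : ∀ n, Rel S (s n) (s (n + 1)))
    (hq : ∀ n, Op S ι (s n) q) (y : Y) (hy : y ≠ 0) : DifferentiableAt ℝ q y := by
  have hlc : LocallyCompactSpace W := locallyCompact_W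
  set Qn : ℕ → C₀(W, ℝ) → ℝ := fun n z => Q (s n).p (wG (s n).A S) (s n).r z with hQn
  -- nestedness
  have hnest : ∀ n k, ∀ z, |Qn (n + k) z - Qn n z| ≤ ((s n).e - (s (n + k)).e) * ‖z‖ := by
    intro n k z
    induction k with
    | zero => simp
    | succ k ih =>
      have h1 := (hrel (n + k)).Q_near z
      have h2 : |Qn (n + k + 1) z - Qn (n + k) z| ≤ ((s (n + k)).e - (s (n + k + 1)).e) * ‖z‖ := h1
      have h3 : |Qn (n + (k + 1)) z - Qn n z| ≤
          |Qn (n + k + 1) z - Qn (n + k) z| + |Qn (n + k) z - Qn n z| := abs_sub_le _ _ _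
      have h4 : (s (n + (k + 1))).e = (s (n + k + 1)).e := rfl
      rw [h4]
      linarith
  have hnest' : ∀ n m, n ≤ m → ∀ z, |Qn m z - Qn n z| ≤ (s n).e * ‖z‖ := by
    intro n m hnm z
    obtain ⟨k, rfl⟩ := Nat.exists_eq_add_of_le hnm
    refine (hnest n k z).trans (mul_le_mul_of_nonneg_right ?_ (norm_nonneg z))
    linarith [(hval (n + k)).he]
  have he0 : Tendsto (fun n => (s n).e) atTop (𝓝 0) := by
    have h1 : ∀ n, (s n).e ≤ (s 0).e * (1 / 2) ^ n := by
      intro n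
      induction n with
      | zero => simp
      | succ n ih =>
        have := (hrel n).e_le
        rw [pow_succ]
        linarith
    have h2 : Tendsto (fun n : ℕ => (s 0).e * (1 / 2 : ℝ) ^ n) atTop (𝓝 ((s 0).e * 0)) :=
      (tendsto_pow_atTop_nhds_zero_of_lt_one (by norm_num) (by norm_num)).const_mul _
    rw [mul_zero] at h2
    exact squeeze_zero (fun n => (hval n).he.le) h1 h2
  have hr0 : Tendsto (fun n => (s n).r) atTop (𝓝[>] 0) := by
    rw [tendsto_nhdsWithin_iff]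
    refine ⟨?_, Filter.Eventually.of_forall fun n => (hval n).hr⟩
    have h1 : ∀ n, (s n).r ≤ (s 0).r * (1 / 2) ^ n := by
      intro n
      induction n with
      | zero => simp
      | succ n ih =>
        have := (hrel n).r_le
        rw [pow_succ]
        linarith
    have h2 : Tendsto (fun n : ℕ => (s 0).r * (1 / 2 : ℝ) ^ n) atTop (𝓝 ((s 0).r * 0)) :=
      (tendsto_pow_atTop_nhds_zero_of_lt_one (by norm_num) (by norm_num)).const_mul _
    rw [mul_zero] at h2
    exact squeeze_zero (fun n => (hval n).hr.le) h1 h2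
  -- the limit
  have hlim : ∀ z, ∃ v, Tendsto (fun n => Qn n z) atTop (𝓝 v) := by
    intro z
    apply cauchySeq_tendsto_of_complete
    refine cauchySeq_of_le_tendsto_0' (fun n => (s n).e * ‖z‖) ?_ ?_
    · intro n m hnm
      rw [dist_comm, Real.dist_eq]
      exact hnest' n m hnm z
    · have := he0.mul_const ‖z‖
      rwa [zero_mul] at this
  choose qt hqt using hlim
  have hqtn : ∀ n z, |qt z - Qn n z| ≤ (s n).e * ‖z‖ := by
    intro n z
    have h1 : Tendsto (fun m => |Qn m z - Qn n z|) atTop (𝓝 |qt z - Qn n z|) :=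
      ((hqt z).sub_const _).abs
    exact le_of_tendsto h1 (eventually_atTop.mpr ⟨n, fun m hm => hnest' n m hm z⟩)
  -- constants
  have hQ : ∀ n, ∃ a b, IsEqNorm (Qn n) a b := by
    intro n
    obtain ⟨a, b, hp⟩ := (hval n).hp
    exact ⟨_, _, Q_isEqNorm hsc hp (isGain_wG (hval n).hA hS.c0) (hval n).hr.le (hval n).hr1⟩
  obtain ⟨a0, b0, hQ0⟩ := hQ 0
  have ha0 := hQ0.a_pos
  have hb0 := hQ0.b_pos
  have he00 := (hval 0).he
  have heQ0 : ∀ z, 4 * (s 0).e * ‖z‖ ≤ Qn 0 z := (hval 0).heQ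
  have hqtN : IsEqNorm qt (a0 / 2) (b0 + (s 0).e) := by
    refine ⟨fun x z => ?_, fun c x => ?_, by positivity, by positivity, fun x => ?_, fun x => ?_⟩
    · refine le_of_tendsto_of_tendsto' (hqt (x + z)) ((hqt x).add (hqt z)) fun n => ?_
      obtain ⟨a, b, h⟩ := hQ n
      exact h.add x z
    · refine tendsto_nhds_unique (hqt (c • x)) (((hqt x).const_mul |c|).congr fun n => ?_)
      obtain ⟨a, b, h⟩ := hQ n
      exact (h.smul c x).symm
    · have h1 := (abs_le.mp (hqtn 0 x)).1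
      have h2 := heQ0 x
      have h3 := hQ0.lower x
      have h4 : 0 ≤ a0 * ‖x‖ := by positivity
      linarith
    · have h1 := (abs_le.mp (hqtn 0 x)).2
      have h3 := hQ0.upper x
      linarith
  have hqι : ∀ y, qt (ι y) = q y := by
    intro y
    have h1 : ∀ n, |q y - Qn n (ι y)| ≤ (s n).e * ‖y‖ := by
      intro n
      obtain ⟨c, hc, h⟩ := hq n
      refine (h y).trans (mul_le_mul_of_nonneg_right ?_ (norm_nonneg y))
      linarith [(hval n).hee]
    have h2 : Tendsto (fun n => Qn n (ι y)) atTop (𝓝 (q y)) := by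
      rw [tendsto_iff_dist_tendsto_zero]
      refine squeeze_zero (fun n => dist_nonneg) (fun n => ?_)
        (g := fun n => (s n).e * ‖y‖) ?_
      · rw [dist_comm, Real.dist_eq]
        exact h1 n
      · have := he0.mul_const ‖y‖
        rwa [zero_mul] at this
    exact tendsto_nhds_unique (hqt (ι y)) h2
  have hemono : ∀ n, (s n).e ≤ (s 0).e := by
    intro n
    induction n with
    | zero => exact le_rfl
    | succ n ih =>
      have h2 := (hrel n).e_le
      have h3 := (hval n).he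
      linarith
  -- the play
  have hpn : ∀ n, IsEqNorm (s (n + 1)).p (a0 / 2) (b0 + 2 * (s 0).e) := by
    intro n
    obtain ⟨a, b, hp⟩ := (hval (n + 1)).hp
    have h1 : ∀ z, |(s (n + 1)).p z - Qn 0 z| ≤ 2 * (s 0).e * ‖z‖ := by
      intro z
      have e1 := (hrel n).p_near z
      have e2 : |(s (n + 1)).p z - Qn n z| ≤ (s n).e * ‖z‖ := e1
      have e3 := hnest 0 n z
      rw [zero_add] at e3
      have e4 := abs_sub_le ((s (n + 1)).p z) (Qn n z) (Qn 0 z)
      have e5 := hemono n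
      have e6 : ((s 0).e - (s n).e) * ‖z‖ + (s n).e * ‖z‖ ≤ 2 * (s 0).e * ‖z‖ := by
        have := norm_nonneg z
        nlinarith
      linarith
    refine ⟨hp.add, hp.smul, by positivity, by positivity, fun z => ?_, fun z => ?_⟩
    · have h2 := (abs_le.mp (h1 z)).1
      have h3 := heQ0 z
      have h4 := hQ0.lower z
      have h5 : 0 ≤ a0 * ‖z‖ := by positivity
      linarith
    · have h2 := (abs_le.mp (h1 z)).2
      have h4 := hQ0.upper z
      linarith
  have hplay : IsPlay (a0 / 2) (b0 + 2 * (s 0).e) qt (wbg S) (fun n => (s (n + 1)).r)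
      (fun n => (s (n + 1)).p) (fun n => wG (s (n + 1)).A S) := by
    refine ⟨hr0.comp (tendsto_add_atTop_nat 1), hpn,
      fun n => isGain_wG (hval (n + 1)).hA hS.c0, ?_, ?_, ?_⟩
    · intro m n hmn
      refine wG_mono (hval (n + 1)).hA hS.c0 ?_
      intro γ F
      induction n, hmn using Nat.le_induction with
      | base => exact le_rfl
      | succ n _ ih => exact ih.trans ((hrel (n + 1)).A_le γ F)
    · intro n z
      refine (hqtn (n + 1) z).trans (mul_le_mul_of_nonneg_right (hval (n + 1)).her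
        (norm_nonneg z))
    · intro x hx
      exact ⟨fun n => ret (Mx S (s (n + 1)).A x), fun n => (hval (n + 1)).cov x hx,
        cover_play hS (fun n => (s (n + 1)).A) (fun n => (hval (n + 1)).hA) x⟩
  have hdiff := play_differentiable hsc (a0 / 2) (b0 + 2 * (s 0).e) (by positivity)
    (by positivity) qt _ _ hqtN _ _ _ _ hplay (ι y) (hιinj y hy)
  have h1 : DifferentiableAt ℝ (fun y => qt (ι y)) y := hdiff.comp y ι.differentiableAt
  have h2 : (fun y => qt (ι y)) = q := funext hqι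
  rwa [h2] at h1

/-- well-ordered sets are scattered -/
theorem scattered_W (F : Set W) (_ : IsClosed F) (hne : F.Nonempty) :
    ∃ γ ∈ F, ∃ N ∈ 𝓝 γ, N ∩ F ⊆ {γ} := by
  refine ⟨(wellFounded_lt (α := W)).min F hne, (wellFounded_lt (α := W)).min_mem F hne,
    Iic _, (isOpen_Iic_W _).mem_nhds (mem_Iic.mpr le_rfl), ?_⟩
  rintro δ ⟨h1, h2⟩
  exact le_antisymm h1 (not_lt.mp ((wellFounded_lt (α := W)).not_lt_min F h2))

/-- the residuality theorem in the language of the game -/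
theorem residual_aux (hS : IsJump S)
    (ι : Y →L[ℝ] C₀(W, ℝ)) (c : ℝ) (hc : 0 < c) (hι : ∀ y, c * ‖y‖ ≤ ‖ι y‖) :
    ∃ U : ℕ → Set (Nm Y), (∀ n, @IsOpen _ (topNm Y) (U n)) ∧ (∀ n, @Dense _ (topNm Y) (U n)) ∧
      ∀ q, (∀ n, q ∈ U n) → ∀ y, y ≠ 0 → DifferentiableAt ℝ q.1 y := by
  let _ := topNm Y
  have hlc : LocallyCompactSpace W := locallyCompact_W
  have hsc := scattered_W (W := W)
  have hιinj : ∀ y, y ≠ 0 → ι y ≠ 0 := by
    intro y hy h0
    have h1 := hι y
    rw [h0, norm_zero] at h1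
    have h2 : 0 < ‖y‖ := norm_pos_iff.mpr hy
    have : 0 < c * ‖y‖ := by positivity
    linarith
  let State := {s : St W // Val S ι s}
  let O : State → Set (Nm Y) := fun s => {q | Op S ι s.1 q.1}
  have hopen : ∀ s, IsOpen (O s) := by
    rintro s q ⟨c, hc, hq⟩
    refine ⟨(s.1.e' - c) / 2, by linarith, fun q' hq' => ⟨c + (s.1.e' - c) / 2, by linarith,
      fun y => ?_⟩⟩
    have h1 := abs_sub_le (q'.1 y) (q.1 y) (Q s.1.p (wG s.1.A S) s.1.r (ι y))
    have h2 := hq' y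
    rw [abs_sub_comm] at h2
    have h3 := hq y
    linarith [add_mul c ((s.1.e' - c) / 2) ‖y‖]
  have hresp : ∀ (p' : C₀(W, ℝ) → ℝ) (a b : ℝ) (_ : IsEqNorm p' a b) (A : W → Finset W → ℝ)
      (_ : IsFW A) (δ : ℝ) (_ : 0 < δ) (q : Nm Y) (_ : ∀ y, p' (ι y) = q.1 y)
      (V : Set (Nm Y)) (_ : IsOpen V) (_ : q ∈ V),
      ∃ s : State, s.1.p = p' ∧ (∀ γ F, A γ F ≤ s.1.A γ F) ∧ s.1.r ≤ δ ∧ s.1.e ≤ δ ∧
        (∀ z, |Q s.1.p (wG s.1.A S) s.1.r z - p' z| ≤ δ * ‖z‖) ∧ (O s).Nonempty ∧ O s ⊆ V := by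
    intro p' a b hp A hA δ hδ q hpq V hV hqV
    obtain ⟨ε1, hε1, hball⟩ := hV q hqV
    obtain ⟨s, hs, h1, h2, h3, h4, h5, ⟨q1, hq1, hq2⟩, h7⟩ := response hS hsc
      ι c hc hι p' a b hp A hA δ hδ ε1 hε1
    refine ⟨⟨s, hs⟩, h1, h2, h3, h4, h5, ⟨⟨q1, hq1⟩, hq2⟩, fun q2 hq2 => ?_⟩
    refine hball q2 fun y => ?_
    rw [← hpq]
    exact h7 q2.1 hq2 y
  have h0 : ∀ V : Set (Nm Y), IsOpen V → V.Nonempty → ∃ s, (O s).Nonempty ∧ O s ⊆ V := by
    rintro V hV ⟨q, hq⟩
    obtain ⟨a, b, hqN⟩ := q.2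
    obtain ⟨p', ⟨a', b', hp'⟩, hpq⟩ := exists_extension ι c hc hι q.1 a b hqN
    obtain ⟨s, -, -, -, -, -, h6, h7⟩ := hresp p' a' b' hp' (fun _ _ => 0)
      ⟨fun _ _ => le_rfl, fun _ _ => by norm_num, fun _ ε hε => by
        have : {γ : W | ε ≤ (0 : ℝ)} = ∅ := by
          ext γ
          simp [hε]
        rw [this]
        exact finite_empty, fun _ _ _ _ h => h⟩ 1 one_pos q hpq V hV hq
    exact ⟨s, h6, h7⟩
  have hstep : ∀ s, ∀ V : Set (Nm Y), IsOpen V → V.Nonempty → V ⊆ O s →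
      ∃ s' : State, Rel S s.1 s'.1 ∧ (O s').Nonempty ∧ O s' ⊆ V := by
    rintro s V hV ⟨q, hq⟩ hVO
    obtain ⟨c1, hc1, hq1⟩ := hVO hq
    obtain ⟨p', ⟨a', b', hp'⟩, hpq, hpQ⟩ := s.2.ext q.1 q.2 (fun y =>
      (hq1 y).trans (mul_le_mul_of_nonneg_right hc1.le (norm_nonneg y)))
    have hr := s.2.hr
    have he := s.2.he
    obtain ⟨s', h1, h2, h3, h4, h5, h6, h7⟩ := hresp p' a' b' hp' s.1.A s.2.hA
      (min (s.1.r / 2) (s.1.e / 4)) (lt_min (by positivity) (by positivity)) q hpq V hV hq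
    have hδ1 : min (s.1.r / 2) (s.1.e / 4) ≤ s.1.r / 2 := min_le_left _ _
    have hδ2 : min (s.1.r / 2) (s.1.e / 4) ≤ s.1.e / 4 := min_le_right _ _
    refine ⟨s', ⟨h3.trans hδ1, h2, fun z => ?_, fun z => ?_, ?_⟩, h6, h7⟩
    · rw [h1]
      refine (hpQ z).trans (mul_le_mul_of_nonneg_right (by linarith) (norm_nonneg z))
    · have e1 := h5 z
      have e2 := hpQ z
      have e3 := abs_sub_le (Q s'.1.p (wG s'.1.A S) s'.1.r z) (p' z) (Q s.1.p (wG s.1.A S) s.1.r z)
      have e4 : min (s.1.r / 2) (s.1.e / 4) * ‖z‖ ≤ s.1.e / 4 * ‖z‖ :=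
        mul_le_mul_of_nonneg_right hδ2 (norm_nonneg z)
      have e5 : s'.1.e * ‖z‖ ≤ s.1.e / 4 * ‖z‖ :=
        mul_le_mul_of_nonneg_right (h4.trans hδ2) (norm_nonneg z)
      linarith
    · linarith [h4.trans hδ2]
  obtain ⟨U, hU1, hU2, hU3⟩ := game O (fun s s' => Rel S s.1 s'.1) hopen h0 hstep
  refine ⟨U, hU1, hU2, fun q hq y hy => ?_⟩
  obtain ⟨s, hs⟩ := hU3 q hq
  exact limit_norm hsc hS ι hιinj q.1 (fun n => (s n).1) (fun n => (s n).2)
    (fun n => (hs n).1) (fun n => (hs n).2) y hy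

open Classical in
/-- the next value of a function -/
noncomputable def nxt (x : W → ℝ) (θ : W) : ℝ :=
  if h : (Ioi θ).Nonempty then x ((wellFounded_lt (α := W)).min (Ioi θ) h) else 0

theorem nxt_eq (x : W → ℝ) {θ σ : W} (h : IsLeast (Ioi θ) σ) : nxt x θ = x σ := by
  have hne : (Ioi θ).Nonempty := ⟨σ, h.1⟩
  unfold nxt
  rw [dif_pos hne]
  congr 1
  refine le_antisymm ((wellFounded_lt (α := W)).min_le h.1) ?_
  exact h.2 ((wellFounded_lt (α := W)).min_mem (Ioi θ) hne)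

theorem exists_least {θ m : W} (h : θ < m) : ∃ σ, IsLeast (Ioi θ) σ :=
  ⟨_, (wellFounded_lt (α := W)).min_mem (Ioi θ) ⟨m, h⟩, fun _ hβ =>
    (wellFounded_lt (α := W)).min_le hβ⟩

theorem abs_nxt_le (x : C₀(W, ℝ)) (θ : W) : |nxt x θ| ≤ ‖x‖ := by
  by_cases h : (Ioi θ).Nonempty
  · obtain ⟨m, hm⟩ := h
    obtain ⟨σ, hσ⟩ := exists_least (show θ < m from hm)
    rw [nxt_eq x hσ]
    exact abs_apply_le x σ
  · unfold nxt
    rw [dif_neg h, abs_zero]
    exact norm_nonneg x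

/-- only finitely many large jumps -/
theorem nxt_c0 (x : C₀(W, ℝ)) (ε : ℝ) (hε : 0 < ε) : {θ | ε ≤ |x θ - nxt x θ|}.Finite := by
  rcases isEmpty_or_nonempty W with hW | ⟨⟨w⟩⟩
  · exact Set.toFinite _
  have key : ∀ β : W, ({θ | ε ≤ |x θ - nxt x θ|} ∩ Iic β).Finite := by
    intro β
    induction β using WellFoundedLT.induction with
    | ind β ih =>
      by_cases hlt : ∃ l, l < β
      · have hn : {θ | |x θ - x β| < ε / 2} ∈ 𝓝 β := by
          have hc : Continuous fun θ => |x θ - x β| :=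
            ((map_continuous x).sub continuous_const).abs
          have := (isOpen_Iio (a := ε / 2)).preimage hc
          exact this.mem_nhds (by simp; linarith)
        obtain ⟨α, hα, hsub⟩ := exists_Ioc_subset_of_mem_nhds hn hlt
        refine ((ih α hα).union (finite_singleton β)).subset ?_
        rintro θ ⟨hθ, hθβ⟩
        rcases eq_or_lt_of_le (mem_Iic.1 hθβ) with h | h
        · exact Or.inr h
        · left
          refine ⟨hθ, ?_⟩
          by_contra hc
          have hαθ : α < θ := not_le.1 hc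
          obtain ⟨σ, hσ⟩ := exists_least h
          have h1 := hsub ⟨hαθ, hθβ⟩
          have h2 := hsub ⟨hαθ.trans hσ.1, hσ.2 h⟩
          simp only [mem_ofPred_eq, nxt_eq x hσ] at h1 h2 hθ
          have h3 : |x θ - x σ| ≤ |x θ - x β| + |x σ - x β| := by
            have := abs_sub (x θ - x β) (x σ - x β)
            simpa using this
          linarith
      · refine (finite_singleton β).subset ?_
        rintro θ ⟨hθ, hθβ⟩
        rcases eq_or_lt_of_le (mem_Iic.1 hθβ) with h | h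
        · exact h
        · exact absurd ⟨θ, h⟩ hlt
  by_cases hmax : ∃ β : W, ∀ γ, γ ≤ β
  · obtain ⟨β, hβ⟩ := hmax
    exact (key β).subset fun θ hθ => ⟨hθ, hβ θ⟩
  push Not at hmax
  obtain ⟨β, hβ⟩ := Pool.Agent.Helper74.Rsd.Omega.exists_bound x (ε / 2) (by linarith) w
  refine (key β).subset fun θ hθ => ⟨hθ, ?_⟩
  by_contra hc
  have hβθ : β < θ := not_le.1 hc
  obtain ⟨m, hm⟩ := hmax θ
  obtain ⟨σ, hσ⟩ := exists_least hm
  have h1 := hβ θ hβθ
  have h2 := hβ σ (hβθ.trans hσ.1)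
  simp only [mem_ofPred_eq, nxt_eq x hσ] at hθ
  have h3 : |x θ - x σ| ≤ |x θ| + |x σ| := abs_sub _ _
  linarith

/-- the theorem for subspaces of `C₀(W)` -/
theorem ordinal (W : Type*) [LinearOrder W] [WellFoundedLT W]
    [TopologicalSpace W] [OrderTopology W]
    (Y : Type*) [NormedAddCommGroup Y] [NormedSpace ℝ Y]
    (T : Y →L[ℝ] C₀(W, ℝ)) (c : ℝ) (hc : 0 < c) (hT : ∀ y, c * ‖y‖ ≤ ‖T y‖) :
    ∃ U : ℕ → Set (Nm Y), (∀ n, @IsOpen _ (topNm Y) (U n)) ∧ (∀ n, @Dense _ (topNm Y) (U n)) ∧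
      ∀ q, (∀ n, q ∈ U n) → ∀ y, y ≠ 0 → DifferentiableAt ℝ q.1 y := by
  let S : C₀(W, ℝ) →ₗ[ℝ] (W → ℝ) :=
    { toFun := fun x θ => (1 / 2) * (x θ - nxt x θ)
      map_add' := by
        intro x y
        funext θ
        simp only [ZeroAtInftyContinuousMap.add_apply, Pi.add_apply, nxt]
        split_ifs <;> ring
      map_smul' := by
        intro d x
        funext θ
        simp only [ZeroAtInftyContinuousMap.smul_apply, Pi.smul_apply, smul_eq_mul,
          RingHom.id_apply, nxt]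
        split_ifs <;> ring }
  have hSdef : ∀ x θ, S x θ = (1 / 2) * (x θ - nxt x θ) := fun _ _ => rfl
  have hS : IsJump S := by
    refine ⟨⟨fun x θ => ?_, fun x ε hε => ?_⟩, fun x θ σ hσ h => ?_, fun x γ h => ?_⟩
    · rw [hSdef, abs_mul, abs_of_pos (by norm_num : (0 : ℝ) < 1 / 2)]
      have h1 := abs_apply_le x θ
      have h2 := abs_nxt_le x θ
      have h3 := abs_sub (x θ) (nxt x θ)
      linarith
    · refine (nxt_c0 x (2 * ε) (by positivity)).subset fun θ hθ => ?_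
      have h1 : ε ≤ |S x θ| := hθ
      rw [hSdef, abs_mul, abs_of_pos (by norm_num : (0 : ℝ) < 1 / 2)] at h1
      change 2 * ε ≤ |x θ - nxt x θ|
      linarith
    · rw [hSdef, nxt_eq x hσ] at h
      linarith
    · by_contra hcon
      push Not at hcon
      have hc1 : ∀ m, γ ≤ m → x m = x γ := fun m hm =>
        const_interval x γ m hm fun θ σ h0 h4 _ => by
          have h5 := hcon θ h4
          rw [hSdef, nxt_eq x h0] at h5
          linarith
      by_cases hmax : ∃ β : W, ∀ δ, δ ≤ β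
      · obtain ⟨β, hβ⟩ := hmax
        have h5 := hcon β (hβ γ)
        have h6 : nxt x β = 0 := by
          unfold nxt
          rw [dif_neg]
          rintro ⟨δ, hδ⟩
          exact absurd (hβ δ) (not_le.mpr hδ)
        rw [hSdef, h6, hc1 β (hβ γ)] at h5
        apply h
        linarith
      · push Not at hmax
        obtain ⟨β, hβ⟩ := Pool.Agent.Helper74.Rsd.Omega.exists_bound x |x γ| (abs_pos.2 h) γ
        obtain ⟨m, hm⟩ := hmax (max β γ)
        have h1 := hβ m ((le_max_left β γ).trans_lt hm)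
        rw [hc1 _ ((le_max_right β γ).trans hm.le)] at h1
        exact lt_irrefl _ h1
  exact residual_aux hS T c hc hT

end Pool.Agent.Helper74.Ord
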